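import Mathlib

set_option autoImplicit false

namespace Pool.Agent.P.MP_970871_ag

open MvPolynomial

abbrev VV := Fin 6 → ℂ
abbrev PP := MvPolynomial (Fin 6) ℂ

/-- The differential of `p` at `x`. -/
noncomputable def D (p : PP) (x : VV) : VV →ₗ[ℂ] ℂ :=
  ∑ i, eval x (pderiv i p) • LinearMap.proj i

theorem D_apply (p : PP) (x v : VV) : D p x v = ∑ i, eval x (pderiv i p) * v i := by
  simp [D]

theorem D_add (p r : PP) (x v : VV) : D (p + r) x v = D p x v + D r x v := by
  simp [D_apply, add_mul, Finset.sum_add_distrib]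

theorem D_sub (p r : PP) (x v : VV) : D (p - r) x v = D p x v - D r x v := by
  simp [D_apply, sub_mul, Finset.sum_sub_distrib]

theorem D_neg (p : PP) (x v : VV) : D (-p) x v = -D p x v := by
  simp [D_apply]

theorem D_C (a : ℂ) (x v : VV) : D (C a) x v = 0 := by
  simp [D_apply]

theorem D_X (i : Fin 6) (x v : VV) : D (X i) x v = v i := by
  simp [D_apply, pderiv_X, Pi.single_apply, apply_ite]

theorem D_mul (p r : PP) (x v : VV) :
    D (p * r) x v = D p x v * eval x r + eval x p * D r x v := by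
  simp only [D_apply, pderiv_mul, map_add, map_mul, Finset.sum_mul, Finset.mul_sum,
    ← Finset.sum_add_distrib]
  exact Finset.sum_congr rfl fun i _ => by ring

theorem hasDerivAt_eval (p : PP) {γ : ℂ → VV} {v : VV} {a : ℂ} (h : HasDerivAt γ v a) :
    HasDerivAt (fun e => eval (γ e) p) (D p (γ a) v) a := by
  induction p using MvPolynomial.induction_on with
  | C r => simpa [D_C] using hasDerivAt_const a r
  | add p r hp hr =>
    simp only [map_add, D_add]
    exact hp.add hr
  | mul_X p i hp =>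
    simp only [map_mul, eval_X, D_mul, D_X]
    exact hp.mul (hasDerivAt_pi.1 h i)

theorem hasDerivAt_line (x v : VV) (a : ℂ) : HasDerivAt (fun e : ℂ => x + e • v) v a := by
  simpa using ((hasDerivAt_id a).smul_const v).const_add x

theorem hasDerivAt_eval_line (p : PP) (x v : VV) :
    HasDerivAt (fun e : ℂ => eval (x + e • v) p) (D p x v) 0 := by
  simpa using hasDerivAt_eval p (hasDerivAt_line x v 0)

/-- Homogeneity as a function. -/
def Hom (p : PP) (n : ℕ) : Prop := ∀ (t : ℂ) (x : VV), eval (t • x) p = t ^ n * eval x p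

theorem hom_of {p : PP} {n : ℕ} (h : p.IsHomogeneous n) : Hom p n := by
  intro t x
  rw [eval_eq', eval_eq', Finset.mul_sum]
  refine Finset.sum_congr rfl fun d hd => ?_
  have h1 : ∑ i, d i = n := by
    have := h (mem_support_iff.1 hd)
    rw [← this, Finsupp.weight_apply, Finsupp.sum_fintype _ _ (by simp)]
    simp
  simp only [Pi.smul_apply, smul_eq_mul, mul_pow, Finset.prod_mul_distrib,
    Finset.prod_pow_eq_pow_sum, h1]
  ring

theorem Hom.mul {p r : PP} {m n : ℕ} (hp : Hom p m) (hr : Hom r n) : Hom (p * r) (m + n) := by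
  intro t x
  simp only [map_mul, hp t x, hr t x]
  ring

theorem hom_X (i : Fin 6) : Hom (X i) 1 := by
  intro t x
  simp

theorem Hom.euler {p : PP} {n : ℕ} (h : Hom p n) (x : VV) : D p x x = n * eval x p := by
  have h1 := hasDerivAt_eval_line p x x
  have h2 : (fun e : ℂ => eval (x + e • x) p) = fun e => (1 + e) ^ n * eval x p := by
    funext e
    rw [← h (1 + e) x, add_smul, one_smul]
  rw [h2] at h1
  have h3 := (((hasDerivAt_id (0 : ℂ)).const_add 1).pow n).mul_const (eval x p)
  have := h1.unique h3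
  simpa using this

theorem Hom.D_smul {p : PP} {n : ℕ} (h : Hom p (n + 1)) {t : ℂ} (ht : t ≠ 0) (x v : VV) :
    D p (t • x) v = t ^ n * D p x v := by
  have h1 := hasDerivAt_eval_line p (t • x) (t • v)
  have h2 : (fun e : ℂ => eval (t • x + e • t • v) p) =
      fun e => t ^ (n + 1) * eval (x + e • v) p := by
    funext e
    rw [← h t, smul_add, smul_comm e t v]
  rw [h2] at h1
  have h3 := h1.unique ((hasDerivAt_eval_line p x v).const_mul (t ^ (n + 1)))
  rw [map_smul, smul_eq_mul] at h3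
  apply mul_left_cancel₀ ht
  rw [h3]
  ring

/-- Polynomial functions. -/
def IsPoly (f : VV → ℂ) : Prop := ∃ p : PP, ∀ x, eval x p = f x

theorem IsPoly.ev (p : PP) : IsPoly fun x => eval x p := ⟨p, fun _ => rfl⟩

theorem IsPoly.const (a : ℂ) : IsPoly fun _ => a := ⟨C a, fun _ => by simp⟩

theorem IsPoly.coord (i : Fin 6) : IsPoly fun x => x i := ⟨X i, fun _ => by simp⟩

theorem IsPoly.add {f g : VV → ℂ} (hf : IsPoly f) (hg : IsPoly g) : IsPoly fun x => f x + g x := by
  obtain ⟨p, hp⟩ := hf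
  obtain ⟨r, hr⟩ := hg
  exact ⟨p + r, fun x => by simp [hp, hr]⟩

theorem IsPoly.sub {f g : VV → ℂ} (hf : IsPoly f) (hg : IsPoly g) : IsPoly fun x => f x - g x := by
  obtain ⟨p, hp⟩ := hf
  obtain ⟨r, hr⟩ := hg
  exact ⟨p - r, fun x => by simp [hp, hr]⟩

theorem IsPoly.mul {f g : VV → ℂ} (hf : IsPoly f) (hg : IsPoly g) : IsPoly fun x => f x * g x := by
  obtain ⟨p, hp⟩ := hf
  obtain ⟨r, hr⟩ := hg
  exact ⟨p * r, fun x => by simp [hp, hr]⟩

theorem IsPoly.pow {f : VV → ℂ} (hf : IsPoly f) (n : ℕ) : IsPoly fun x => f x ^ n := by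
  obtain ⟨p, hp⟩ := hf
  exact ⟨p ^ n, fun x => by simp [hp]⟩

theorem IsPoly.sum {ι : Type} [Fintype ι] {f : ι → VV → ℂ} (hf : ∀ i, IsPoly (f i)) :
    IsPoly fun x => ∑ i, f i x := by
  choose p hp using hf
  exact ⟨∑ i, p i, fun x => by simp [hp]⟩

theorem IsPoly.comp (p : PP) {f : VV → VV} (hf : ∀ i, IsPoly fun x => f x i) :
    IsPoly fun x => eval (f x) p := by
  induction p using MvPolynomial.induction_on with
  | C r => simpa using IsPoly.const r
  | add p r hp hr => simpa using hp.add hr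
  | mul_X p i hp => simpa using hp.mul (hf i)

theorem IsPoly.D (p : PP) {f g : VV → VV} (hf : ∀ i, IsPoly fun x => f x i)
    (hg : ∀ i, IsPoly fun x => g x i) : IsPoly fun x => D p (f x) (g x) := by
  simp only [D_apply]
  exact IsPoly.sum fun i => (IsPoly.comp _ hf).mul (hg i)

theorem IsPoly.lin (T : VV →ₗ[ℂ] VV) (i : Fin 6) : IsPoly fun x => T x i := by
  have : ∀ x : VV, T x i = ∑ j, x j * T (Pi.single j 1) i := by
    intro x
    conv_lhs => rw [pi_eq_sum_univ' x]
    simp only [map_sum, map_smul, Finset.sum_apply, Pi.smul_apply, smul_eq_mul]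
  rw [funext this]
  exact IsPoly.sum fun j => (IsPoly.coord j).mul (IsPoly.const _)

theorem IsPoly.det {A : VV → (VV →ₗ[ℂ] VV)} (h : ∀ v i, IsPoly fun x => A x v i) :
    IsPoly fun x => LinearMap.det (A x) := by
  choose p hp using h
  refine ⟨(Matrix.of fun i j => p (Pi.single j 1) i).det, fun x => ?_⟩
  beta_reduce
  rw [RingHom.map_det, ← LinearMap.det_toMatrix']
  congr 1
  ext i j
  simp [hp, LinearMap.toMatrix'_apply]

theorem det_unip (U : VV →ₗ[ℂ] VV) (h : IsNilpotent (U - 1)) : LinearMap.det U = 1 := by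
  have h1 := IsNilpotent.charpoly_eq_X_pow_finrank h.neg
  have h2 := LinearMap.eval_charpoly (-(U - 1)) 1
  rw [h1] at h2
  simpa using h2.symm

theorem det_flag (M : VV →ₗ[ℂ] VV) (α β : VV →ₗ[ℂ] ℂ) (a b x : VV) (ρ w s r : ℂ)
    (haa : α a = 1) (hba : β a = 0) (hab : α b = 0) (hbb : β b = 1) (hx : x ≠ 0)
    (hax : α x = 0) (hbx : β x = 0) (hρ : ρ ≠ 0) (hw : w ≠ 0) (hs : s ≠ 0) (hr : r ≠ 0)
    (h1 : M x = ρ • x) (h2 : ∀ v, α v = 0 → β v = 0 → ∃ k : ℂ, M v = w • v + k • x)
    (h3 : ∀ v, α (M v) = s * α v) (h4 : ∀ v, β (M v) = r * β v) :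
    LinearMap.det M = ρ * w ^ 3 * s * r := by
  obtain ⟨i, hi⟩ := Function.ne_iff.1 hx
  have hi' : x i ≠ 0 := hi
  let γ : VV →ₗ[ℂ] ℂ := (x i)⁻¹ • LinearMap.proj i
  have hγ : γ x = 1 := by simp [γ, hi']
  let E : VV →ₗ[ℂ] VV := w⁻¹ • (LinearMap.transvection ((w / s - 1) • α) a ∘ₗ
    LinearMap.transvection ((w / r - 1) • β) b ∘ₗ LinearMap.transvection ((w / ρ - 1) • γ) x)
  have hE : LinearMap.det E = (ρ * w ^ 3 * s * r)⁻¹ := by
    simp only [E, LinearMap.det_smul, LinearMap.det_comp, LinearMap.transvection.det,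
      LinearMap.smul_apply, haa, hbb, hγ, smul_eq_mul, Module.finrank_fin_fun]
    field_simp
    ring
  have hEa : ∀ v, α (E v) = s⁻¹ * α v := by
    intro v
    simp only [E, LinearMap.smul_apply, LinearMap.comp_apply, LinearMap.transvection.apply,
      map_smul, map_add, haa, hab, hax, smul_eq_mul]
    field_simp
    ring
  have hEb : ∀ v, β (E v) = r⁻¹ * β v := by
    intro v
    simp only [E, LinearMap.smul_apply, LinearMap.comp_apply, LinearMap.transvection.apply,
      map_smul, map_add, hba, hbb, hbx, smul_eq_mul]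
    field_simp
    ring
  have hEv : ∀ v, α v = 0 → β v = 0 →
      E v = w⁻¹ • v + (w⁻¹ * ((w / ρ - 1) * γ v)) • x := by
    intro v hv1 hv2
    simp only [E, LinearMap.smul_apply, LinearMap.comp_apply, LinearMap.transvection.apply,
      map_smul, map_add, hax, hbx, hv1, hv2, smul_eq_mul, mul_zero, add_zero, zero_smul,
      smul_add, smul_smul]
  set U := M ∘ₗ E with hU
  have u1 : (U - 1) x = 0 := by
    simp only [hU, LinearMap.sub_apply, LinearMap.comp_apply, hEv x hax hbx, map_smul,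
      h1, hγ, smul_smul, Module.End.one_apply, ← add_smul]
    have : (w⁻¹ + w⁻¹ * ((w / ρ - 1) * 1)) * ρ = 1 := by
      field_simp
      ring
    rw [this, one_smul, sub_self]
  have u2 : ∀ v, α v = 0 → β v = 0 → ∃ k : ℂ, (U - 1) v = k • x := by
    intro v hv1 hv2
    obtain ⟨k, hk⟩ := h2 v hv1 hv2
    refine ⟨w⁻¹ * k + w⁻¹ * ((w / ρ - 1) * γ v) * ρ, ?_⟩
    simp only [hU, LinearMap.sub_apply, LinearMap.comp_apply, hEv v hv1 hv2, map_add, map_smul,
      h1, hk, smul_smul, Module.End.one_apply, smul_add, inv_mul_cancel₀ hw, one_smul, add_smul]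
    abel
  have u3 : ∀ v, α ((U - 1) v) = 0 := by
    intro v
    simp only [hU, LinearMap.sub_apply, LinearMap.comp_apply, map_sub, h3, hEa,
      Module.End.one_apply]
    field_simp
    ring
  have u4 : ∀ v, β ((U - 1) v) = 0 := by
    intro v
    simp only [hU, LinearMap.sub_apply, LinearMap.comp_apply, map_sub, h4, hEb,
      Module.End.one_apply]
    field_simp
    ring
  have hnil : IsNilpotent (U - 1) := by
    refine ⟨3, LinearMap.ext fun v => ?_⟩
    obtain ⟨k, hk⟩ := u2 _ (u3 v) (u4 v)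
    rw [pow_succ', pow_two, Module.End.mul_apply, Module.End.mul_apply, hk, map_smul, u1]
    simp
  have := det_unip U hnil
  rw [hU, LinearMap.det_comp, hE] at this
  exact (mul_inv_eq_one₀ (by simp [hρ, hw, hs, hr])).1 this

end Pool.Agent.P.MP_970871_ag
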