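import Pool.Agent.P.MP_970871_ag.Geo

set_option autoImplicit false

namespace Pool.Agent.P.MP_970871_ag

open MvPolynomial Matrix

theorem rep_mk {x : VV} (hx : x ≠ 0) :
    ∃ a : ℂ, a ≠ 0 ∧ (Projectivization.mk ℂ x hx).rep = a • x := by
  obtain ⟨a, ha⟩ := Projectivization.exists_smul_eq_mk_rep ℂ x hx
  exact ⟨a, a.ne_zero, ha.symm⟩

theorem mem_lines {L : Net} (hL : ∀ k, (L k).IsSymm) {c : PP}
    (hc : ∀ u v, 4 * eval (plucker u v) c = DD L u v) (z : Projectivization ℂ VV) :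
    z ∈ lines L ↔ OnX qq c z.rep := by
  constructor
  · rintro ⟨u, v, e, h⟩
    rw [on_quadric_iff hL, ← hc] at h
    exact ⟨z.rep_nonzero, by rw [e, qq_plucker], by rw [e]; simpa using h⟩
  · rintro ⟨h0, h1, h2⟩
    obtain ⟨u, v, e⟩ := exists_plucker h0 h1
    exact ⟨u, v, e, by rw [on_quadric_iff hL, ← hc, ← e, h2, mul_zero]⟩

theorem mk_mem {L : Net} (hL : ∀ k, (L k).IsSymm) {c : PP}
    (hc : ∀ u v, 4 * eval (plucker u v) c = DD L u v) (hc3 : Hom c 3) {x : VV}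
    (hx : OnX qq c x) : Projectivization.mk ℂ x hx.1 ∈ lines L := by
  obtain ⟨a, ha, e⟩ := rep_mk hx.1
  rw [mem_lines hL hc, e]
  exact ⟨smul_ne_zero ha hx.1, by rw [hom_qq a, hx.2.1, mul_zero], by rw [hc3 a, hx.2.2, mul_zero]⟩

theorem bridge {L L' : Net} {P P' : Fin 8 → V4} (N : Nice L P) (N' : Nice L' P') (K : Cub)
    (c' : PP) (hc : ∀ u v, 4 * eval (plucker u v) K.c = DD L u v)
    (hc' : ∀ u v, 4 * eval (plucker u v) c' = DD L' u v) (h3 : Hom K.c 3) (h3' : Hom c' 3)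
    (h1 : K.k1 ≠ 0) (h2 : K.k2 ≠ 0) (t0 : Fin 4 → ℂ) (hsep : (K.pol.map (eval t0)).Separable)
    (φ : lines L ≃ lines L') (hφ : IsMorphism φ) (hψ : IsMorphism φ.symm) :
    ∃ (T : VV →ₗ[ℂ] VV) (α : ℂ), α ≠ 0 ∧ (∀ x y, Bf (T x) (T y) = α * Bf x y) ∧
      ∀ x, OnX qq K.c x → (∃ κ : ℂ, ∀ v, D K.c x v = κ * D qq x v) →
        ∃ (i j : Fin 8) (t : ℂ), T x = t • plucker (P' i) (P' j) := by
  classical
  let pt : ∀ x, OnX qq K.c x → lines L := fun x hx => ⟨_, mk_mem N.sym hc h3 hx⟩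
  let Φ : VV → VV := fun x => if hx : OnX qq K.c x then (φ (pt x hx)).1.rep else 0
  have hΦ : ∀ x (hx : OnX qq K.c x), Φ x = (φ (pt x hx)).1.rep := fun x hx => dif_pos hx
  have hΦ' : ∀ x, OnX qq K.c x → OnX qq c' (Φ x) := fun x hx => by
    rw [hΦ x hx]
    exact (mem_lines N'.sym hc' _).1 (φ (pt x hx)).2
  let S : Data :=
    { q := qq
      c := K.c
      q' := qq
      c' := c'
      Φ := Φ
      hq := hom_qq
      hc := h3
      hq' := hom_qq
      hc' := h3'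
      rad := fun r hr => K.rad h1 h2 t0 hsep 1 one_ne_zero r fun x hx _ => hr x hx
      hΦ := hΦ'
      loc := fun x0 hx0 => by
        obtain ⟨d, e, s, F, hs, hF, h0, h⟩ := hφ (pt x0 hx0)
        obtain ⟨a, ha, ea⟩ := rep_mk hx0.1
        refine ⟨d, e, s, F, hom_of hs, fun i => hom_of (hF i), ?_, fun x hx hsx => ?_⟩
        · simp only [pt, ea, hom_of hs a] at h0
          exact right_ne_zero_of_mul h0
        · obtain ⟨b, hb, eb⟩ := rep_mk hx.1
          obtain ⟨h4, h5⟩ := h (pt x hx) (by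
            simp only [pt, eb, hom_of hs b]
            exact mul_ne_zero (pow_ne_zero _ hb) hsx)
          obtain ⟨g, hg, eg⟩ := rep_mk h4
          refine ⟨(g * b ^ d)⁻¹, inv_ne_zero (mul_ne_zero hg (pow_ne_zero _ hb)), ?_⟩
          rw [hΦ x hx, h5, eg]
          change _ = _ • g • ev F (Projectivization.mk ℂ x hx.1).rep
          rw [eb, ev_smul fun i => hom_of (hF i), smul_smul, smul_smul, mul_assoc,
            inv_mul_cancel₀ (mul_ne_zero hg (pow_ne_zero _ hb)), one_smul]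
      inv := fun x0 hx0 => by
        obtain ⟨d, e, s, F, hs, hF, h0, h⟩ := hψ (φ (pt x0 hx0))
        refine ⟨d, e, s, F, hom_of hs, fun i => hom_of (hF i), by rwa [hΦ x0 hx0],
          fun x hx hsx => ?_⟩
        rw [hΦ x hx] at hsx ⊢
        obtain ⟨h4, h5⟩ := h (φ (pt x hx)) hsx
        rw [Equiv.symm_apply_apply] at h5
        obtain ⟨a, ha⟩ := (Projectivization.mk_eq_mk_iff ℂ _ _ _ _).1 h5.symm
        exact ⟨a, a.ne_zero, ha.symm⟩ }
  have hm : ∀ n : VV, ∃ m : VV, ∀ x, OnX qq K.c x → (∃ t : ℂ, Φ x = t • n) →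
      ∃ t : ℂ, x = t • m := by
    intro n
    by_cases hn : ∃ x, OnX qq K.c x ∧ ∃ t : ℂ, Φ x = t • n
    · obtain ⟨m, hm, s, es⟩ := hn
      refine ⟨m, fun x hx ⟨t, et⟩ => ?_⟩
      have hs : s ≠ 0 := by
        rintro rfl
        exact (hΦ' m hm).1 (by rw [es, zero_smul])
      have : φ (pt x hx) = φ (pt m hm) := by
        apply Subtype.ext
        rw [← Projectivization.mk_rep (φ (pt x hx)).1, ← Projectivization.mk_rep (φ (pt m hm)).1,
          Projectivization.mk_eq_mk_iff']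
        exact ⟨t / s, by rw [← hΦ x hx, ← hΦ m hm, es, et, smul_smul, div_mul_cancel₀ _ hs]⟩
      obtain ⟨a, ha⟩ := (Projectivization.mk_eq_mk_iff' ℂ _ _ _ _).1
        (congrArg Subtype.val (φ.injective this))
      exact ⟨a, ha.symm⟩
    · exact ⟨0, fun x hx h => absurd ⟨x, hx, h⟩ hn⟩
  choose m hm using hm
  obtain ⟨T, α, hα, hB, hT⟩ := S.conclude K rfl rfl rfl h1 h2 t0 hsep
    (Finset.univ.image (fun p : Fin 8 × Fin 8 => plucker (P p.1) (P p.2)) ∪
      Finset.univ.image (fun p : Fin 8 × Fin 8 => m (plucker (P' p.1) (P' p.2))))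
    fun x hq hcx hg => by
      by_cases hx0 : x = 0
      · exact ⟨_, Finset.mem_union_left _ (Finset.mem_image_of_mem _ (Finset.mem_univ (0, 0))), 0,
          by rw [hx0, zero_smul]⟩
      have hx : OnX qq K.c x := ⟨hx0, hq, hcx⟩
      by_cases hs : Smooth qq K.c x
      · obtain ⟨i, j, t, e⟩ := N'.sing hc' h3' (hΦ' x hx) fun h => hg ⟨hx, hs, h⟩
        exact ⟨_, Finset.mem_union_right _ (Finset.mem_image_of_mem _ (Finset.mem_univ (i, j))),
          hm _ x hx ⟨t, e⟩⟩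
      · obtain ⟨i, j, t, e⟩ := N.sing hc h3 hx hs
        exact ⟨_, Finset.mem_union_left _ (Finset.mem_image_of_mem _ (Finset.mem_univ (i, j))),
          t, e⟩
  exact ⟨T, α, hα, hB, fun x hx h => N'.sing hc' h3' (hT x hx h).1 (hT x hx h).2⟩

end Pool.Agent.P.MP_970871_ag
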