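import Mathlib

set_option autoImplicit false

namespace Pool.Agent.P.MP_970871_ag

open MvPolynomial Matrix

/-- Three complex four by four matrices, the Gram matrices of three quadrics spanning a net. -/
abbrev Net := Fin 3 → Matrix (Fin 4) (Fin 4) ℂ

/-- The value at `x` of the quadratic form with Gram matrix `Q`. -/
def quad (Q : Matrix (Fin 4) (Fin 4) ℂ) (x : Fin 4 → ℂ) : ℂ := x ⬝ᵥ Q *ᵥ x

/-- The discriminant quartic form. -/
noncomputable def disc (L : Net) : MvPolynomial (Fin 3) ℂ :=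
  (∑ k, (X k : MvPolynomial (Fin 3) ℂ) • (L k).map C).det

/-- Eight distinct base points and a smooth discriminant quartic. -/
def IsRegularNet (L : Net) : Prop :=
  (∀ k, (L k).IsSymm) ∧ LinearIndependent ℂ L ∧
    {p : Projectivization ℂ (Fin 4 → ℂ) | ∀ k, quad (L k) p.rep = 0}.ncard = 8 ∧
    disc L ≠ 0 ∧
    ∀ l : Fin 3 → ℂ, l ≠ 0 → eval l (disc L) = 0 → ∃ k, eval l (pderiv k (disc L)) ≠ 0

/-- Pluecker coordinates of the span of `u` and `v`. -/
def plucker (u v : Fin 4 → ℂ) : Fin 6 → ℂ :=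
  ![u 0 * v 1 - u 1 * v 0, u 0 * v 2 - u 2 * v 0, u 0 * v 3 - u 3 * v 0,
    u 1 * v 2 - u 2 * v 1, u 1 * v 3 - u 3 * v 1, u 2 * v 3 - u 3 * v 2]

/-- The lines lying on some quadric of the net, as points of projective five-space. -/
def lines (L : Net) : Set (Projectivization ℂ (Fin 6 → ℂ)) :=
  {z | ∃ u v : Fin 4 → ℂ, z.rep = plucker u v ∧
    ∃ l : Fin 3 → ℂ, l ≠ 0 ∧ ∀ s t : ℂ, quad (∑ k, l k • L k) (s • u + t • v) = 0}

/-- Morphisms of projective varieties: maps given, near each point, by homogeneous polynomials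
of one degree without common zero. -/
def IsMorphism {Z W : Set (Projectivization ℂ (Fin 6 → ℂ))} (φ : Z → W) : Prop :=
  ∀ z : Z, ∃ (d e : ℕ) (s : MvPolynomial (Fin 6) ℂ) (F : Fin 6 → MvPolynomial (Fin 6) ℂ),
    s.IsHomogeneous e ∧ (∀ i, (F i).IsHomogeneous d) ∧ eval z.1.rep s ≠ 0 ∧
    ∀ w : Z, eval w.1.rep s ≠ 0 →
      ∃ h : (fun i => eval w.1.rep (F i)) ≠ 0, (φ w).1 = Projectivization.mk ℂ _ h

end Pool.Agent.P.MP_970871_ag
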