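import Pool.Agent.P.MP_970871_ag.Gen

set_option autoImplicit false

namespace Pool.Agent.P.MP_970871_ag

open MvPolynomial Matrix

theorem vec_eq (x : V4) (t a b c d : ℂ) (h0 : x 0 = t * a) (h1 : x 1 = t * b) (h2 : x 2 = t * c)
    (h3 : x 3 = t * d) : x = t • ![a, b, c, d] := by
  funext i
  fin_cases i <;> simpa

theorem vec3 (l : Fin 3 → ℂ) (h0 : l 0 = 0) (h1 : l 1 = 0) (h2 : l 2 = 0) : l = 0 := by
  funext i
  fin_cases i <;> simpa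

theorem fin8 {p : Fin 8 → Prop} (h0 : p 0) (h1 : p 1) (h2 : p 2) (h3 : p 3) (h4 : p 4) (h5 : p 5)
    (h6 : p 6) (h7 : p 7) : ∀ i, p i := by
  intro i
  fin_cases i <;> assumption

def L0 : Net := ![zd 1 1 1 (-1) (-1) (-1), zd 5 (-3) (-1) 1 0 (-2), zd 1 (-5) 3 0 2 (-1)]

def P0 : Fin 8 → V4 := ![![1, 0, 0, 0], ![0, 1, 0, 0], ![0, 0, 1, 0], ![0, 0, 0, 1], ![1, 1, 1, 1], ![1, -4, -2, 2], ![1, -2, 2, -4], ![1, 2, -4, -2]]

theorem base0 (x : V4) (h : ∀ k, bil (L0 k) x x = 0) :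
    ∃ (i : Fin 8) (t : ℂ), x = t • P0 i := by
  have h0 := h 0
  have h1 := h 1
  have h2 := h 2
  simp only [L0, bil_zd, Matrix.cons_val] at h0 h1 h2
  by_cases z2 : x 2 = 0
  · have m01 : x 0 * x 1 = 0 := by linear_combination ((1 / 28)) * h0 + ((5 / 56)) * h1 + ((1 / 56)) * h2 + ((9 / 14) * x 0 - (3 / 28) * x 1 + (13 / 28) * x 3) * z2
    have m03 : x 0 * x 3 = 0 := by linear_combination ((5 / 28)) * h0 + (-(3 / 56)) * h1 + ((5 / 56)) * h2 + ((3 / 14) * x 0 + (13 / 28) * x 1 + (9 / 28) * x 3) * z2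
    have m13 : x 1 * x 3 = 0 := by linear_combination (-(2 / 7)) * h0 + ((1 / 28)) * h1 + ((3 / 28)) * h2 + ((13 / 7) * x 0 - (9 / 14) * x 1 - (3 / 14) * x 3) * z2
    by_cases z0 : x 0 = 0
    · rcases mul_eq_zero.1 m13 with z1 | z3
      · exact ⟨3, x 3, vec_eq _ _ _ _ _ _ (by simp [z0]) (by simp [z1]) (by simp [z2]) (by simp)⟩
      · exact ⟨1, x 1, vec_eq _ _ _ _ _ _ (by simp [z0]) (by simp) (by simp [z2]) (by simp [z3])⟩
    · have z1 := (mul_eq_zero.1 m01).resolve_left z0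
      have z3 := (mul_eq_zero.1 m03).resolve_left z0
      exact ⟨0, x 0, vec_eq _ _ _ _ _ _ (by simp) (by simp [z1]) (by simp [z2]) (by simp [z3])⟩
  by_cases z3 : x 3 = 0
  · have m01 : x 0 * x 1 = 0 := by linear_combination ((5 / 56)) * h0 + ((5 / 56)) * h1 + (-(1 / 28)) * h2 + ((3 / 14) * x 0 + (9 / 28) * x 1 + (13 / 28) * x 2) * z3
    have m02 : x 0 * x 2 = 0 := by linear_combination ((1 / 56)) * h0 + ((1 / 56)) * h1 + (-(3 / 28)) * h2 + ((9 / 14) * x 0 + (13 / 28) * x 1 - (3 / 28) * x 2) * z3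
    have m12 : x 1 * x 2 = 0 := by linear_combination (-(11 / 28)) * h0 + ((3 / 28)) * h1 + (-(1 / 7)) * h2 + ((13 / 7) * x 0 - (3 / 14) * x 1 - (9 / 14) * x 2) * z3
    by_cases z0 : x 0 = 0
    · rcases mul_eq_zero.1 m12 with z1 | z2
      · exact ⟨2, x 2, vec_eq _ _ _ _ _ _ (by simp [z0]) (by simp [z1]) (by simp) (by simp [z3])⟩
      · exact ⟨1, x 1, vec_eq _ _ _ _ _ _ (by simp [z0]) (by simp) (by simp [z2]) (by simp [z3])⟩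
    · have z1 := (mul_eq_zero.1 m01).resolve_left z0
      have z2 := (mul_eq_zero.1 m02).resolve_left z0
      exact ⟨0, x 0, vec_eq _ _ _ _ _ _ (by simp) (by simp [z1]) (by simp [z2]) (by simp [z3])⟩
  have key : x 2 * (x 3 * ((-x 2 + x 3) * ((-2 * x 2 - 2 * x 3) * ((4 * x 2 + 2 * x 3) * (2 * x 2 - 4 * x 3))))) = 0 := by linear_combination (-(38977 / 252) * x 0 ^ 3 * x 1 + (7409 / 36) * x 0 ^ 3 * x 2 - (205 / 4) * x 0 ^ 3 * x 3 - (17908 / 819) * x 0 ^ 2 * x 1 ^ 2 - (6197 / 364) * x 0 ^ 2 * x 1 * x 2 - (967 / 26) * x 0 ^ 2 * x 1 * x 3 + (1900 / 117) * x 0 ^ 2 * x 2 ^ 2 + 32 * x 0 ^ 2 * x 2 * x 3 + (523 / 26) * x 0 ^ 2 * x 3 ^ 2 - (2935 / 42) * x 0 * x 1 ^ 3 + (71737 / 819) * x 0 * x 1 ^ 2 * x 2 + (947 / 26) * x 0 * x 1 ^ 2 * x 3 - (4832 / 117) * x 0 * x 1 * x 2 ^ 2 - 48 * x 0 * x 1 * x 2 * x 3 + (271 / 13) * x 0 * x 1 * x 3 ^ 2 - (12 / 13) * x 0 * x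 2 ^ 3 + 28 * x 0 * x 2 ^ 2 * x 3 + 4 * x 0 * x 2 * x 3 ^ 2 - (158 / 13) * x 0 * x 3 ^ 3 - (587 / 42) * x 1 ^ 3 * x 2 + (392 / 39) * x 1 ^ 2 * x 2 ^ 2 + 32 * x 1 ^ 2 * x 2 * x 3 - (28 / 13) * x 1 * x 2 ^ 3 - 28 * x 1 * x 2 ^ 2 * x 3 - 4 * x 1 * x 2 * x 3 ^ 2 - (40 / 13) * x 2 ^ 4 + 12 * x 2 ^ 3 * x 3 + 16 * x 2 ^ 2 * x 3 ^ 2 - 12 * x 2 * x 3 ^ 3 - (16 / 13) * x 3 ^ 4) * h0 + ((3173 / 63) * x 0 ^ 3 * x 1 - (12227 / 126) * x 0 ^ 3 * x 2 + (199 / 2) * x 0 ^ 3 * x 3 - (1205 / 546) * x 0 ^ 2 * x 1 ^ 2 + (2429 / 156) * x 0 ^ 2 * x 1 * x 2 - (23 / 52) * x 0 ^ 2 * x 1 * x 3 - (740 / 39) * x 0 ^ 2 * x 2 ^ 2 - (313 / 13) * x 0 ^ 2 * x 3 ^ 2 + (1283 / 91) * x 0 * x 1 ^ 3 - (2101 / 1638) * x 0 * x 1 ^ 2 * x 2 - (199 / 26) * x 0 * x 1 ^ 2 * x 3 - (968 / 117) * x 0 * x 1 * x 2 ^ 2 - (531 / 26) * x 0 * x 1 * x 3 ^ 2 + 12 * x 0 * x 2 ^ 3 + (40 / 13) * x 0 * x 3 ^ 3 -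 (587 / 42) * x 1 ^ 3 * x 2 - (357 / 26) * x 1 ^ 3 * x 3 + (392 / 39) * x 1 ^ 2 * x 2 ^ 2 + (59 / 13) * x 1 ^ 2 * x 3 ^ 2 - (28 / 13) * x 1 * x 2 ^ 3 + (66 / 13) * x 1 * x 3 ^ 3 - (40 / 13) * x 2 ^ 4 - (40 / 13) * x 3 ^ 4) * h1 + (-(8161 / 84) * x 0 ^ 3 * x 1 + (25045 / 252) * x 0 ^ 3 * x 2 + (201 / 4) * x 0 ^ 3 * x 3 + (53891 / 1638) * x 0 ^ 2 * x 1 ^ 2 - (94039 / 1092) * x 0 ^ 2 * x 1 * x 2 + (1712 / 117) * x 0 ^ 2 * x 2 ^ 2 - (383 / 26) * x 0 ^ 2 * x 3 ^ 2 - (335 / 546) * x 0 * x 1 ^ 3 + (968 / 117) * x 0 * x 1 ^ 2 * x 2 - (96 / 13) * x 0 * x 2 ^ 3 + (66 / 13) * x 0 * x 3 ^ 3 - (67 / 546) * x 1 ^ 3 * x 2 + (16 / 13) * x 2 ^ 4 - (8 / 13) * x 3 ^ 4) * h2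
  simp only [mul_eq_zero, z2, z3, false_or] at key
  rcases key with r | r | r | r
  · exact ⟨4, x 2 / 1, vec_eq _ _ _ _ _ _ (mul_left_cancel₀ z2 (by linear_combination ((3 / 8)) * h0 + (-(1 / 6)) * h1 + ((11 / 24)) * h2 + (-(23 / 6) * x 0 - (13 / 12) * x 1 + x 2) * r)) (mul_left_cancel₀ z2 (by linear_combination ((1 / 4)) * h0 + (-(1 / 6)) * h1 + ((7 / 12)) * h2 + (-(13 / 3) * x 0 - (11 / 6) * x 1 + x 2) * r)) (by ring) (by linear_combination 1 * r)⟩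
  · exact ⟨5, x 2 / (-2), vec_eq _ _ _ _ _ _ (mul_left_cancel₀ z2 (by linear_combination ((11 / 24)) * h0 + (-(1 / 12)) * h1 + (-(1 / 24)) * h2 + ((5 / 12) * x 0 - (13 / 24) * x 1 - (1 / 4) * x 2) * r)) (mul_left_cancel₀ z2 (by linear_combination (-(19 / 12)) * h0 + ((1 / 3)) * h1 + (-(1 / 12)) * h2 + (-(13 / 6) * x 0 + (17 / 12) * x 1 + x 2) * r)) (by ring) (by linear_combination (-(1 / 2)) * r)⟩
  · exact ⟨6, x 2 / 2, vec_eq _ _ _ _ _ _ (mul_left_cancel₀ z2 (by linear_combination (-(7 / 40)) * h0 + ((1 / 24)) * h1 + (-(1 / 30)) * h2 + ((19 / 60) * x 0 - (13 / 120) * x 1 - (1 / 8) * x 2) * r)) (mul_left_cancel₀ z2 (by linear_combination ((9 / 20)) * h0 + (-(1 / 12)) * h1 + (-(1 / 30)) * h2 + (-(13 / 30) * x 0 + (31 / 60) * x 1 + (1 / 4) * x 2) * r)) (by ring) (by linear_combination (1 / 2) * r)⟩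
  · exact ⟨7, x 2 / (-4), vec_eq _ _ _ _ _ _ (mul_left_cancel₀ z2 (by linear_combination (-(2 / 15)) * h0 + ((1 / 12)) * h1 + (-(17 / 60)) * h2 + (-(8 / 15) * x 0 - (13 / 60) * x 1 + (1 / 8) * x 2) * r)) (mul_left_cancel₀ z2 (by linear_combination (-(7 / 15)) * h0 + ((1 / 6)) * h1 + (-(11 / 30)) * h2 + (-(13 / 15) * x 0 - (2 / 15) * x 1 + (1 / 4) * x 2) * r)) (by ring) (by linear_combination (-(1 / 4)) * r)⟩

theorem h20 : ∀ (i : Fin 8) (l : Fin 3 → ℂ), (∀ a, ∑ k, l k * bil (L0 k) (P0 i) a = 0) → l = 0 := by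
  refine fin8 ?_ ?_ ?_ ?_ ?_ ?_ ?_ ?_ <;> intro l h <;>
    have e0 := h ![1, 0, 0, 0] <;> have e1 := h ![0, 1, 0, 0] <;>
    have e2 := h ![0, 0, 1, 0] <;> have e3 := h ![0, 0, 0, 1] <;>
    simp only [Fin.sum_univ_three, L0, P0, bil_zd, Matrix.cons_val] at e0 e1 e2 e3
  · exact vec3 _ (by linear_combination (7 / 26) * e1 + (4 / 13) * e2 + (11 / 26) * e3) (by linear_combination (2 / 13) * e1 + (-(1 / 26)) * e2 + (-(3 / 26)) * e3) (by linear_combination (-(1 / 26)) * e1 + (-(3 / 26)) * e2 + (2 / 13) * e3)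
  · exact vec3 _ (by linear_combination (2 / 13) * e0 + (-(10 / 13)) * e2 + (-(1 / 13)) * e3) (by linear_combination (2 / 13) * e0 + (3 / 13) * e2 + (-(1 / 13)) * e3) (by linear_combination (1 / 13) * e0 + (-(5 / 13)) * e2 + (6 / 13) * e3)
  · exact vec3 _ (by linear_combination (1 / 13) * e0 + (-(7 / 13)) * e1 + (-(5 / 13)) * e3) (by linear_combination (1 / 13) * e0 + (6 / 13) * e1 + (-(5 / 13)) * e3) (by linear_combination (-(3 / 13)) * e0 + (-(5 / 13)) * e1 + (2 / 13) * e3)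
  · exact vec3 _ (by linear_combination (4 / 13) * e0 + (-(7 / 13)) * e1 + (-(2 / 13)) * e2) (by linear_combination (-(3 / 13)) * e0 + (2 / 13) * e1 + (-(5 / 13)) * e2) (by linear_combination (2 / 13) * e0 + (3 / 13) * e1 + (-(1 / 13)) * e2)
  · exact vec3 _ (by linear_combination (24 / 91) * e0 + (-(10 / 91)) * e1 + (-(9 / 91)) * e2) (by linear_combination (9 / 91) * e0 + (19 / 91) * e1 + (8 / 91) * e2) (by linear_combination (-(10 / 91)) * e0 + (-(11 / 91)) * e1 + (-(19 / 91)) * e2)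
  · exact vec3 _ (by linear_combination (-(17 / 364)) * e0 + (61 / 182) * e1 + (29 / 182) * e2) (by linear_combination (-(11 / 364)) * e0 + (1 / 91) * e1 + (-(4 / 91)) * e2) (by linear_combination (5 / 182) * e0 + (23 / 182) * e1 + (-(1 / 182)) * e2)
  · exact vec3 _ (by linear_combination (1 / 104) * e0 + (-(3 / 52)) * e1 + (9 / 52) * e2) (by linear_combination (-(23 / 728)) * e0 + (43 / 364) * e1 + (-(25 / 364)) * e2) (by linear_combination (-(5 / 182)) * e0 + (-(9 / 182)) * e1 + (1 / 182) * e2)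
  · exact vec3 _ (by linear_combination (3 / 364) * e0 + (15 / 91) * e1 + (-(11 / 91)) * e2) (by linear_combination (9 / 364) * e0 + (-(1 / 182)) * e1 + (25 / 182) * e2) (by linear_combination (5 / 182) * e0 + (9 / 182) * e1 + (-(43 / 182)) * e2)

theorem h2'0 : ∀ (i : Fin 8) (v : V4), (∀ k, bil (L0 k) (P0 i) v = 0) → ∃ t : ℂ, v = t • P0 i := by
  refine fin8 ?_ ?_ ?_ ?_ ?_ ?_ ?_ ?_ <;> intro v h <;>
    have e0 := h 0 <;> have e1 := h 1 <;> have e2 := h 2 <;>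
    simp only [L0, P0, bil_zd, Matrix.cons_val] at e0 e1 e2
  · exact ⟨v 0 / 1, vec_eq _ _ _ _ _ _ (by ring) (by linear_combination (7 / 26) * e0 + (2 / 13) * e1 + (-(1 / 26)) * e2) (by linear_combination (4 / 13) * e0 + (-(1 / 26)) * e1 + (-(3 / 26)) * e2) (by linear_combination (11 / 26) * e0 + (-(3 / 26)) * e1 + (2 / 13) * e2)⟩
  · exact ⟨v 1 / 1, vec_eq _ _ _ _ _ _ (by linear_combination (2 / 13) * e0 + (2 / 13) * e1 + (1 / 13) * e2) (by ring) (by linear_combination (-(10 / 13)) * e0 + (3 / 13) * e1 + (-(5 / 13)) * e2) (by linear_combination (-(1 / 13)) * e0 + (-(1 / 13)) * e1 + (6 / 13) * e2)⟩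
  · exact ⟨v 2 / 1, vec_eq _ _ _ _ _ _ (by linear_combination (1 / 13) * e0 + (1 / 13) * e1 + (-(3 / 13)) * e2) (by linear_combination (-(7 / 13)) * e0 + (6 / 13) * e1 + (-(5 / 13)) * e2) (by ring) (by linear_combination (-(5 / 13)) * e0 + (-(5 / 13)) * e1 + (2 / 13) * e2)⟩
  · exact ⟨v 3 / 1, vec_eq _ _ _ _ _ _ (by linear_combination (4 / 13) * e0 + (-(3 / 13)) * e1 + (2 / 13) * e2) (by linear_combination (-(7 / 13)) * e0 + (2 / 13) * e1 + (3 / 13) * e2) (by linear_combination (-(2 / 13)) * e0 + (-(5 / 13)) * e1 + (-(1 / 13)) * e2) (by ring)⟩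
  · exact ⟨v 0 / 1, vec_eq _ _ _ _ _ _ (by ring) (by linear_combination (-(34 / 91)) * e0 + (10 / 91) * e1 + (-(1 / 91)) * e2) (by linear_combination (-(33 / 91)) * e0 + (-(1 / 91)) * e1 + (-(9 / 91)) * e2) (by linear_combination (-(24 / 91)) * e0 + (-(9 / 91)) * e1 + (10 / 91) * e2)⟩
  · exact ⟨v 0 / 1, vec_eq _ _ _ _ _ _ (by ring) (by linear_combination (27 / 182) * e0 + (-(10 / 91)) * e1 + (43 / 182) * e2) (by linear_combination (6 / 91) * e0 + (-(19 / 182)) * e1 + (9 / 182) * e2) (by linear_combination (17 / 182) * e0 + (11 / 182) * e1 + (-(5 / 91)) * e2)⟩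
  · exact ⟨v 0 / 1, vec_eq _ _ _ _ _ _ (by ring) (by linear_combination (-(1 / 26)) * e0 + (5 / 91) * e1 + (-(19 / 182)) * e2) (by linear_combination (2 / 13) * e0 + (-(1 / 182)) * e1 + (11 / 182) * e2) (by linear_combination (1 / 26) * e0 + (-(23 / 182)) * e1 + (-(10 / 91)) * e2)⟩
  · exact ⟨v 0 / 1, vec_eq _ _ _ _ _ _ (by ring) (by linear_combination (27 / 182) * e0 + (-(5 / 91)) * e1 + (-(1 / 182)) * e2) (by linear_combination (-(8 / 91)) * e0 + (43 / 182) * e1 + (-(23 / 182)) * e2) (by linear_combination (3 / 182) * e0 + (9 / 182) * e1 + (5 / 91) * e2)⟩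

theorem h30 (l : Fin 3 → ℂ) (u v : V4) (hu : ∀ a, ∑ k, l k * bil (L0 k) u a = 0)
    (hv : ∀ a, ∑ k, l k * bil (L0 k) v a = 0) : l = 0 ∨ Dep u v := by
  by_cases h : Dep u v
  · exact Or.inr h
  have key : ∀ u a : V4, bil (zd (l 0 + 5 * l 1 + l 2) (l 0 - 3 * l 1 - 5 * l 2) (l 0 - l 1 + 3 * l 2) (-l 0 + l 1) (-l 0 + 2 * l 2) (-l 0 - 2 * l 1 - l 2)) u a = ∑ k, l k * bil (L0 k) u a := by
    intro u a
    simp only [Fin.sum_univ_three, L0, bil_zd, Matrix.cons_val]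
    ring
  obtain ⟨m0, m1, m2, m3, m4, m5, m6, m7, m8, m9⟩ := zd_minors (fun a => (key u a).trans (hu a))
    (fun a => (key v a).trans (hv a)) h
  exact Or.inl (vec3 _ (pow_eq_zero_iff (n := 3) (by norm_num) |>.1 (by linear_combination (-(41 / 42)) * m0 + ((11 / 840)) * m1 + ((1 / 280)) * m2 + ((101 / 840)) * m3 + (-(37 / 210)) * m4 + (-(31 / 210)) * m5 + ((11 / 420)) * m6 + (-(1 / 105)) * m7 + (-(1 / 12)) * m8 + (-(37 / 840)) * m9)) (pow_eq_zero_iff (n := 3) (by norm_num) |>.1 (by linear_combination ((1 / 14)) * m0 + (-(1 / 56)) * m1 + ((29 / 840)) * m2 + (-(29 / 840)) * m3 + (-(1 / 84)) * m4 + (-(1 / 20)) * m5 + (-(1 / 105)) * m6 + ((1 / 210)) * m7 + (-(1 / 40)) * m8 + ((1 / 420)) * m9)) (pow_eq_zero_iff (n := 3) (by norm_num) |>.1 (by linear_combination ((1 / 14)) * m0 + ((29 / 840)) * m1 + (-(29 / 840)) * m2 + (-(1 / 56)) * m3 + (-(1 / 20)) * m4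 + (-(1 / 105)) * m5 + (-(1 / 84)) * m6 + ((1 / 420)) * m7 + ((1 / 210)) * m8 + (-(1 / 40)) * m9)))

theorem nice0 : Nice L0 P0 :=
  ⟨fun k => by fin_cases k <;> exact zd_symm .., fun x _ => base0 x, h20, h2'0, h30⟩

def LB : Net := ![zd (-1) (-1) (-1) 1 1 1, zd (-2) 0 1 (-1) (-3) 5, zd (-1) 2 0 3 (-5) 1]

def PB : Fin 8 → V4 := ![![1, 0, 0, 0], ![0, 1, 0, 0], ![0, 0, 1, 0], ![0, 0, 0, 1], ![1, 1, 1, 1], ![4, -1, -2, 2], ![4, -2, 2, -1], ![4, 2, -1, -2]]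

theorem baseB (x : V4) (h : ∀ k, bil (LB k) x x = 0) :
    ∃ (i : Fin 8) (t : ℂ), x = t • PB i := by
  have h0 := h 0
  have h1 := h 1
  have h2 := h 2
  simp only [LB, bil_zd, Matrix.cons_val] at h0 h1 h2
  by_cases z2 : x 2 = 0
  · have m01 : x 0 * x 1 = 0 := by linear_combination (-(5 / 26)) * h0 + (-(5 / 26)) * h1 + ((1 / 13)) * h2 + (-(9 / 13) * x 0 - (6 / 13) * x 1 + (28 / 13) * x 3) * z2
    have m03 : x 0 * x 3 = 0 := by linear_combination (-(7 / 26)) * h0 + ((3 / 13)) * h1 + (-(5 / 26)) * h2 + ((3 / 13) * x 0 + (28 / 13) * x 1 - (18 / 13) * x 3) * z2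
    have m13 : x 1 * x 3 = 0 := by linear_combination ((1 / 26)) * h0 + ((1 / 26)) * h1 + (-(3 / 26)) * h2 + ((7 / 13) * x 0 + (9 / 13) * x 1 - (3 / 13) * x 3) * z2
    by_cases z0 : x 0 = 0
    · rcases mul_eq_zero.1 m13 with z1 | z3
      · exact ⟨3, x 3, vec_eq _ _ _ _ _ _ (by simp [z0]) (by simp [z1]) (by simp [z2]) (by simp)⟩
      · exact ⟨1, x 1, vec_eq _ _ _ _ _ _ (by simp [z0]) (by simp) (by simp [z2]) (by simp [z3])⟩
    · have z1 := (mul_eq_zero.1 m01).resolve_left z0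
      have z3 := (mul_eq_zero.1 m03).resolve_left z0
      exact ⟨0, x 0, vec_eq _ _ _ _ _ _ (by simp) (by simp [z1]) (by simp [z2]) (by simp [z3])⟩
  by_cases z3 : x 3 = 0
  · have m01 : x 0 * x 1 = 0 := by linear_combination (-(1 / 13)) * h0 + (-(5 / 26)) * h1 + (-(1 / 26)) * h2 + ((3 / 13) * x 0 - (18 / 13) * x 1 + (28 / 13) * x 2) * z3
    have m02 : x 0 * x 2 = 0 := by linear_combination (-(7 / 26)) * h0 + ((1 / 13)) * h1 + ((3 / 26)) * h2 + (-(9 / 13) * x 0 + (28 / 13) * x 1 - (6 / 13) * x 2) * z3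
    have m12 : x 1 * x 2 = 0 := by linear_combination ((2 / 13)) * h0 + (-(3 / 26)) * h1 + ((1 / 13)) * h2 + ((7 / 13) * x 0 - (3 / 13) * x 1 + (9 / 13) * x 2) * z3
    by_cases z0 : x 0 = 0
    · rcases mul_eq_zero.1 m12 with z1 | z2
      · exact ⟨2, x 2, vec_eq _ _ _ _ _ _ (by simp [z0]) (by simp [z1]) (by simp) (by simp [z3])⟩
      · exact ⟨1, x 1, vec_eq _ _ _ _ _ _ (by simp [z0]) (by simp) (by simp [z2]) (by simp [z3])⟩
    · have z1 := (mul_eq_zero.1 m01).resolve_left z0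
      have z2 := (mul_eq_zero.1 m02).resolve_left z0
      exact ⟨0, x 0, vec_eq _ _ _ _ _ _ (by simp) (by simp [z1]) (by simp [z2]) (by simp [z3])⟩
  have key : x 2 * (x 3 * ((-x 2 + x 3) * ((-2 * x 2 - 2 * x 3) * ((x 2 + 2 * x 3) * (2 * x 2 - x 3))))) = 0 := by linear_combination ((1231877 / 419328) * x 0 ^ 3 * x 1 + (90925 / 209664) * x 0 ^ 3 * x 2 - (5653 / 3584) * x 0 ^ 3 * x 3 - (368689 / 104832) * x 0 ^ 2 * x 1 ^ 2 + (17851 / 5824) * x 0 ^ 2 * x 1 * x 2 + (13655 / 1792) * x 0 ^ 2 * x 1 * x 3 + (137 / 252) * x 0 ^ 2 * x 2 ^ 2 - 8 * x 0 ^ 2 * x 2 * x 3 - (521 / 448) * x 0 ^ 2 * x 3 ^ 2 + (43531 / 17472) * x 0 * x 1 ^ 3 - (52799 / 26208) * x 0 * x 1 ^ 2 * x 2 - (1961 / 224) * x 0 * x 1 ^ 2 * x 3 + (2 / 9) * x 0 * x 1 * x 2 ^ 2 + 12 * x 0 * x 1 * x 2 * x 3 + (1111 / 224) * x 0 * x 1 * x 3 ^ 2 + (3 / 7) * x 0 * x 2 ^ 3 - x 0 * x 2 ^ 2 * x 3 - 7 * x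 0 * x 2 * x 3 ^ 2 - (5 / 14) * x 0 * x 3 ^ 3 + (1361 / 1092) * x 1 ^ 3 * x 2 + (837 / 224) * x 1 ^ 3 * x 3 - (11 / 42) * x 1 ^ 2 * x 2 ^ 2 - 8 * x 1 ^ 2 * x 2 * x 3 - (165 / 56) * x 1 ^ 2 * x 3 ^ 2 - (2 / 7) * x 1 * x 2 ^ 3 + x 1 * x 2 ^ 2 * x 3 + 7 * x 1 * x 2 * x 3 ^ 2 + (9 / 7) * x 1 * x 3 ^ 3 + (1 / 7) * x 2 ^ 4 + 3 * x 2 ^ 3 * x 3 - 4 * x 2 ^ 2 * x 3 ^ 2 - 3 * x 2 * x 3 ^ 3 + (5 / 14) * x 3 ^ 4) * h0 + (-(83423 / 52416) * x 0 ^ 3 * x 1 - (649435 / 419328) * x 0 ^ 3 * x 2 - (5653 / 3584) * x 0 ^ 3 * x 3 + (14803 / 8736) * x 0 ^ 2 * x 1 ^ 2 + (28517 / 9984) * x 0 ^ 2 * x 1 * x 2 + (3653 / 1792) * x 0 ^ 2 * x 1 * x 3 - (61 / 168) * x 0 ^ 2 * x 2 ^ 2 - (521 / 448) * x 0 ^ 2 * x 3 ^ 2 - (907 / 728) * x 0 * x 1 ^ 3 - (8605 / 3276) * x 0 * x 1 ^ 2 * x 2 - (473 / 224) * x 0 * x 1 ^ 2 * x 3 + (169 / 126) * x 0 * x 1 * x 2 ^ 2 + (51 / 32) * x 0 * x 1 * x 3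 ^ 2 + (3 / 7) * x 0 * x 2 ^ 3 - (5 / 14) * x 0 * x 3 ^ 3 + (1555 / 1248) * x 1 ^ 3 * x 2 + (279 / 224) * x 1 ^ 3 * x 3 - (11 / 42) * x 1 ^ 2 * x 2 ^ 2 - (55 / 56) * x 1 ^ 2 * x 3 ^ 2 - (2 / 7) * x 1 * x 2 ^ 3 + (3 / 7) * x 1 * x 3 ^ 3 + (5 / 14) * x 2 ^ 4 + (5 / 14) * x 3 ^ 4) * h1 + ((34297 / 139776) * x 0 ^ 3 * x 1 + (90925 / 419328) * x 0 ^ 3 * x 2 + (363 / 1792) * x 0 ^ 3 * x 3 + (13417 / 104832) * x 0 ^ 2 * x 1 ^ 2 + (2603 / 9984) * x 0 ^ 2 * x 1 * x 2 + (137 / 504) * x 0 ^ 2 * x 2 ^ 2 + (11 / 224) * x 0 ^ 2 * x 3 ^ 2 + (5 / 17472) * x 0 * x 1 ^ 3 - (1321 / 26208) * x 0 * x 1 ^ 2 * x 2 + (3 / 14) * x 0 * x 2 ^ 3 - (3 / 14) * x 0 * x 3 ^ 3 - (1 / 8736) * x 1 ^ 3 * x 2 + (1 / 14) * x 2 ^ 4 - (1 / 7) * x 3 ^ 4) * h2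
  simp only [mul_eq_zero, z2, z3, false_or] at key
  rcases key with r | r | r | r
  · exact ⟨4, x 2 / 1, vec_eq _ _ _ _ _ _ (mul_left_cancel₀ z2 (by linear_combination (-(1 / 6)) * h1 + ((1 / 3)) * h2 + ((1 / 3) * x 0 + (7 / 3) * x 1 + x 2) * r)) (mul_left_cancel₀ z2 (by linear_combination ((1 / 8)) * h0 + (-(1 / 6)) * h1 + ((5 / 24)) * h2 + ((7 / 12) * x 0 + (5 / 6) * x 1 + x 2) * r)) (by ring) (by linear_combination 1 * r)⟩
  · exact ⟨5, x 2 / (-2), vec_eq _ _ _ _ _ _ (mul_left_cancel₀ z2 (by linear_combination ((7 / 12)) * h0 + (-(1 / 3)) * h1 + ((1 / 12)) * h2 + (-(11 / 12) * x 0 + (7 / 6) * x 1 - x 2) * r)) (mul_left_cancel₀ z2 (by linear_combination (-(5 / 24)) * h0 + ((1 / 12)) * h1 + ((1 / 24)) * h2 + ((7 / 24) * x 0 - (2 / 3) * x 1 + (1 / 4) * x 2) * r)) (by ring) (by linear_combination (-(1 / 2)) * r)⟩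
  · exact ⟨6, x 2 / 2, vec_eq _ _ _ _ _ _ (mul_left_cancel₀ z2 (by linear_combination (-(7 / 5)) * h0 + ((2 / 3)) * h1 + ((1 / 15)) * h2 + (-(31 / 15) * x 0 + (56 / 15) * x 1 - 2 * x 2) * r)) (mul_left_cancel₀ z2 (by linear_combination ((3 / 5)) * h0 + (-(1 / 3)) * h1 + ((1 / 15)) * h2 + ((14 / 15) * x 0 - (19 / 15) * x 1 + x 2) * r)) (by ring) (by linear_combination (1 / 2) * r)⟩
  · exact ⟨7, x 2 / (-1), vec_eq _ _ _ _ _ _ (mul_left_cancel₀ z2 (by linear_combination (-(7 / 30)) * h0 + ((1 / 3)) * h1 + (-(13 / 30)) * h2 + ((17 / 15) * x 0 + (28 / 15) * x 1 + 2 * x 2) * r)) (mul_left_cancel₀ z2 (by linear_combination (-(1 / 15)) * h0 + ((1 / 6)) * h1 + (-(4 / 15)) * h2 + ((7 / 15) * x 0 + (23 / 15) * x 1 + x 2) * r)) (by ring) (by linear_combination (-1) * r)⟩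

theorem h2B : ∀ (i : Fin 8) (l : Fin 3 → ℂ), (∀ a, ∑ k, l k * bil (LB k) (PB i) a = 0) → l = 0 := by
  refine fin8 ?_ ?_ ?_ ?_ ?_ ?_ ?_ ?_ <;> intro l h <;>
    have e0 := h ![1, 0, 0, 0] <;> have e1 := h ![0, 1, 0, 0] <;>
    have e2 := h ![0, 0, 1, 0] <;> have e3 := h ![0, 0, 0, 1] <;>
    simp only [Fin.sum_univ_three, LB, PB, bil_zd, Matrix.cons_val] at e0 e1 e2 e3
  · exact vec3 _ (by linear_combination (-(2 / 7)) * e1 + (-(1 / 7)) * e2 + (-(4 / 7)) * e3) (by linear_combination (-(2 / 7)) * e1 + (-(1 / 7)) * e2 + (3 / 7) * e3) (by linear_combination (-(1 / 7)) * e1 + (3 / 7) * e2 + (-(2 / 7)) * e3)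
  · exact vec3 _ (by linear_combination (-(1 / 2)) * e0 + (1 / 4) * e2 + (1 / 4) * e3) (by linear_combination (-(2 / 7)) * e0 + (-(3 / 14)) * e2 + (-(1 / 14)) * e3) (by linear_combination (1 / 14) * e0 + (5 / 28) * e2 + (-(3 / 28)) * e3)
  · exact vec3 _ (by linear_combination (-(4 / 7)) * e0 + (5 / 14) * e1 + (1 / 14) * e3) (by linear_combination (1 / 14) * e0 + (-(3 / 28)) * e1 + (5 / 28) * e3) (by linear_combination (3 / 14) * e0 + (5 / 28) * e1 + (1 / 28) * e3)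
  · exact vec3 _ (by linear_combination (-(11 / 14)) * e0 + (1 / 28) * e1 + (5 / 28) * e2) (by linear_combination (3 / 14) * e0 + (1 / 28) * e1 + (5 / 28) * e2) (by linear_combination (-(2 / 7)) * e0 + (-(3 / 14)) * e1 + (-(1 / 14)) * e2)
  · exact vec3 _ (by linear_combination (-(24 / 91)) * e0 + (10 / 91) * e1 + (9 / 91) * e2) (by linear_combination (-(9 / 91)) * e0 + (-(19 / 91)) * e1 + (-(8 / 91)) * e2) (by linear_combination (10 / 91) * e0 + (11 / 91) * e1 + (19 / 91) * e2)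
  · exact vec3 _ (by linear_combination (17 / 91) * e0 + (-(61 / 728)) * e1 + (-(29 / 182)) * e2) (by linear_combination (11 / 91) * e0 + (-(1 / 364)) * e1 + (4 / 91) * e2) (by linear_combination (-(10 / 91)) * e0 + (-(23 / 728)) * e1 + (1 / 182) * e2)
  · exact vec3 _ (by linear_combination (-(1 / 26)) * e0 + (3 / 52) * e1 + (-(9 / 52)) * e2) (by linear_combination (23 / 182) * e0 + (-(43 / 364)) * e1 + (25 / 364) * e2) (by linear_combination (10 / 91) * e0 + (9 / 182) * e1 + (-(1 / 182)) * e2)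
  · exact vec3 _ (by linear_combination (-(3 / 91)) * e0 + (-(15 / 91)) * e1 + (11 / 364) * e2) (by linear_combination (-(9 / 91)) * e0 + (1 / 182) * e1 + (-(25 / 728)) * e2) (by linear_combination (-(10 / 91)) * e0 + (-(9 / 182)) * e1 + (43 / 728) * e2)

theorem h2'B : ∀ (i : Fin 8) (v : V4), (∀ k, bil (LB k) (PB i) v = 0) → ∃ t : ℂ, v = t • PB i := by
  refine fin8 ?_ ?_ ?_ ?_ ?_ ?_ ?_ ?_ <;> intro v h <;>
    have e0 := h 0 <;> have e1 := h 1 <;> have e2 := h 2 <;>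
    simp only [LB, PB, bil_zd, Matrix.cons_val] at e0 e1 e2
  · exact ⟨v 0 / 1, vec_eq _ _ _ _ _ _ (by ring) (by linear_combination (-(2 / 7)) * e0 + (-(2 / 7)) * e1 + (-(1 / 7)) * e2) (by linear_combination (-(1 / 7)) * e0 + (-(1 / 7)) * e1 + (3 / 7) * e2) (by linear_combination (-(4 / 7)) * e0 + (3 / 7) * e1 + (-(2 / 7)) * e2)⟩
  · exact ⟨v 1 / 1, vec_eq _ _ _ _ _ _ (by linear_combination (-(1 / 2)) * e0 + (-(2 / 7)) * e1 + (1 / 14) * e2) (by ring) (by linear_combination (1 / 4) * e0 + (-(3 / 14)) * e1 + (5 / 28) * e2) (by linear_combination (1 / 4) * e0 + (-(1 / 14)) * e1 + (-(3 / 28)) * e2)⟩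
  · exact ⟨v 2 / 1, vec_eq _ _ _ _ _ _ (by linear_combination (-(4 / 7)) * e0 + (1 / 14) * e1 + (3 / 14) * e2) (by linear_combination (5 / 14) * e0 + (-(3 / 28)) * e1 + (5 / 28) * e2) (by ring) (by linear_combination (1 / 14) * e0 + (5 / 28) * e1 + (1 / 28) * e2)⟩
  · exact ⟨v 3 / 1, vec_eq _ _ _ _ _ _ (by linear_combination (-(11 / 14)) * e0 + (3 / 14) * e1 + (-(2 / 7)) * e2) (by linear_combination (1 / 28) * e0 + (1 / 28) * e1 + (-(3 / 14)) * e2) (by linear_combination (5 / 28) * e0 + (5 / 28) * e1 + (-(1 / 14)) * e2) (by ring)⟩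
  · exact ⟨v 0 / 1, vec_eq _ _ _ _ _ _ (by ring) (by linear_combination (34 / 91) * e0 + (-(10 / 91)) * e1 + (1 / 91) * e2) (by linear_combination (33 / 91) * e0 + (1 / 91) * e1 + (9 / 91) * e2) (by linear_combination (24 / 91) * e0 + (9 / 91) * e1 + (-(10 / 91)) * e2)⟩
  · exact ⟨v 0 / 4, vec_eq _ _ _ _ _ _ (by ring) (by linear_combination (-(27 / 728)) * e0 + (5 / 182) * e1 + (-(43 / 728)) * e2) (by linear_combination (-(6 / 91)) * e0 + (19 / 182) * e1 + (-(9 / 182)) * e2) (by linear_combination (-(17 / 182)) * e0 + (-(11 / 182)) * e1 + (5 / 91) * e2)⟩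
  · exact ⟨v 0 / 4, vec_eq _ _ _ _ _ _ (by ring) (by linear_combination (1 / 26) * e0 + (-(5 / 91)) * e1 + (19 / 182) * e2) (by linear_combination (-(2 / 13)) * e0 + (1 / 182) * e1 + (-(11 / 182)) * e2) (by linear_combination (-(1 / 104)) * e0 + (23 / 728) * e1 + (5 / 182) * e2)⟩
  · exact ⟨v 0 / 4, vec_eq _ _ _ _ _ _ (by ring) (by linear_combination (-(27 / 182)) * e0 + (5 / 91) * e1 + (1 / 182) * e2) (by linear_combination (2 / 91) * e0 + (-(43 / 728)) * e1 + (23 / 728) * e2) (by linear_combination (-(3 / 182)) * e0 + (-(9 / 182)) * e1 + (-(5 / 91)) * e2)⟩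

theorem h3B (l : Fin 3 → ℂ) (u v : V4) (hu : ∀ a, ∑ k, l k * bil (LB k) u a = 0)
    (hv : ∀ a, ∑ k, l k * bil (LB k) v a = 0) : l = 0 ∨ Dep u v := by
  by_cases h : Dep u v
  · exact Or.inr h
  have key : ∀ u a : V4, bil (zd (-l 0 - 2 * l 1 - l 2) (-l 0 + 2 * l 2) (-l 0 + l 1) (l 0 - l 1 + 3 * l 2) (l 0 - 3 * l 1 - 5 * l 2) (l 0 + 5 * l 1 + l 2)) u a = ∑ k, l k * bil (LB k) u a := by
    intro u a
    simp only [Fin.sum_univ_three, LB, bil_zd, Matrix.cons_val]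
    ring
  obtain ⟨m0, m1, m2, m3, m4, m5, m6, m7, m8, m9⟩ := zd_minors (fun a => (key u a).trans (hu a))
    (fun a => (key v a).trans (hv a)) h
  exact Or.inl (vec3 _ (pow_eq_zero_iff (n := 3) (by norm_num) |>.1 (by linear_combination (-(4 / 39)) * m0 + ((28 / 195)) * m1 + ((8 / 65)) * m2 + ((73 / 195)) * m3 + (-(157 / 1560)) * m4 + (-(17 / 195)) * m5 + (-(77 / 1560)) * m6 + (-(109 / 780)) * m7 + (-(37 / 156)) * m8 + (-(251 / 780)) * m9)) (pow_eq_zero_iff (n := 3) (by norm_num) |>.1 (by linear_combination ((1 / 104)) * m0 + (-(1 / 26)) * m1 + ((29 / 390)) * m2 + (-(29 / 390)) * m3 + ((7 / 312)) * m4 + (-(2 / 65)) * m5 + (-(1 / 780)) * m6 + ((1 / 390)) * m7 + (-(4 / 65)) * m8 + ((4 / 195)) * m9)) (pow_eq_zero_iff (n := 3) (by norm_num) |>.1 (by linear_combination ((1 / 104)) * m0 + ((29 / 390)) * m1 + (-(29 / 390)) * m2 + (-(1 / 26)) * m3 + (-(2 / 65))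 * m4 + (-(1 / 780)) * m5 + ((7 / 312)) * m6 + ((4 / 195)) * m7 + ((1 / 390)) * m8 + (-(4 / 65)) * m9)))

theorem niceB : Nice LB PB :=
  ⟨fun k => by fin_cases k <;> exact zd_symm .., fun x _ => baseB x, h2B, h2'B, h3B⟩

end Pool.Agent.P.MP_970871_ag
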