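import Pool.Agent.P.MP_970871_ag.Bridge

set_option autoImplicit false

namespace Pool.Agent.P.MP_970871_ag

open MvPolynomial Matrix

theorem Nice.transfer {L L' : Net} {P : Fin 8 → V4} (N : Nice L P) (g g' : V4 →ₗ[ℂ] V4)
    (hg : ∀ x, g' (g x) = x) (hg' : ∀ x, g (g' x) = x) (hs : ∀ k, (L' k).IsSymm)
    (h : ∀ k x y, bil (L' k) x y = bil (L k) (g x) (g y)) : Nice L' fun i => g' (P i) where
  sym := hs
  h1 x hx hb := by
    obtain ⟨i, t, e⟩ := N.h1 (g x) (fun h0 => hx (by rw [← hg x, h0, map_zero]))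
      fun k => by rw [← h, hb]
    exact ⟨i, t, by rw [← map_smul, ← e, hg]⟩
  h2 i l hl := N.h2 i l fun a => by simpa only [h, hg'] using hl (g' a)
  h2' i v hv := by
    obtain ⟨t, e⟩ := N.h2' i (g v) fun k => by simpa only [h, hg'] using hv k
    exact ⟨t, by rw [← map_smul, ← e, hg]⟩
  h3 l u v hu hv := by
    refine (N.h3 l (g u) (g v) (fun a => by simpa only [h, hg'] using hu (g' a))
      fun a => by simpa only [h, hg'] using hv (g' a)).imp_right ?_
    rintro ⟨s, t, hst, e⟩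
    refine ⟨s, t, hst, ?_⟩
    rw [← map_smul, ← map_smul, ← map_add] at e
    rw [← hg (s • u + t • v), e, map_zero]

theorem Nice.regular {L : Net} {P : Fin 8 → V4} (N : Nice L P)
    (h0 : ∀ i k, bil (L k) (P i) (P i) = 0) (hne : ∀ i j, i ≠ j → plucker (P i) (P j) ≠ 0)
    (hd : disc L ≠ 0 ∧
      ∀ l : Fin 3 → ℂ, l ≠ 0 → eval l (disc L) = 0 → ∃ k, eval l (pderiv k (disc L)) ≠ 0) :
    IsRegularNet L := by
  have hP : ∀ i, P i ≠ 0 := by
    intro i hi
    obtain ⟨j, hj⟩ := exists_ne i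
    exact hne j i hj (by rw [hi, plucker_zero_right])
  refine ⟨N.sym, ?_, ?_, hd⟩
  · rw [Fintype.linearIndependent_iff]
    intro l hl k
    refine congrFun (N.h2 0 l fun a => ?_) k
    have := congrArg (fun Q => bil Q (P 0) a) hl
    simpa [bil, Fin.sum_univ_three, add_mulVec, smul_mulVec] using this
  · have : {p : Projectivization ℂ (Fin 4 → ℂ) | ∀ k, quad (L k) p.rep = 0} =
        Set.range fun i => Projectivization.mk ℂ (P i) (hP i) := by
      ext p
      constructor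
      · intro hp
        obtain ⟨i, t, e⟩ := N.h1 p.rep p.rep_nonzero hp
        refine ⟨i, Eq.symm ?_⟩
        rw [← p.mk_rep, Projectivization.mk_eq_mk_iff']
        exact ⟨t, e.symm⟩
      · rintro ⟨i, rfl⟩ k
        obtain ⟨a, ha⟩ := Projectivization.exists_smul_eq_mk_rep ℂ (P i) (hP i)
        have := h0 i k
        simp only [← ha, quad, Units.smul_def, mulVec_smul, smul_dotProduct, dotProduct_smul]
        rw [show P i ⬝ᵥ L k *ᵥ P i = 0 from this]
        simp
    rw [this, Set.ncard_range_of_injective]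
    · simp
    · intro i j hij
      by_contra h
      obtain ⟨a, ha⟩ := (Projectivization.mk_eq_mk_iff' ℂ _ _ _ _).1 hij
      exact hne i j h (Dep.plucker ⟨1, -a, Or.inl one_ne_zero, by rw [← ha]; simp⟩)

theorem minor_zero (Q : Matrix (Fin 4) (Fin 4) ℂ) {u v : V4} (hu : Q *ᵥ u = 0) (hv : Q *ᵥ v = 0)
    (h : ¬Dep u v) (i j : Fin 4) : (Q.submatrix i.succAbove j.succAbove).det = 0 := by
  obtain ⟨w, hw, hQ, hj⟩ : ∃ w : V4, w ≠ 0 ∧ Q *ᵥ w = 0 ∧ w j = 0 := by
    by_cases h0 : u j = 0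
    · exact ⟨u, fun hu => h ⟨1, 0, Or.inl one_ne_zero, by simp [hu]⟩, hu, h0⟩
    · refine ⟨v j • u + (-u j) • v, fun hu => h ⟨_, _, Or.inr (neg_ne_zero.2 h0), hu⟩, ?_, ?_⟩
      · rw [mulVec_add, mulVec_smul, mulVec_smul, hu, hv]
        simp
      · simp [mul_comm]
  rw [← exists_mulVec_eq_zero_iff]
  refine ⟨fun m => w (j.succAbove m), fun h0 => hw (funext fun m => ?_), funext fun r => ?_⟩
  · rcases Fin.eq_self_or_eq_succAbove j m with rfl | ⟨m, rfl⟩
    · exact hj
    · exact congrFun h0 m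
  · have := congrFun hQ (i.succAbove r)
    simp only [mulVec, dotProduct, Fin.sum_univ_succAbove _ j, hj, mul_zero, zero_add] at this
    exact this

def zd (a b c d e f : ℂ) : Matrix (Fin 4) (Fin 4) ℂ :=
  !![0, a, b, c; a, 0, d, e; b, d, 0, f; c, e, f, 0]

theorem zd_symm (a b c d e f : ℂ) : (zd a b c d e f).IsSymm := by
  ext i j
  fin_cases i <;> fin_cases j <;> rfl

theorem bil_zd (a b c d e f : ℂ) (x y : V4) : bil (zd a b c d e f) x y =
    a * (x 0 * y 1 + x 1 * y 0) + b * (x 0 * y 2 + x 2 * y 0) + c * (x 0 * y 3 + x 3 * y 0) +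
    d * (x 1 * y 2 + x 2 * y 1) + e * (x 1 * y 3 + x 3 * y 1) + f * (x 2 * y 3 + x 3 * y 2) := by
  simp [bil, zd, mulVec, dotProduct, Fin.sum_univ_four]
  ring

theorem zd_minors {a b c d e f : ℂ} {u v : V4} (hu : ∀ y, bil (zd a b c d e f) u y = 0)
    (hv : ∀ y, bil (zd a b c d e f) v y = 0) (h : ¬Dep u v) :
    d * e * f = 0 ∧ b * c * f = 0 ∧ a * c * e = 0 ∧ a * b * d = 0 ∧
      f * (a * f - b * e - c * d) = 0 ∧ e * (b * e - a * f - c * d) = 0 ∧
      d * (c * d - a * f - b * e) = 0 ∧ c * (c * d - a * f - b * e) = 0 ∧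
      b * (b * e - a * f - c * d) = 0 ∧ a * (a * f - b * e - c * d) = 0 := by
  have key : ∀ u : V4, (∀ y, bil (zd a b c d e f) u y = 0) → zd a b c d e f *ᵥ u = 0 := by
    intro u hu
    funext i
    have := hu (Pi.single i 1)
    rw [bil_comm (zd_symm ..), bil, single_dotProduct, one_mul] at this
    exact this
  have hm := minor_zero _ (key u hu) (key v hv) h
  have m00 := hm 0 0
  have m11 := hm 1 1
  have m22 := hm 2 2
  have m33 := hm 3 3
  have m01 := hm 0 1
  have m02 := hm 0 2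
  have m03 := hm 0 3
  have m12 := hm 1 2
  have m13 := hm 1 3
  have m23 := hm 2 3
  simp only [det_fin_three, submatrix_apply] at m00 m11 m22 m33 m01 m02 m03 m12 m13 m23
  simp [zd, Fin.succAbove, -mul_eq_zero] at m00 m11 m22 m33 m01 m02 m03 m12 m13 m23
  refine ⟨?_, ?_, ?_, ?_, ?_, ?_, ?_, ?_, ?_, ?_⟩
  · linear_combination m00 / 2
  · linear_combination m11 / 2
  · linear_combination m22 / 2
  · linear_combination m33 / 2
  · first | linear_combination m01 | linear_combination -m01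
  · first | linear_combination m02 | linear_combination -m02
  · first | linear_combination m03 | linear_combination -m03
  · first | linear_combination m12 | linear_combination -m12
  · first | linear_combination m13 | linear_combination -m13
  · first | linear_combination m23 | linear_combination -m23

theorem det_four {R : Type} [CommRing R] (A : Matrix (Fin 4) (Fin 4) R) : A.det =
    A 0 0 * (A 1 1 * (A 2 2 * A 3 3 - A 2 3 * A 3 2) - A 1 2 * (A 2 1 * A 3 3 - A 2 3 * A 3 1) +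
      A 1 3 * (A 2 1 * A 3 2 - A 2 2 * A 3 1)) -
    A 0 1 * (A 1 0 * (A 2 2 * A 3 3 - A 2 3 * A 3 2) - A 1 2 * (A 2 0 * A 3 3 - A 2 3 * A 3 0) +
      A 1 3 * (A 2 0 * A 3 2 - A 2 2 * A 3 0)) +
    A 0 2 * (A 1 0 * (A 2 1 * A 3 3 - A 2 3 * A 3 1) - A 1 1 * (A 2 0 * A 3 3 - A 2 3 * A 3 0) +
      A 1 3 * (A 2 0 * A 3 1 - A 2 1 * A 3 0)) -
    A 0 3 * (A 1 0 * (A 2 1 * A 3 2 - A 2 2 * A 3 1) - A 1 1 * (A 2 0 * A 3 2 - A 2 2 * A 3 0) +
      A 1 2 * (A 2 0 * A 3 1 - A 2 1 * A 3 0)) := by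
  rw [det_succ_row_zero]
  simp [det_fin_three, Fin.sum_univ_four, Fin.succAbove]
  ring

theorem eval_disc (L : Net) (l : Fin 3 → ℂ) :
    eval l (disc L) = (Matrix.of fun i j => l 0 * L 0 i j + l 1 * L 1 i j + l 2 * L 2 i j).det := by
  rw [disc, RingHom.map_det]
  congr 1
  ext i j
  simp [Fin.sum_univ_three]

theorem D_of_cubic (c : PP) (x v : VV) (a b d : ℂ)
    (h : ∀ e : ℂ, eval (x + e • v) c = e * a + e * (e * b) + e * (e * (e * d))) : D c x v = a := by
  have h1 := hasDerivAt_eval_line c x v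
  simp only [h] at h1
  have h2 := hasDerivAt_id (0 : ℂ)
  have := h1.unique (((h2.mul_const a).add (h2.mul (h2.mul_const b))).add
    (h2.mul (h2.mul (h2.mul_const d))))
  simpa using this

end Pool.Agent.P.MP_970871_ag
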