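import Pool.Agent.P.MP_970871_ag.Lin3

set_option autoImplicit false

namespace Pool.Agent.P.MP_970871_ag

open MvPolynomial

abbrev AA := MvPolynomial (Fin 4) ℂ

noncomputable def io : AA →ₐ[ℂ] PP := rename fun i : Fin 4 => i.succ.castSucc

def mid (x : VV) : Fin 4 → ℂ := fun i => x i.succ.castSucc

theorem eval_io (x : VV) (a : AA) : eval x (io a) = eval (mid x) a := eval_rename _ _ _

noncomputable def QQ : AA := X 0 * X 3 - X 1 * X 2

theorem qq_eq : qq = X 0 * X 5 - io QQ := by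
  simp only [qq, QQ, io, map_sub, map_mul, rename_X]
  have h0 : (0 : Fin 4).succ.castSucc = (1 : Fin 6) := rfl
  have h1 : (1 : Fin 4).succ.castSucc = (2 : Fin 6) := rfl
  have h2 : (2 : Fin 4).succ.castSucc = (3 : Fin 6) := rfl
  have h3 : (3 : Fin 4).succ.castSucc = (4 : Fin 6) := rfl
  rw [h0, h1, h2, h3]
  ring

theorem QQ_ne : QQ ≠ 0 := by
  intro h
  have := congrArg (eval ![1, 0, 0, 1]) h
  simp [QQ] at this

noncomputable def nf (α : Fin 6 → AA) : PP :=
  io (α 0) + io (α 1) * X 0 + io (α 2) * X 0 ^ 2 + io (α 3) * X 0 ^ 3 + io (α 4) * X 5 +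
    io (α 5) * X 5 ^ 2

/-- A cubic in normal form. -/
structure Cub where
  k1 : ℂ
  k2 : ℂ
  a1 : AA
  b1 : AA
  c0 : AA
  b2 : AA
  a2 : AA

namespace Cub

variable (K : Cub)

noncomputable def c : PP :=
  C K.k1 * X 0 ^ 3 + io K.a1 * X 0 ^ 2 + io K.b1 * X 0 + io K.c0 + io K.b2 * X 5 +
    io K.a2 * X 5 ^ 2 + C K.k2 * X 5 ^ 3

noncomputable def pol : Polynomial AA :=
  Polynomial.C (C K.k1) * Polynomial.X ^ 6 + Polynomial.C K.a1 * Polynomial.X ^ 5 +
    Polynomial.C K.b1 * Polynomial.X ^ 4 + Polynomial.C K.c0 * Polynomial.X ^ 3 +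
    Polynomial.C (K.b2 * QQ) * Polynomial.X ^ 2 + Polynomial.C (K.a2 * QQ ^ 2) * Polynomial.X +
    Polynomial.C (C K.k2 * QQ ^ 3)

theorem span (h1 : K.k1 ≠ 0) (h2 : K.k2 ≠ 0) (r : PP) :
    ∃ (α : Fin 6 → AA) (a b : PP), r = nf α + (a * qq + b * K.c) := by
  induction r using MvPolynomial.induction_on with
  | C r => exact ⟨![C r, 0, 0, 0, 0, 0], 0, 0, by simp [nf, io]⟩
  | add p r hp hr =>
    obtain ⟨α, a, b, rfl⟩ := hp
    obtain ⟨α', a', b', rfl⟩ := hr
    refine ⟨α + α', a + a', b + b', ?_⟩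
    simp only [nf, Pi.add_apply, map_add]
    ring
  | mul_X p i hp =>
    obtain ⟨α, a, b, rfl⟩ := hp
    have e1 : (C K.k1⁻¹ : PP) * C K.k1 = 1 := by rw [← map_mul, inv_mul_cancel₀ h1, map_one]
    have e2 : (C K.k2⁻¹ : PP) * C K.k2 = 1 := by rw [← map_mul, inv_mul_cancel₀ h2, map_one]
    have hC : ∀ u : ℂ, io (C u) = C u := fun u => rename_C _ _
    by_cases hi0 : i = 0
    · subst hi0
      refine ⟨![α 4 * QQ - C K.k1⁻¹ * α 3 * K.b2 * QQ, α 0 - C K.k1⁻¹ * α 3 * K.c0,
        α 1 - C K.k1⁻¹ * α 3 * K.b1, α 2 - C K.k1⁻¹ * α 3 * K.a1,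
        α 5 * QQ - C K.k1⁻¹ * α 3 * K.a2 * QQ, -(C K.k1⁻¹ * α 3 * C K.k2 * QQ)],
        a * X 0 + io (α 4) + io (α 5) * X 5 - C K.k1⁻¹ * io (α 3) *
          (io K.b2 + io K.a2 * X 5 + C K.k2 * X 5 ^ 2),
        b * X 0 + C K.k1⁻¹ * io (α 3) * X 0, ?_⟩
      simp only [nf, qq_eq, c, Matrix.cons_val, map_sub, map_mul, map_neg, hC]
      linear_combination (-(io (α 3) * X 0 ^ 4)) * e1
    by_cases hi5 : i = 5
    · subst hi5
      refine ⟨![α 1 * QQ - C K.k2⁻¹ * α 5 * K.c0, α 2 * QQ - C K.k2⁻¹ * α 5 * K.b1,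
        α 3 * QQ - C K.k2⁻¹ * α 5 * K.a1, -(C K.k2⁻¹ * α 5 * C K.k1),
        α 0 - C K.k2⁻¹ * α 5 * K.b2, α 4 - C K.k2⁻¹ * α 5 * K.a2],
        a * X 5 + io (α 1) + io (α 2) * X 0 + io (α 3) * X 0 ^ 2,
        b * X 5 + C K.k2⁻¹ * io (α 5), ?_⟩
      simp only [nf, qq_eq, c, Matrix.cons_val, map_sub, map_mul, map_neg, hC]
      linear_combination (-(io (α 5) * X 5 ^ 3)) * e2
    obtain ⟨j, hj⟩ : ∃ j : Fin 4, (X i : PP) = io (X j) := by
      obtain ⟨j, rfl⟩ : ∃ j : Fin 4, i = j.succ.castSucc := by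
        revert i
        decide
      exact ⟨j, by rw [io, rename_X]⟩
    refine ⟨fun k => α k * X j, a * X i, b * X i, ?_⟩
    simp only [nf, map_mul, ← hj]
    ring

theorem pol_map (t : Fin 4 → ℂ) : K.pol.map (eval t) =
    Polynomial.C K.k1 * Polynomial.X ^ 6 + Polynomial.C (eval t K.a1) * Polynomial.X ^ 5 +
    Polynomial.C (eval t K.b1) * Polynomial.X ^ 4 + Polynomial.C (eval t K.c0) * Polynomial.X ^ 3 +
    Polynomial.C (eval t K.b2 * eval t QQ) * Polynomial.X ^ 2 +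
    Polynomial.C (eval t K.a2 * eval t QQ ^ 2) * Polynomial.X +
    Polynomial.C (K.k2 * eval t QQ ^ 3) := by
  simp only [pol, Polynomial.map_add, Polynomial.map_mul, Polynomial.map_pow, Polynomial.map_C,
    Polynomial.map_X, eval_C, map_mul, map_pow]

theorem natDegree_pol (h1 : K.k1 ≠ 0) (t : Fin 4 → ℂ) : (K.pol.map (eval t)).natDegree = 6 := by
  rw [pol_map]
  compute_degree!

theorem indep (h1 : K.k1 ≠ 0) (h2 : K.k2 ≠ 0) (t0 : Fin 4 → ℂ)
    (hsep : (K.pol.map (eval t0)).Separable) (f : AA) (hf : f ≠ 0) (α : Fin 6 → AA)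
    (h : ∀ x, OnX qq K.c x → eval (mid x) f ≠ 0 → eval x (nf α) = 0) : α = 0 := by
  set δ := Polynomial.resultant K.pol K.pol.derivative 6 5 with hδ
  have hδt : ∀ t, eval t δ ≠ 0 ↔ (K.pol.map (eval t)).Separable := by
    intro t
    have hd := K.natDegree_pol h1 t
    have hd' : (K.pol.map (eval t)).derivative.natDegree = 5 := by
      rw [Polynomial.natDegree_derivative, hd]
    have h0 : K.pol.map (eval t) ≠ 0 := by
      intro h0
      rw [h0] at hd
      simp at hd
    have := Polynomial.resultant_eq_zero_iff (f := K.pol.map (eval t))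
      (g := (K.pol.map (eval t)).derivative)
    rw [hd, hd', Polynomial.derivative_map, Polynomial.resultant_map_map] at this
    rw [Ne, hδ, this, Polynomial.separable_def, Polynomial.derivative_map]
    simp [h0]
  have hδ0 : δ ≠ 0 := fun h0 => (hδt t0).2 hsep (by rw [h0, map_zero])
  have key : ∀ t, eval t (QQ * δ * f) ≠ 0 → ∀ k, eval t (α k) = 0 := by
    intro t ht
    simp only [map_mul, mul_ne_zero_iff] at ht
    obtain ⟨⟨hQ, hd⟩, hft⟩ := ht
    have hs := (hδt t).1 hd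
    let R : Polynomial ℂ := Polynomial.C (eval t (α 3)) * Polynomial.X ^ 5 +
      Polynomial.C (eval t (α 2)) * Polynomial.X ^ 4 +
      Polynomial.C (eval t (α 1)) * Polynomial.X ^ 3 +
      Polynomial.C (eval t (α 0)) * Polynomial.X ^ 2 +
      Polynomial.C (eval t (α 4) * eval t QQ) * Polynomial.X +
      Polynomial.C (eval t (α 5) * eval t QQ ^ 2)
    have hR : R = 0 := by
      refine Polynomial.eq_zero_of_natDegree_lt_card_of_eval_eq_zero' R
        (K.pol.map (eval t)).roots.toFinset (fun y hy => ?_) ?_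
      · have hy' := Polynomial.isRoot_of_mem_roots (Multiset.mem_toFinset.1 hy)
        rw [Polynomial.IsRoot, pol_map] at hy'
        simp only [Polynomial.eval_add, Polynomial.eval_mul, Polynomial.eval_C,
          Polynomial.eval_pow, Polynomial.eval_X] at hy'
        have hy0 : y ≠ 0 := by
          rintro rfl
          simp [h2, hQ] at hy'
        let x : VV := ![y, t 0, t 1, t 2, t 3, eval t QQ / y]
        have hx : mid x = t := by
          funext i
          fin_cases i <;> rfl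
        have x0 : x 0 = y := rfl
        have x5 : x 5 = eval t QQ / y := rfl
        have := h x ⟨fun h0 => hy0 (congrFun h0 0), by
          simp only [qq_eq, map_sub, map_mul, eval_X, eval_io, hx, x0, x5]
          field_simp
          ring, by
          simp only [c, map_add, map_mul, map_pow, eval_X, eval_C, eval_io, hx, x0, x5]
          field_simp
          linear_combination hy'⟩ (by rwa [hx])
        simp only [nf, map_add, map_mul, map_pow, eval_X, eval_io, hx, x0, x5] at this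
        field_simp at this
        simp only [R, Polynomial.eval_add, Polynomial.eval_mul, Polynomial.eval_C,
          Polynomial.eval_pow, Polynomial.eval_X]
        linear_combination this
      · rw [Multiset.toFinset_card_of_nodup (Polynomial.nodup_roots hs),
          IsAlgClosed.card_roots_eq_natDegree, K.natDegree_pol h1]
        refine lt_of_le_of_lt (b := 5) ?_ (by norm_num)
        simp only [R]
        compute_degree
    have hc := fun k => congrArg (fun p => Polynomial.coeff p k) hR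
    have c0 := hc 0
    have c1 := hc 1
    have c2 := hc 2
    have c3 := hc 3
    have c4 := hc 4
    have c5 := hc 5
    simp [R, -map_mul, -map_pow, Polynomial.coeff_X, Polynomial.coeff_C, hQ] at c0 c1 c2 c3 c4 c5
    intro k
    fin_cases k <;> simp [*]
  funext k
  have : α k * (QQ * δ * f) = 0 := by
    apply MvPolynomial.funext
    intro t
    rw [map_mul, map_zero]
    by_cases ht : eval t (QQ * δ * f) = 0
    · rw [ht, mul_zero]
    · rw [key t ht k, zero_mul]
  exact (mul_eq_zero.1 this).resolve_right (mul_ne_zero (mul_ne_zero QQ_ne hδ0) hf)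

end Cub

theorem exists_form (i j : Fin 4) (hij : i ≠ j) (B : Finset VV) :
    ∃ f : AA, f ≠ 0 ∧ Hom (io f) B.card ∧ (∀ m ∈ B, ∀ t : ℂ, eval (t • m) (io f) = 0) ∧
      ∀ k, k ≠ i → k ≠ j → degreeOf k f = 0 := by
  have h : ∀ m : VV, ∃ a b : ℂ, (a ≠ 0 ∨ b ≠ 0) ∧ a * mid m i + b * mid m j = 0 := by
    intro m
    by_cases h0 : mid m i = 0
    · exact ⟨1, 0, Or.inl one_ne_zero, by simp [h0]⟩
    · exact ⟨mid m j, -mid m i, Or.inr (neg_ne_zero.2 h0), by ring⟩
  choose a b hab h0 using h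
  refine ⟨∏ m ∈ B, (C (a m) * X i + C (b m) * X j), Finset.prod_ne_zero_iff.2 fun m _ h => ?_,
    fun t x => ?_, fun m hm t => ?_, fun k hi hj => ?_⟩
  · have h1 := congrArg (eval (Pi.single i 1)) h
    have h2 := congrArg (eval (Pi.single j 1)) h
    simp [hij, hij.symm] at h1 h2
    exact (hab m).elim (fun h => h h1) fun h => h h2
  · simp only [eval_io, map_prod, map_add, map_mul, eval_C, eval_X]
    rw [← Finset.prod_const, ← Finset.prod_mul_distrib]
    exact Finset.prod_congr rfl fun m _ => by simp only [mid, Pi.smul_apply, smul_eq_mul]; ring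
  · simp only [eval_io, map_prod, map_add, map_mul, eval_C, eval_X]
    refine Finset.prod_eq_zero hm ?_
    have := h0 m
    simp only [mid, Pi.smul_apply, smul_eq_mul] at this ⊢
    linear_combination t * this
  · refine Nat.eq_zero_of_le_zero ((degreeOf_prod_le _ _ _).trans (Finset.sum_eq_zero fun m _ =>
      Nat.eq_zero_of_le_zero ((degreeOf_add_le _ _ _).trans (max_le ?_ ?_))).le)
    · exact (degreeOf_C_mul_le _ _ _).trans (degreeOf_X_of_ne hi).le
    · exact (degreeOf_C_mul_le _ _ _).trans (degreeOf_X_of_ne hj).le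

theorem relPrime {f g : AA} (hf : f ≠ 0) (hg : g ≠ 0)
    (h1 : ∀ k, k ≠ 0 → k ≠ 1 → degreeOf k f = 0) (h2 : ∀ k, k ≠ 2 → k ≠ 3 → degreeOf k g = 0) :
    IsRelPrime f g := by
  rintro d ⟨u, rfl⟩ ⟨v, hv⟩
  have hd := left_ne_zero_of_mul hf
  have hu := right_ne_zero_of_mul hf
  have hv0 : v ≠ 0 := by
    rintro rfl
    exact hg (by simpa using hv)
  have : ∀ k, degreeOf k d = 0 := by
    intro k
    have e1 := degreeOf_mul_eq (n := k) hd hu
    have e2 := degreeOf_mul_eq (n := k) hd hv0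
    rw [← hv] at e2
    by_cases hk : k = 0 ∨ k = 1
    · have := h2 k (by rintro rfl; simp at hk) (by rintro rfl; simp at hk)
      omega
    · have := h1 k (fun h => hk (Or.inl h)) (fun h => hk (Or.inr h))
      omega
  have h3 : d = C (d.coeff 0) := by
    rw [← vars_eq_empty_iff_eq_C, Finset.eq_empty_iff_forall_notMem]
    intro k hk
    exact mem_vars_iff_degreeOf_ne_zero.1 hk (this k)
  rw [h3]
  refine IsUnit.map C (isUnit_iff_ne_zero.2 fun h0 => hd ?_)
  rw [h3, h0, map_zero]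

namespace Cub

variable (K : Cub)

theorem rad (h1 : K.k1 ≠ 0) (h2 : K.k2 ≠ 0) (t0 : Fin 4 → ℂ)
    (hsep : (K.pol.map (eval t0)).Separable) (f : AA) (hf : f ≠ 0) (r : PP)
    (h : ∀ x, OnX qq K.c x → eval x (io f) ≠ 0 → eval x r = 0) :
    ∃ a b : PP, r = a * qq + b * K.c := by
  obtain ⟨α, a, b, rfl⟩ := K.span h1 h2 r
  have := K.indep h1 h2 t0 hsep f hf α fun x hx hf => by
    simpa [hx.2.1, hx.2.2] using h x hx (by rwa [eval_io])
  exact ⟨a, b, by simp [this, nf]⟩

theorem hart (h1 : K.k1 ≠ 0) (h2 : K.k2 ≠ 0) (t0 : Fin 4 → ℂ)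
    (hsep : (K.pol.map (eval t0)).Separable) {f g : AA} (hfg : IsRelPrime f g) (N : ℕ)
    (n1 n2 a b : PP) (h : io g ^ N * n1 - io f ^ N * n2 = a * qq + b * K.c) :
    ∃ r a b : PP, n1 - io f ^ N * r = a * qq + b * K.c := by
  obtain ⟨α, a1, b1, rfl⟩ := K.span h1 h2 n1
  obtain ⟨β, a2, b2, rfl⟩ := K.span h1 h2 n2
  have := K.indep h1 h2 t0 hsep 1 one_ne_zero (fun k => g ^ N * α k - f ^ N * β k) fun x hx _ => by
    have := congrArg (eval x) h
    simp only [map_sub, map_mul, map_add, hx.2.1, hx.2.2, nf, map_pow] at this ⊢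
    linear_combination this
  have hdvd : ∀ k, ∃ r, α k = f ^ N * r := fun k =>
    (hfg.pow (m := N) (n := N)).dvd_of_dvd_mul_left
      ⟨β k, sub_eq_zero.1 (congrFun this k)⟩
  choose r hr using hdvd
  refine ⟨nf r, a1, b1, ?_⟩
  simp only [nf, hr, map_mul, map_pow]
  ring

end Cub

theorem Data.conclude (S : Data) (K : Cub) (hq : S.q = qq) (hq' : S.q' = qq) (hc : S.c = K.c)
    (h1 : K.k1 ≠ 0) (h2 : K.k2 ≠ 0) (t0 : Fin 4 → ℂ) (hsep : (K.pol.map (eval t0)).Separable)
    (B : Finset VV)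
    (hB : ∀ x, eval x S.q = 0 → eval x S.c = 0 → ¬S.Good x → ∃ m ∈ B, ∃ t : ℂ, x = t • m) :
    ∃ (T : VV →ₗ[ℂ] VV) (α : ℂ), α ≠ 0 ∧ (∀ x y, Bf (T x) (T y) = α * Bf x y) ∧
      ∀ x, OnX S.q S.c x → (∃ κ : ℂ, ∀ v, D S.c x v = κ * D S.q x v) →
        OnX S.q' S.c' (T x) ∧ ¬Smooth S.q' S.c' (T x) := by
  obtain ⟨f, hf, f1, f2, f3⟩ := exists_form 0 1 (by decide) B
  obtain ⟨g, hg, -, g2, g3⟩ := exists_form 2 3 (by decide) B
  have hr : S.Rad (io f) := by
    unfold Data.Rad
    rw [hq, hc]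
    exact K.rad h1 h2 t0 hsep f hf
  obtain ⟨T, hT⟩ := S.linearize B hB (io f) (io g) _ f1 (fun m hm t => ⟨f2 m hm t, g2 m hm t⟩) hr
    (by rw [hq, hc]; exact K.hart h1 h2 t0 hsep (relPrime hf hg f3 g3))
  exact ⟨T, S.final hq hq' _ hr T hT⟩

end Pool.Agent.P.MP_970871_ag
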