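import Pool.Agent.P.MP_970871_ag.Defs
import Pool.Agent.P.MP_970871_ag.Mod

set_option autoImplicit false
set_option linter.unreachableTactic false
set_option linter.unusedTactic false

namespace Pool.Agent.P.MP_970871_ag

open MvPolynomial Matrix

abbrev V4 := Fin 4 → ℂ

def bil (Q : Matrix (Fin 4) (Fin 4) ℂ) (x y : V4) : ℂ := x ⬝ᵥ Q *ᵥ y

theorem bil_comm {Q : Matrix (Fin 4) (Fin 4) ℂ} (h : Q.IsSymm) (x y : V4) :
    bil Q x y = bil Q y x := by
  rw [bil, dotProduct_mulVec, dotProduct_comm, ← mulVec_transpose, h.eq, bil]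

theorem bil_lin (Q : Matrix (Fin 4) (Fin 4) ℂ) (s t s' t' : ℂ) (u v u' v' : V4) :
    bil Q (s • u + t • v) (s' • u' + t' • v') =
      s * s' * bil Q u u' + s * t' * bil Q u v' + t * s' * bil Q v u' + t * t' * bil Q v v' := by
  simp only [bil, mulVec_add, mulVec_smul, add_dotProduct, dotProduct_add, smul_dotProduct,
    dotProduct_smul, smul_eq_mul]
  ring

theorem bil_zero_left (Q : Matrix (Fin 4) (Fin 4) ℂ) (x : V4) : bil Q 0 x = 0 := by simp [bil]

theorem bil_zero_right (Q : Matrix (Fin 4) (Fin 4) ℂ) (x : V4) : bil Q x 0 = 0 := by simp [bil]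

def det3 (A E B : Fin 3 → ℂ) : ℂ :=
  A 0 * (E 1 * B 2 - E 2 * B 1) - A 1 * (E 0 * B 2 - E 2 * B 0) + A 2 * (E 0 * B 1 - E 1 * B 0)

def DD (L : Net) (u v : V4) : ℂ :=
  det3 (fun k => bil (L k) u u) (fun k => bil (L k) u v) (fun k => bil (L k) v v)

def Dep (u v : V4) : Prop := ∃ s t : ℂ, (s ≠ 0 ∨ t ≠ 0) ∧ s • u + t • v = 0

theorem plucker_lin (s t s' t' : ℂ) (u v : V4) :
    plucker (s • u + t • v) (s' • u + t' • v) = (s * t' - t * s') • plucker u v := by
  funext i
  fin_cases i <;> simp [plucker] <;> ring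

theorem plucker_smul (s t : ℂ) (u v : V4) :
    plucker (s • u) (t • v) = (s * t) • plucker u v := by
  funext i
  fin_cases i <;> simp [plucker] <;> ring

theorem plucker_zero_left (v : V4) : plucker 0 v = 0 := by
  funext i
  fin_cases i <;> simp [plucker]

theorem plucker_zero_right (v : V4) : plucker v 0 = 0 := by
  funext i
  fin_cases i <;> simp [plucker]

theorem Dep.plucker {u v : V4} (h : Dep u v) : plucker u v = 0 := by
  obtain ⟨s, t, hst, h⟩ := h
  have h1 := plucker_lin s t 0 1 u v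
  have h2 := plucker_lin s t 1 0 u v
  rw [h, plucker_zero_left] at h1 h2
  rcases hst with hs | ht
  · exact (smul_eq_zero.1 h1.symm).resolve_left (by simpa using hs)
  · exact (smul_eq_zero.1 h2.symm).resolve_left (by simpa using ht)

theorem qq_plucker (u v : V4) : eval (plucker u v) qq = 0 := by
  simp [eval_qq, plucker]
  ring

theorem exists_plucker {x : VV} (hx : x ≠ 0) (h : eval x qq = 0) : ∃ u v, x = plucker u v := by
  rw [eval_qq] at h
  obtain ⟨i, hi⟩ := Function.ne_iff.1 hx
  let r : Fin 4 → V4 := ![![0, x 0, x 1, x 2], ![-x 0, 0, x 3, x 4], ![-x 1, -x 3, 0, x 5],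
    ![-x 2, -x 4, -x 5, 0]]
  have key : ∀ a b (y : ℂ), y ≠ 0 → plucker (r a) (r b) = y • x → ∃ u v, x = plucker u v := by
    intro a b y hy e
    refine ⟨y⁻¹ • r a, (1 : ℂ) • r b, ?_⟩
    rw [plucker_smul, e, smul_smul, mul_one, inv_mul_cancel₀ hy, one_smul]
  fin_cases i
  · refine key 0 1 (x 0) hi (funext fun j => ?_)
    fin_cases j <;> simp [plucker, r] <;> first | ring1 | linear_combination h | linear_combination -h
  · refine key 0 2 (x 1) hi (funext fun j => ?_)
    fin_cases j <;> simp [plucker, r] <;> first | ring1 | linear_combination h | linear_combination -h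
  · refine key 0 3 (x 2) hi (funext fun j => ?_)
    fin_cases j <;> simp [plucker, r] <;> first | ring1 | linear_combination h | linear_combination -h
  · refine key 1 2 (x 3) hi (funext fun j => ?_)
    fin_cases j <;> simp [plucker, r] <;> first | ring1 | linear_combination h | linear_combination -h
  · refine key 1 3 (x 4) hi (funext fun j => ?_)
    fin_cases j <;> simp [plucker, r] <;> first | ring1 | linear_combination h | linear_combination -h
  · refine key 2 3 (x 5) hi (funext fun j => ?_)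
    fin_cases j <;> simp [plucker, r] <;> first | ring1 | linear_combination h | linear_combination -h

theorem det3_eq (A E B : Fin 3 → ℂ) :
    det3 A E B = (Matrix.of fun k => ![A k, E k, B k]).det := by
  simp [det_fin_three, det3]
  ring

theorem quad_sum (L : Net) (l : Fin 3 → ℂ) (x : V4) :
    quad (∑ k, l k • L k) x = ∑ k, l k * bil (L k) x x := by
  simp [quad, bil, Fin.sum_univ_three, add_mulVec, smul_mulVec]

theorem on_quadric_iff {L : Net} (hL : ∀ k, (L k).IsSymm) (u v : V4) :
    (∃ l : Fin 3 → ℂ, l ≠ 0 ∧ ∀ s t : ℂ, quad (∑ k, l k • L k) (s • u + t • v) = 0) ↔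
      DD L u v = 0 := by
  rw [DD, det3_eq, ← exists_vecMul_eq_zero_iff]
  refine exists_congr fun l => and_congr_right fun _ => ?_
  simp only [quad_sum]
  simp only [bil_lin, fun k => bil_comm (hL k) v u, Fin.sum_univ_three]
  constructor
  · intro h
    have h1 := h 1 0
    have h2 := h 0 1
    have h3 := h 1 1
    funext j
    fin_cases j <;> simp [vecMul, dotProduct, Fin.sum_univ_three]
    · linear_combination h1
    · linear_combination (h3 - h1 - h2) / 2
    · linear_combination h2
  · intro h s t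
    have h1 := congrFun h 0
    have h2 := congrFun h 1
    have h3 := congrFun h 2
    simp [vecMul, dotProduct, Fin.sum_univ_three] at h1 h2 h3
    linear_combination s * s * h1 + 2 * s * t * h2 + t * t * h3

theorem hasDerivAt_bil (Q : Matrix (Fin 4) (Fin 4) ℂ) (u a v b : V4) :
    HasDerivAt (fun e : ℂ => bil Q (u + e • a) (v + e • b)) (bil Q a v + bil Q u b) 0 := by
  have : (fun e : ℂ => bil Q (u + e • a) (v + e • b)) = fun e =>
      bil Q u v + e * (bil Q a v + bil Q u b) + e * (e * bil Q a b) := by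
    funext e
    have := bil_lin Q 1 e 1 e u a v b
    simp only [one_smul] at this
    rw [this]
    ring
  rw [this]
  have h := hasDerivAt_id (0 : ℂ)
  refine (((h.mul_const (bil Q a v + bil Q u b)).const_add (bil Q u v)).add
    (h.mul (h.mul_const (bil Q a b)))).congr_deriv ?_
  simp

theorem hasDerivAt_det3 {A E B : ℂ → Fin 3 → ℂ} {A' E' B' : Fin 3 → ℂ}
    (hA : ∀ k, HasDerivAt (fun e => A e k) (A' k) 0) (hE : ∀ k, HasDerivAt (fun e => E e k) (E' k) 0)
    (hB : ∀ k, HasDerivAt (fun e => B e k) (B' k) 0) :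
    HasDerivAt (fun e => det3 (A e) (E e) (B e))
      (det3 A' (E 0) (B 0) + det3 (A 0) E' (B 0) + det3 (A 0) (E 0) B') 0 := by
  have := (((hA 0).mul (((hE 1).mul (hB 2)).sub ((hE 2).mul (hB 1)))).sub
    ((hA 1).mul (((hE 0).mul (hB 2)).sub ((hE 2).mul (hB 0))))).add
    ((hA 2).mul (((hE 0).mul (hB 1)).sub ((hE 1).mul (hB 0))))
  refine this.congr_deriv ?_
  simp only [det3, Pi.sub_apply, Pi.mul_apply]
  ring

theorem hasDerivAt_plucker (u a v b : V4) :
    HasDerivAt (fun e : ℂ => plucker (u + e • a) (v + e • b)) (plucker a v + plucker u b) 0 := by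
  have : (fun e : ℂ => plucker (u + e • a) (v + e • b)) = fun e =>
      plucker u v + e • (plucker a v + plucker u b) + e • (e • plucker a b) := by
    funext e i
    fin_cases i <;> simp [plucker] <;> ring
  rw [this]
  have h := hasDerivAt_id (0 : ℂ)
  refine (((h.smul_const (plucker a v + plucker u b)).const_add (plucker u v)).add
    (h.smul (h.smul_const (plucker a b)))).congr_deriv ?_
  simp

theorem par3 {A B : Fin 3 → ℂ} (hA : A ≠ 0) (h0 : A 1 * B 2 - A 2 * B 1 = 0)
    (h1 : A 0 * B 2 - A 2 * B 0 = 0) (h2 : A 0 * B 1 - A 1 * B 0 = 0) :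
    ∃ r : ℂ, ∀ k, B k = r * A k := by
  obtain ⟨i, hi⟩ := Function.ne_iff.1 hA
  have hi' : A i ≠ 0 := hi
  refine ⟨B i / A i, fun k => ?_⟩
  field_simp
  fin_cases i <;> fin_cases k <;> simp only [Fin.zero_eta, Fin.mk_one, Fin.reduceFinMk] <;>
    first | ring1 | linear_combination h0 | linear_combination -h0 | linear_combination h1 |
      linear_combination -h1 | linear_combination h2 | linear_combination -h2

/-- Transversality properties of a net with base points `P`. -/
structure Nice (L : Net) (P : Fin 8 → V4) : Prop where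
  sym : ∀ k, (L k).IsSymm
  h1 : ∀ x : V4, x ≠ 0 → (∀ k, bil (L k) x x = 0) → ∃ (i : Fin 8) (t : ℂ), x = t • P i
  h2 : ∀ (i : Fin 8) (l : Fin 3 → ℂ), (∀ a, ∑ k, l k * bil (L k) (P i) a = 0) → l = 0
  h2' : ∀ (i : Fin 8) (v : V4), (∀ k, bil (L k) (P i) v = 0) → ∃ t : ℂ, v = t • P i
  h3 : ∀ (l : Fin 3 → ℂ) (u v : V4), (∀ a, ∑ k, l k * bil (L k) u a = 0) →
    (∀ a, ∑ k, l k * bil (L k) v a = 0) → l = 0 ∨ Dep u v

def Sing (c : PP) (x : VV) : Prop := ∀ w, Bf x w = 0 → D c x w = 0

theorem sing_of_not_smooth {c : PP} {x : VV} (hx : x ≠ 0) (h : ¬Smooth qq c x) : Sing c x := by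
  intro w hw
  by_contra h0
  obtain ⟨a, ha⟩ : ∃ a, Bf x a ≠ 0 := by
    by_contra hcon
    push Not at hcon
    exact hx (Bf_nondeg hcon)
  rw [← D_qq] at hw ha
  refine h ⟨(D qq x a)⁻¹ • a - ((D qq x a)⁻¹ * D c x a * (D c x w)⁻¹) • w, (D c x w)⁻¹ • w,
    ?_, ?_, ?_, ?_⟩ <;> simp only [map_sub, map_smul, smul_eq_mul, hw] <;> field_simp <;> ring

theorem Sing.smul {c : PP} (hc : Hom c 3) {x : VV} (h : Sing c x) {t : ℂ} (ht : t ≠ 0) :
    Sing c (t • x) := by
  intro w hw
  rw [← D_qq, hom_qq.D_smul ht, D_qq] at hw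
  rw [hc.D_smul ht, h w ((mul_eq_zero.1 hw).resolve_left (pow_ne_zero _ ht)), mul_zero]

namespace Nice

variable {L : Net} {P : Fin 8 → V4} (N : Nice L P) {c : PP}
include N

theorem der (hc : ∀ u v, 4 * eval (plucker u v) c = DD L u v) {u v : V4}
    (h : Sing c (plucker u v)) (a b : V4) :
    det3 (fun k => 2 * bil (L k) u a) (fun k => bil (L k) u v) (fun k => bil (L k) v v) +
    det3 (fun k => bil (L k) u u) (fun k => bil (L k) v a + bil (L k) u b)
      (fun k => bil (L k) v v) +
    det3 (fun k => bil (L k) u u) (fun k => bil (L k) u v) (fun k => 2 * bil (L k) v b) = 0 := by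
  have h1 := (hasDerivAt_eval c (hasDerivAt_plucker u a v b)).const_mul 4
  simp only [hc, zero_smul, add_zero] at h1
  rw [h _ (by simp [Bf, plucker]; ring), mul_zero] at h1
  have h2 := hasDerivAt_det3 (fun k => hasDerivAt_bil (L k) u a u a)
    (fun k => hasDerivAt_bil (L k) u a v b) (fun k => hasDerivAt_bil (L k) v b v b)
  have := h2.unique h1
  simp only [zero_smul, add_zero, fun k => bil_comm (N.sym k) a u,
    fun k => bil_comm (N.sym k) a v, fun k => bil_comm (N.sym k) b v, ← two_mul] at this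
  exact this

theorem tang {u v : V4} (h0 : plucker u v ≠ 0) (hA : ∀ k, bil (L k) u u = 0)
    (hE : ∀ k, bil (L k) u v = 0) : False := by
  have hu : u ≠ 0 := by
    rintro rfl
    exact h0 (plucker_zero_left v)
  obtain ⟨i, t, rfl⟩ := N.h1 u hu hA
  have ht : t ≠ 0 := by
    rintro rfl
    exact hu (zero_smul _ _)
  obtain ⟨s, rfl⟩ := N.h2' i v fun k => by
    have := hE k
    simp only [bil, smul_dotProduct, smul_eq_mul] at this
    exact (mul_eq_zero.1 this).resolve_left ht
  have := plucker_lin 1 0 1 0 (P i) (P i)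
  simp only [one_smul, zero_smul, add_zero, mul_zero, zero_mul, sub_zero] at this
  exact h0 (by rw [plucker_smul, this, smul_zero])

theorem two {u v : V4} (h0 : plucker u v ≠ 0) (hA : ∀ k, bil (L k) u u = 0)
    (hB : ∀ k, bil (L k) v v = 0) :
    ∃ (i j : Fin 8) (t : ℂ), plucker u v = t • plucker (P i) (P j) := by
  obtain ⟨i, t, rfl⟩ := N.h1 u (by rintro rfl; exact h0 (plucker_zero_left v)) hA
  obtain ⟨j, s, rfl⟩ := N.h1 v (by rintro rfl; exact h0 (plucker_zero_right _)) hB
  exact ⟨i, j, _, plucker_smul _ _ _ _⟩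

theorem caseA (hc : ∀ u v, 4 * eval (plucker u v) c = DD L u v) {u v : V4}
    (h0 : plucker u v ≠ 0) (h : Sing c (plucker u v)) (hE : ∀ k, bil (L k) u v = 0) :
    ∃ (i j : Fin 8) (t : ℂ), plucker u v = t • plucker (P i) (P j) := by
  have hd := N.der hc h
  let A := fun k => bil (L k) u u
  let B := fun k => bil (L k) v v
  have hl := (N.h3 ![A 1 * B 2 - A 2 * B 1, -(A 0 * B 2 - A 2 * B 0), A 0 * B 1 - A 1 * B 0] u v
    (fun a => by
      have := hd 0 a
      simp only [det3, hE, bil_zero_right] at this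
      simp only [Fin.sum_univ_three, A, B, Matrix.cons_val]
      linear_combination -this)
    (fun a => by
      have := hd a 0
      simp only [det3, hE, bil_zero_right] at this
      simp only [Fin.sum_univ_three, A, B, Matrix.cons_val]
      linear_combination -this)).resolve_right fun hd => h0 hd.plucker
  have hA : A ≠ 0 := fun hA => N.tang h0 (congrFun hA) hE
  obtain ⟨r, hr⟩ := par3 (B := B) hA (congrFun hl 0) (neg_eq_zero.1 (congrFun hl 1)) (congrFun hl 2)
  obtain ⟨s, hs⟩ := IsAlgClosed.exists_pow_nat_eq (-r) (n := 2) (by norm_num)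
  have hs0 : s ≠ 0 := by
    rintro rfl
    have h1 := plucker_lin 0 1 1 0 u v
    simp only [one_smul, zero_smul, add_zero, zero_add] at h1
    refine N.tang (u := v) (v := u) (by rw [h1]; simpa using h0) (fun k => ?_)
      (fun k => by rw [bil_comm (N.sym k), hE])
    have := hr k
    simp only [A, B] at this
    linear_combination this + bil (L k) u u * hs
  have h1 := plucker_lin s 1 s (-1) u v
  have hne : s * -1 - 1 * s ≠ 0 := fun h => hs0 (by linear_combination -h / 2)
  have hb : ∀ e : ℂ, e ^ 2 = 1 → ∀ k, bil (L k) (s • u + e • v) (s • u + e • v) = 0 := by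
    intro e he k
    have := hr k
    simp only [A, B] at this
    rw [bil_lin, bil_comm (N.sym k) v u, hE]
    linear_combination this + bil (L k) u u * hs + bil (L k) v v * he
  obtain ⟨i, j, t, e⟩ := N.two (by rw [h1]; exact smul_ne_zero hne h0) (hb 1 (by norm_num))
    (hb (-1) (by norm_num))
  refine ⟨i, j, (s * -1 - 1 * s)⁻¹ * t, ?_⟩
  rw [mul_smul, ← e, h1, smul_smul, inv_mul_cancel₀ hne, one_smul]

theorem caseB (hc : ∀ u v, 4 * eval (plucker u v) c = DD L u v) {u v : V4}
    (h0 : plucker u v ≠ 0) (h : Sing c (plucker u v)) (hA : ∀ k, bil (L k) u u = 0) :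
    ∃ (i j : Fin 8) (t : ℂ), plucker u v = t • plucker (P i) (P j) := by
  have hd := N.der hc h
  let E := fun k => bil (L k) u v
  let B := fun k => bil (L k) v v
  have hu : u ≠ 0 := by
    rintro rfl
    exact h0 (plucker_zero_left v)
  obtain ⟨i, t, e⟩ := N.h1 u hu hA
  have ht : t ≠ 0 := by
    rintro rfl
    exact hu (by rw [e, zero_smul])
  have hl := N.h2 i ![E 1 * B 2 - E 2 * B 1, -(E 0 * B 2 - E 2 * B 0), E 0 * B 1 - E 1 * B 0]
    fun a => by
      have := hd a 0
      have h2 : ∀ k, bil (L k) u a = t * bil (L k) (P i) a := fun k => by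
        rw [e]
        simp only [bil, smul_dotProduct, smul_eq_mul]
      simp only [det3, hA, bil_zero_right, h2] at this
      simp only [Fin.sum_univ_three, E, B, Matrix.cons_val]
      apply mul_left_cancel₀ (mul_ne_zero two_ne_zero ht)
      linear_combination this
  have hE : E ≠ 0 := fun hE => N.tang h0 hA (congrFun hE)
  obtain ⟨r, hr⟩ := par3 (B := B) hE (congrFun hl 0) (neg_eq_zero.1 (congrFun hl 1)) (congrFun hl 2)
  have h1 := plucker_lin 1 0 (-r / 2) 1 u v
  simp only [one_smul, zero_smul, add_zero, mul_one, zero_mul, sub_zero] at h1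
  rw [← h1]
  refine N.two (by rwa [h1]) hA fun k => ?_
  have := hr k
  have h2 := bil_lin (L k) (-r / 2) 1 (-r / 2) 1 u v u v
  simp only [E, B, one_smul] at this h2
  rw [h2, bil_comm (N.sym k) v u, hA]
  linear_combination this

theorem sing (hc : ∀ u v, 4 * eval (plucker u v) c = DD L u v) (hc3 : Hom c 3) {x : VV}
    (hx : OnX qq c x) (h : ¬Smooth qq c x) :
    ∃ (i j : Fin 8) (t : ℂ), x = t • plucker (P i) (P j) := by
  have hs := sing_of_not_smooth hx.1 h
  obtain ⟨u, v, rfl⟩ := exists_plucker hx.1 hx.2.1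
  have hD := hc u v
  rw [hx.2.2, mul_zero, DD, det3_eq, eq_comm, ← exists_mulVec_eq_zero_iff] at hD
  obtain ⟨μ, hμ, hD⟩ := hD
  obtain ⟨s1, t1, s2, t2, e0, e1, e2⟩ : ∃ s1 t1 s2 t2 : ℂ,
      s1 * s2 = μ 0 ∧ s1 * t2 + t1 * s2 = μ 1 ∧ t1 * t2 = μ 2 := by
    by_cases h0 : μ 0 = 0
    · exact ⟨0, 1, μ 1, μ 2, by simp [h0], by simp, by simp⟩
    · obtain ⟨δ, hδ⟩ := IsAlgClosed.exists_pow_nat_eq (μ 1 ^ 2 - 4 * μ 0 * μ 2) (n := 2)
        (by norm_num)
      refine ⟨μ 0, (μ 1 - δ) / 2, 1, (μ 1 + δ) / (2 * μ 0), by simp, by field_simp; ring, ?_⟩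
      field_simp
      linear_combination -hδ
  have hb : ∀ k, bil (L k) (s1 • u + t1 • v) (s2 • u + t2 • v) = 0 := by
    intro k
    have := congrFun hD k
    simp only [mulVec, dotProduct, Fin.sum_univ_three, of_apply, Matrix.cons_val,
      Pi.zero_apply] at this
    rw [bil_lin, bil_comm (N.sym k) v u]
    linear_combination this + bil (L k) u u * e0 + bil (L k) u v * e1 + bil (L k) v v * e2
  have fin : ∀ (y : ℂ) (a b : V4), y ≠ 0 → plucker a b = y • plucker u v →
      ((∀ k, bil (L k) a b = 0) ∨ ∀ k, bil (L k) a a = 0) →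
      ∃ (i j : Fin 8) (t : ℂ), plucker u v = t • plucker (P i) (P j) := by
    intro y a b hy e hab
    have h0 : plucker a b ≠ 0 := by rw [e]; exact smul_ne_zero hy hx.1
    have h1 : Sing c (plucker a b) := by rw [e]; exact hs.smul hc3 hy
    obtain ⟨i, j, t, e'⟩ := hab.elim (N.caseA hc h0 h1) (N.caseB hc h0 h1)
    exact ⟨i, j, y⁻¹ * t, by rw [mul_smul, ← e', e, smul_smul, inv_mul_cancel₀ hy, one_smul]⟩
  by_cases hdet : s1 * t2 - t1 * s2 = 0
  · have hne : ∀ a b : ℂ, a = 0 → b = 0 → ¬(μ 0 = 0 ∧ μ 1 = 0 ∧ μ 2 = 0) := by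
      rintro a b - - ⟨z0, z1, z2⟩
      refine hμ (funext fun k => ?_)
      fin_cases k <;> assumption
    have hA : ∀ k, bil (L k) (s1 • u + t1 • v) (s1 • u + t1 • v) = 0 := by
      intro k
      have := hb k
      rw [bil_lin] at this ⊢
      by_cases hs2 : s2 = 0
      · have ht2 : t2 ≠ 0 := by
          rintro rfl
          exact hne 0 0 rfl rfl ⟨by simp [← e0, hs2], by simp [← e1, hs2], by simp [← e2]⟩
        apply mul_left_cancel₀ ht2
        linear_combination t1 * this + (s1 * bil (L k) u u + t1 * bil (L k) v u) * hdet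
      · apply mul_left_cancel₀ hs2
        linear_combination s1 * this - (s1 * bil (L k) u v + t1 * bil (L k) v v) * hdet
    by_cases hs1 : s1 = 0
    · have ht1 : t1 ≠ 0 := by
        rintro rfl
        exact hne 0 0 rfl rfl ⟨by simp [← e0, hs1], by simp [← e1, hs1], by simp [← e2]⟩
      exact fin _ _ _ (by simpa using ht1) (plucker_lin s1 t1 1 0 u v) (Or.inr hA)
    · exact fin _ _ _ (by simpa using hs1) (plucker_lin s1 t1 0 1 u v) (Or.inr hA)
  · exact fin _ _ _ hdet (plucker_lin s1 t1 s2 t2 u v) (Or.inl hb)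

end Nice

end Pool.Agent.P.MP_970871_ag
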