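import Pool.Agent.P.MP_970871_ag.Alg

set_option autoImplicit false

namespace Pool.Agent.P.MP_970871_ag

open MvPolynomial

def OnX (q c : PP) (x : VV) : Prop := x ≠ 0 ∧ eval x q = 0 ∧ eval x c = 0

def Smooth (q c : PP) (x : VV) : Prop :=
  ∃ a b, D q x a = 1 ∧ D c x a = 0 ∧ D q x b = 0 ∧ D c x b = 1

noncomputable def ev (F : Fin 6 → PP) (x : VV) : VV := fun i => eval x (F i)

noncomputable def dF (F : Fin 6 → PP) (x : VV) : VV →ₗ[ℂ] VV := LinearMap.pi fun i => D (F i) x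

theorem hasDerivAt_ev (F : Fin 6 → PP) {γ : ℂ → VV} {v : VV} {a : ℂ} (h : HasDerivAt γ v a) :
    HasDerivAt (fun e => ev F (γ e)) (dF F (γ a) v) a :=
  hasDerivAt_pi.2 fun i => hasDerivAt_eval (F i) h

theorem hasDerivAt_ev_line (F : Fin 6 → PP) (x v : VV) :
    HasDerivAt (fun e : ℂ => ev F (x + e • v)) (dF F x v) 0 := by
  simpa using hasDerivAt_ev F (hasDerivAt_line x v 0)

theorem ev_smul {F : Fin 6 → PP} {n : ℕ} (h : ∀ i, Hom (F i) n) (t : ℂ) (x : VV) :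
    ev F (t • x) = t ^ n • ev F x := by
  funext i
  exact h i t x

theorem dF_self {F : Fin 6 → PP} {n : ℕ} (h : ∀ i, Hom (F i) n) (x : VV) :
    dF F x x = (n : ℂ) • ev F x := by
  funext i
  exact (h i).euler x

theorem dF_smul {F : Fin 6 → PP} {n : ℕ} (h : ∀ i, Hom (F i) (n + 1)) {t : ℂ} (ht : t ≠ 0)
    (x v : VV) : dF F (t • x) v = t ^ n • dF F x v := by
  funext i
  exact (h i).D_smul ht x v

theorem isPoly_ev (F : Fin 6 → PP) {f : VV → VV} (hf : ∀ i, IsPoly fun x => f x i) (i : Fin 6) :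
    IsPoly fun x => ev F (f x) i := IsPoly.comp _ hf

theorem par_of {a y : VV} (hy : y ≠ 0) (h : ∀ i j, a i * y j = a j * y i) : ∃ k : ℂ, a = k • y := by
  obtain ⟨i, hi⟩ := Function.ne_iff.1 hy
  have hi' : y i ≠ 0 := hi
  refine ⟨a i / y i, funext fun j => ?_⟩
  simp only [Pi.smul_apply, smul_eq_mul]
  field_simp
  rw [h j i]

/-- The setting: a map between the cones given locally by homogeneous polynomials. -/
structure Data where
  q : PP
  c : PP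
  q' : PP
  c' : PP
  Φ : VV → VV
  hq : Hom q 2
  hc : Hom c 3
  hq' : Hom q' 2
  hc' : Hom c' 3
  rad : ∀ r : PP, (∀ x, OnX q c x → eval x r = 0) → ∃ a b : PP, r = a * q + b * c
  hΦ : ∀ x, OnX q c x → OnX q' c' (Φ x)
  loc : ∀ x0, OnX q c x0 → ∃ (d e : ℕ) (s : PP) (F : Fin 6 → PP), Hom s e ∧
    (∀ i, Hom (F i) d) ∧ eval x0 s ≠ 0 ∧
    ∀ x, OnX q c x → eval x s ≠ 0 → ∃ t : ℂ, t ≠ 0 ∧ ev F x = t • Φ x
  inv : ∀ x0, OnX q c x0 → ∃ (d e : ℕ) (s : PP) (H : Fin 6 → PP), Hom s e ∧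
    (∀ i, Hom (H i) d) ∧ eval (Φ x0) s ≠ 0 ∧
    ∀ x, OnX q c x → eval (Φ x) s ≠ 0 → ∃ t : ℂ, t ≠ 0 ∧ ev H (Φ x) = t • x

namespace Data

variable (S : Data)

theorem tan {f s : VV → ℂ} (hf : IsPoly f) (hs : IsPoly s)
    (h : ∀ w, OnX S.q S.c w → s w ≠ 0 → f w = 0) {x v : VV} (hx : OnX S.q S.c x) (hsx : s x ≠ 0)
    (h1 : D S.q x v = 0) (h2 : D S.c x v = 0) {f' : ℂ}
    (hd : HasDerivAt (fun e : ℂ => f (x + e • v)) f' 0) : f' = 0 := by
  obtain ⟨p, hp⟩ := hf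
  obtain ⟨σ, hσ⟩ := hs
  obtain ⟨a, b, hab⟩ := S.rad (p * σ) fun w hw => by
    rw [map_mul, hp, hσ]
    by_cases h0 : s w = 0
    · simp [h0]
    · simp [h w hw h0]
  have h3 := congrArg (fun r => D r x v) hab
  simp only [D_mul, D_add, hx.2.1, hx.2.2, h1, h2, hp, hσ, h x hx hsx, mul_zero, add_zero,
    zero_mul] at h3
  have h4 := hasDerivAt_eval_line p x v
  simp only [hp] at h4
  rw [hd.unique h4]
  exact (mul_eq_zero.1 h3).resolve_right hsx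

theorem par {f g : VV → VV} {s : VV → ℂ} (hf : ∀ i, IsPoly fun x => f x i)
    (hg : ∀ i, IsPoly fun x => g x i) (hs : IsPoly s)
    (h : ∀ w, OnX S.q S.c w → s w ≠ 0 → ∃ (y : VV) (t t' : ℂ), f w = t • y ∧ g w = t' • y)
    {x v : VV} (hx : OnX S.q S.c x) (hsx : s x ≠ 0)
    (h1 : D S.q x v = 0) (h2 : D S.c x v = 0) {f' g' : VV}
    (hd : HasDerivAt (fun e : ℂ => f (x + e • v)) f' 0)
    (hd' : HasDerivAt (fun e : ℂ => g (x + e • v)) g' 0) (i j : Fin 6) :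
    f' i * g x j + f x i * g' j = f' j * g x i + f x j * g' i := by
  have := S.tan (f := fun w => f w i * g w j - f w j * g w i)
    (((hf i).mul (hg j)).sub ((hf j).mul (hg i))) hs (fun w hw hsw => by
      obtain ⟨y, t, t', e1, e2⟩ := h w hw hsw
      simp only [e1, e2, Pi.smul_apply, smul_eq_mul]
      ring) hx hsx h1 h2
    (((hasDerivAt_pi.1 hd i).mul (hasDerivAt_pi.1 hd' j)).sub
      ((hasDerivAt_pi.1 hd j).mul (hasDerivAt_pi.1 hd' i)))
  simp only [zero_smul, add_zero] at this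
  linear_combination this

def Chart (d : ℕ) (s : PP) (F : Fin 6 → PP) : Prop :=
  (∃ e, Hom s e) ∧ (∀ i, Hom (F i) (d + 1)) ∧
    ∀ x, OnX S.q S.c x → eval x s ≠ 0 → ∃ t : ℂ, t ≠ 0 ∧ ev F x = t • S.Φ x

theorem exists_chart {x0 : VV} (hx : OnX S.q S.c x0) :
    ∃ d s F, S.Chart d s F ∧ eval x0 s ≠ 0 := by
  obtain ⟨d, e, s, F, hs, hF, h0, h⟩ := S.loc x0 hx
  obtain ⟨i, hi⟩ := Function.ne_iff.1 hx.1
  have hi' : x0 i ≠ 0 := hi
  refine ⟨d, s * X i, fun j => F j * X i, ⟨⟨_, hs.mul (hom_X i)⟩,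
    fun j => (hF j).mul (hom_X i), fun x hx hsx => ?_⟩, by simp [h0, hi']⟩
  simp only [map_mul, eval_X, mul_ne_zero_iff] at hsx
  obtain ⟨t, ht, e⟩ := h x hx hsx.1
  refine ⟨t * x i, mul_ne_zero ht hsx.2, funext fun j => ?_⟩
  have := congrFun e j
  simp only [ev, Pi.smul_apply, smul_eq_mul, map_mul, eval_X] at this ⊢
  rw [this]
  ring

variable {S}

theorem Chart.ne {d : ℕ} {s : PP} {F : Fin 6 → PP} (h : S.Chart d s F) {x : VV}
    (hx : OnX S.q S.c x) (hs : eval x s ≠ 0) : ev F x ≠ 0 := by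
  obtain ⟨t, ht, e⟩ := h.2.2 x hx hs
  rw [e]
  exact smul_ne_zero ht (S.hΦ x hx).1

theorem Chart.tan {d : ℕ} {s : PP} {F : Fin 6 → PP} (h : S.Chart d s F) {x v : VV}
    (hx : OnX S.q S.c x) (hs : eval x s ≠ 0) (h1 : D S.q x v = 0) (h2 : D S.c x v = 0) :
    D S.q' (ev F x) (dF F x v) = 0 ∧ D S.c' (ev F x) (dF F x v) = 0 := by
  constructor
  · refine S.tan (f := fun w => eval (ev F w) S.q') (IsPoly.comp _ (isPoly_ev F IsPoly.coord))
      (IsPoly.ev s) (fun w hw hsw => ?_) hx hs h1 h2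
      (by simpa using hasDerivAt_eval S.q' (hasDerivAt_ev_line F x v))
    obtain ⟨t, -, e⟩ := h.2.2 w hw hsw
    simp only [e, S.hq' t, (S.hΦ w hw).2.1, mul_zero]
  · refine S.tan (f := fun w => eval (ev F w) S.c') (IsPoly.comp _ (isPoly_ev F IsPoly.coord))
      (IsPoly.ev s) (fun w hw hsw => ?_) hx hs h1 h2
      (by simpa using hasDerivAt_eval S.c' (hasDerivAt_ev_line F x v))
    obtain ⟨t, -, e⟩ := h.2.2 w hw hsw
    simp only [e, S.hc' t, (S.hΦ w hw).2.2, mul_zero]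

theorem Chart.inj {d : ℕ} {s : PP} {F : Fin 6 → PP} (h : S.Chart d s F) {x v : VV}
    (hx : OnX S.q S.c x) (hs : eval x s ≠ 0) (h1 : D S.q x v = 0) (h2 : D S.c x v = 0)
    (h0 : dF F x v = 0) : v = 0 := by
  obtain ⟨d', e', s', H, hs', hH, h0', hinv⟩ := S.inv x hx
  have key : ∀ w, OnX S.q S.c w → eval w s * eval (ev F w) s' ≠ 0 →
      ∃ t : ℂ, t ≠ 0 ∧ ev H (ev F w) = t • w := by
    intro w hw hsw
    obtain ⟨t, ht, e⟩ := h.2.2 w hw (left_ne_zero_of_mul hsw)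
    have h3 := right_ne_zero_of_mul hsw
    rw [e, hs' t] at h3
    obtain ⟨t', ht', e2⟩ := hinv w hw (right_ne_zero_of_mul h3)
    exact ⟨t ^ d' * t', mul_ne_zero (pow_ne_zero _ ht) ht', by rw [e, ev_smul hH, e2, smul_smul]⟩
  have hsx : eval x s * eval (ev F x) s' ≠ 0 := by
    obtain ⟨t, ht, e⟩ := h.2.2 x hx hs
    rw [e, hs' t]
    exact mul_ne_zero hs (mul_ne_zero (pow_ne_zero _ ht) h0')
  have hd := hasDerivAt_ev H (hasDerivAt_ev_line F x v)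
  rw [h0, map_zero] at hd
  have hp := S.par (f := fun w => ev H (ev F w)) (g := fun w => w)
    (s := fun w => eval w s * eval (ev F w) s') (isPoly_ev H (isPoly_ev F IsPoly.coord))
    IsPoly.coord ((IsPoly.ev s).mul (IsPoly.comp _ (isPoly_ev F IsPoly.coord)))
    (fun w hw hsw => by
      obtain ⟨t, -, e⟩ := key w hw hsw
      exact ⟨w, t, 1, e, (one_smul _ _).symm⟩) hx hsx h1 h2 hd (hasDerivAt_line x v 0)
  obtain ⟨t, ht, e⟩ := key x hx hsx
  obtain ⟨k, hk⟩ := par_of (a := v) hx.1 fun i j => by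
    have := hp i j
    simp only [e, Pi.zero_apply, zero_mul, zero_add, Pi.smul_apply, smul_eq_mul] at this
    apply mul_left_cancel₀ ht
    linear_combination -this
  rw [hk, map_smul, dF_self h.2.1, smul_smul, smul_eq_zero] at h0
  rcases h0 with h0 | h0
  · rcases mul_eq_zero.1 h0 with h0 | h0
    · rw [hk, h0, zero_smul]
    · exact absurd h0 (Nat.cast_ne_zero.2 (Nat.succ_ne_zero d))
  · exact absurd h0 (h.ne hx hs)

variable (S)

/-- The normalised lift. -/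
def GG (x g : VV) : Prop :=
  ∃ (d : ℕ) (s : PP) (F : Fin 6 → PP) (A : VV →ₗ[ℂ] VV), S.Chart d s F ∧ eval x s ≠ 0 ∧
    LinearMap.det A ≠ 0 ∧ (∀ v, D S.q' (ev F x) (A v) = D S.q x v) ∧
    (∀ v, D S.c' (ev F x) (A v) = D S.c x v) ∧
    (∀ v, D S.q x v = 0 → D S.c x v = 0 → A v = dF F x v) ∧ g = (LinearMap.det A)⁻¹ • A x

variable {S}

theorem self_tan {x : VV} (hx : OnX S.q S.c x) : D S.q x x = 0 ∧ D S.c x x = 0 := by
  rw [S.hq.euler, S.hc.euler, hx.2.1, hx.2.2]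
  simp

theorem GG.par {x g : VV} (hx : OnX S.q S.c x) (h : S.GG x g) :
    ∃ t : ℂ, t ≠ 0 ∧ g = t • S.Φ x := by
  obtain ⟨d, s, F, A, hc, hs, hA, -, -, h3, rfl⟩ := h
  obtain ⟨t, ht, e⟩ := hc.2.2 x hx hs
  refine ⟨(LinearMap.det A)⁻¹ * ((d + 1 : ℕ) * t), mul_ne_zero (inv_ne_zero hA)
    (mul_ne_zero (Nat.cast_ne_zero.2 (Nat.succ_ne_zero d)) ht), ?_⟩
  rw [h3 x (self_tan hx).1 (self_tan hx).2, dF_self hc.2.1, e, smul_smul, smul_smul, mul_assoc]

theorem GG.unique {x g1 g2 : VV} {t : ℂ} (hx : OnX S.q S.c x) (hsm : Smooth S.q S.c x)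
    (ht : t ≠ 0) (h1 : S.GG x g1) (h2 : S.GG (t • x) g2) : g2 = t • g1 := by
  obtain ⟨d1, s1, F1, A1, hc1, hs1, hA1, a1, b1, c1, rfl⟩ := h1
  obtain ⟨d2, s2, F2, A2, hc2, hs2, hA2, a2, b2, c2, rfl⟩ := h2
  obtain ⟨a, b, haa, hba, hab, hbb⟩ := hsm
  obtain ⟨e2, he2⟩ := hc2.1
  rw [he2 t] at hs2
  have hs2' := right_ne_zero_of_mul hs2
  obtain ⟨t1, ht1, e1⟩ := hc1.2.2 x hx hs1
  obtain ⟨t2, ht2, e2⟩ := hc2.2.2 x hx hs2'
  obtain ⟨u, hu, eu⟩ : ∃ u : ℂ, u ≠ 0 ∧ ev F2 x = u • ev F1 x :=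
    ⟨t2 / t1, div_ne_zero ht2 ht1, by rw [e1, e2, smul_smul, div_mul_cancel₀ _ ht1]⟩
  have hy := hc1.ne hx hs1
  have hd1 : ((d1 + 1 : ℕ) : ℂ) ≠ 0 := Nat.cast_ne_zero.2 (Nat.succ_ne_zero d1)
  have hd2 : ((d2 + 1 : ℕ) : ℂ) ≠ 0 := Nat.cast_ne_zero.2 (Nat.succ_ne_zero d2)
  have hw : t ^ d2 * u ≠ 0 := mul_ne_zero (pow_ne_zero _ ht) hu
  have hw' : t ^ (d2 + 1) * u ≠ 0 := mul_ne_zero (pow_ne_zero _ ht) hu
  rw [ev_smul hc2.2.1, eu, smul_smul] at a2 b2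
  simp only [S.hq'.D_smul hw', S.hc'.D_smul hw', S.hq.D_smul ht, S.hc.D_smul ht] at a2 b2 c2
  let E := LinearMap.equivOfDetNeZero A1 hA1
  have hE : ∀ v, A1 (E.symm v) = v := fun v => E.apply_symm_apply v
  have hinj : Function.Injective A1 := E.injective
  let M : VV →ₗ[ℂ] VV := E.symm.toLinearMap ∘ₗ A2
  have hM : ∀ v, A1 (M v) = A2 v := fun v => hE _
  have hA1x : A1 x = ((d1 + 1 : ℕ) : ℂ) • ev F1 x := by
    rw [c1 x (self_tan hx).1 (self_tan hx).2, dF_self hc1.2.1]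
  have hA2 : ∀ v, D S.q x v = 0 → D S.c x v = 0 → A2 v = t ^ d2 • dF F2 x v := by
    intro v hv1 hv2
    rw [c2 v (by simp [hv1]) (by simp [hv2]), dF_smul hc2.2.1 ht]
  have hMx : M x = (t ^ d2 * u * ((d2 + 1 : ℕ) : ℂ) / ((d1 + 1 : ℕ) : ℂ)) • x := by
    apply hinj
    rw [hM, map_smul, hA1x, hA2 x (self_tan hx).1 (self_tan hx).2, dF_self hc2.2.1, eu,
      smul_smul, smul_smul, smul_smul]
    congr 1
    field_simp
  have hdet := det_flag M (D S.q x) (D S.c x) a b x _ (t ^ d2 * u) (t ^ d2 * u)⁻¹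
    ((t ^ d2 * u)⁻¹ ^ 2) haa hba hab hbb hx.1 (self_tan hx).1 (self_tan hx).2
    (div_ne_zero (mul_ne_zero hw hd2) hd1) hw (inv_ne_zero hw) (pow_ne_zero _ (inv_ne_zero hw))
    hMx (fun v hv1 hv2 => by
      have hp := S.par (f := fun w => ev F1 w) (g := fun w => ev F2 w)
        (s := fun w => eval w s1 * eval w s2) (isPoly_ev F1 IsPoly.coord)
        (isPoly_ev F2 IsPoly.coord) ((IsPoly.ev s1).mul (IsPoly.ev s2))
        (fun w hw hsw => by
          obtain ⟨t1, -, e1⟩ := hc1.2.2 w hw (left_ne_zero_of_mul hsw)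
          obtain ⟨t2, -, e2⟩ := hc2.2.2 w hw (right_ne_zero_of_mul hsw)
          exact ⟨_, t1, t2, e1, e2⟩) hx (mul_ne_zero hs1 hs2') hv1 hv2
        (hasDerivAt_ev_line F1 x v) (hasDerivAt_ev_line F2 x v)
      obtain ⟨k, hk⟩ := par_of (a := dF F2 x v - u • dF F1 x v) hy fun i j => by
        have := hp i j
        simp only [eu, Pi.smul_apply, smul_eq_mul, Pi.sub_apply] at this ⊢
        linear_combination -this
      refine ⟨t ^ d2 * k / ((d1 + 1 : ℕ) : ℂ), hinj ?_⟩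
      rw [hM, hA2 v hv1 hv2, map_add, map_smul, map_smul, hA1x, c1 v hv1 hv2, smul_smul,
        div_mul_cancel₀ _ hd1, mul_smul, mul_smul, ← smul_add, ← hk, add_sub_cancel])
    (fun v => by
      rw [← a1, hM]
      have := a2 v
      field_simp
      apply mul_left_cancel₀ ht
      linear_combination this)
    (fun v => by
      rw [← b1, hM]
      have := b2 v
      field_simp
      apply mul_left_cancel₀ (pow_ne_zero 2 ht)
      linear_combination this)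
  have hA : A2 = A1 ∘ₗ M := LinearMap.ext fun v => (hM v).symm
  have hdA : LinearMap.det A2 = LinearMap.det A1 * LinearMap.det M := by
    rw [hA, LinearMap.det_comp]
  rw [hdA, hdet, map_smul, ← hM, hMx, map_smul, smul_smul, smul_smul, smul_smul]
  congr 1
  field_simp

end Data

end Pool.Agent.P.MP_970871_ag
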