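import Pool.Agent.P.MP_970871_ag.Lin

set_option autoImplicit false

namespace Pool.Agent.P.MP_970871_ag

open MvPolynomial

theorem Smooth.smul {q c : PP} (hq : Hom q 2) (hc : Hom c 3) {x : VV} (h : Smooth q c x) {t : ℂ}
    (ht : t ≠ 0) : Smooth q c (t • x) := by
  obtain ⟨a, b, h1, h2, h3, h4⟩ := h
  refine ⟨t⁻¹ • a, (t⁻¹ ^ 2) • b, ?_, ?_, ?_, ?_⟩ <;>
    simp only [hq.D_smul ht, hc.D_smul ht, map_smul, h1, h2, h3, h4, smul_eq_mul] <;> field_simp
  all_goals simp

/-- Two by two minor of a pair of functionals. -/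
def mnr (α β : VV →ₗ[ℂ] ℂ) (a b : VV) : ℂ := α a * β b - α b * β a

noncomputable def adm (L : VV →ₗ[ℂ] VV) (α β α' β' : VV →ₗ[ℂ] ℂ) (a b a' b' : VV) :
    VV →ₗ[ℂ] VV :=
  mnr α' β' a' b' • (L ∘ₗ (mnr α β a b • LinearMap.id - α.smulRight (β b • a - β a • b) -
    β.smulRight (α a • b - α b • a))) +
  mnr α β a b • (α.smulRight (β' b' • a' - β' a' • b') + β.smulRight (α' a' • b' - α' b' • a'))

theorem adm_apply (L : VV →ₗ[ℂ] VV) (α β α' β' : VV →ₗ[ℂ] ℂ) (a b a' b' v : VV) :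
    adm L α β α' β' a b a' b' v =
      mnr α' β' a' b' • L (mnr α β a b • v - α v • (β b • a - β a • b) -
        β v • (α a • b - α b • a)) +
      mnr α β a b • (α v • (β' b' • a' - β' a' • b') + β v • (α' a' • b' - α' b' • a')) := rfl

theorem adm_spec (L : VV →ₗ[ℂ] VV) (α β α' β' : VV →ₗ[ℂ] ℂ) (a b a' b' : VV)
    (h : ∀ v, α v = 0 → β v = 0 → α' (L v) = 0 ∧ β' (L v) = 0) (v : VV) :
    α' (adm L α β α' β' a b a' b' v) = mnr α β a b * mnr α' β' a' b' * α v ∧
    β' (adm L α β α' β' a b a' b' v) = mnr α β a b * mnr α' β' a' b' * β v ∧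
    (α v = 0 → β v = 0 →
      adm L α β α' β' a b a' b' v = (mnr α β a b * mnr α' β' a' b') • L v) := by
  obtain ⟨h1, h2⟩ := h (mnr α β a b • v - α v • (β b • a - β a • b) - β v • (α a • b - α b • a))
    (by simp only [map_sub, map_smul, smul_eq_mul, mnr]; ring)
    (by simp only [map_sub, map_smul, smul_eq_mul, mnr]; ring)
  refine ⟨?_, ?_, fun h3 h4 => ?_⟩
  · rw [adm_apply, map_add, map_smul, h1]
    simp only [map_sub, map_add, map_smul, smul_eq_mul, mnr]
    ring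
  · rw [adm_apply, map_add, map_smul, h2]
    simp only [map_sub, map_add, map_smul, smul_eq_mul, mnr]
    ring
  · rw [adm_apply, h3, h4]
    simp only [zero_smul, sub_zero, add_zero, smul_zero, map_smul, smul_smul, mul_comm]

theorem isPoly_D (p : PP) {f : VV → VV} (hf : ∀ i, IsPoly fun x => f x i) (a : VV) :
    IsPoly fun x => D p (f x) a := IsPoly.D p hf fun _ => IsPoly.const _

theorem isPoly_mnr (p r : PP) {f : VV → VV} (hf : ∀ i, IsPoly fun x => f x i) (a b : VV) :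
    IsPoly fun x => mnr (D p (f x)) (D r (f x)) a b :=
  ((isPoly_D p hf a).mul (isPoly_D r hf b)).sub ((isPoly_D p hf b).mul (isPoly_D r hf a))

namespace Data

variable {S : Data}

theorem exists_local {x0 : VV} (hx0 : OnX S.q S.c x0) (hsm : Smooth S.q S.c x0)
    (hsm' : Smooth S.q' S.c' (S.Φ x0)) :
    ∃ (Dn : VV → ℂ) (N : VV → VV), IsPoly Dn ∧ (∀ i, IsPoly fun x => N x i) ∧ Dn x0 ≠ 0 ∧
      ∀ x, OnX S.q S.c x → Dn x ≠ 0 → ∃ g, S.GG x g ∧ Dn x • g = N x := by
  obtain ⟨d, s, F, hc, hs0⟩ := S.exists_chart hx0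
  obtain ⟨t0, ht0, e0⟩ := hc.2.2 x0 hx0 hs0
  obtain ⟨a', b', k1, k2, k3, k4⟩ := hsm'.smul S.hq' S.hc' ht0
  rw [← e0] at k1 k2 k3 k4
  obtain ⟨a, b, h1, h2, h3, h4⟩ := hsm
  let m : VV → ℂ := fun x => mnr (D S.q x) (D S.c x) a b *
    mnr (D S.q' (ev F x)) (D S.c' (ev F x)) a' b'
  let A : VV → VV →ₗ[ℂ] VV := fun x => adm (dF F x) (D S.q x) (D S.c x) (D S.q' (ev F x))
    (D S.c' (ev F x)) a b a' b'
  have hev := isPoly_ev F IsPoly.coord
  have hm : IsPoly m := (isPoly_mnr _ _ IsPoly.coord a b).mul (isPoly_mnr _ _ hev a' b')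
  have hA : ∀ f : VV → VV, (∀ i, IsPoly fun x => f x i) → ∀ i, IsPoly fun x => A x (f x) i := by
    intro f hf i
    have hq := IsPoly.D S.q IsPoly.coord hf
    have hc := IsPoly.D S.c IsPoly.coord hf
    refine ((isPoly_mnr _ _ hev a' b').mul (IsPoly.D (F i) IsPoly.coord fun j => ?_)).add
      ((isPoly_mnr _ _ IsPoly.coord a b).mul ((hq.mul
        (((isPoly_D _ hev b').mul (IsPoly.const _)).sub
          ((isPoly_D _ hev a').mul (IsPoly.const _)))).add (hc.mul
        (((isPoly_D _ hev a').mul (IsPoly.const _)).sub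
          ((isPoly_D _ hev b').mul (IsPoly.const _))))))
    exact (((isPoly_mnr _ _ IsPoly.coord a b).mul (hf j)).sub (hq.mul
      (((isPoly_D _ IsPoly.coord b).mul (IsPoly.const _)).sub
        ((isPoly_D _ IsPoly.coord a).mul (IsPoly.const _))))).sub (hc.mul
      (((isPoly_D _ IsPoly.coord a).mul (IsPoly.const _)).sub
        ((isPoly_D _ IsPoly.coord b).mul (IsPoly.const _))))
  have hsp : ∀ x, OnX S.q S.c x → eval x s ≠ 0 → ∀ v,
      D S.q' (ev F x) (A x v) = m x * D S.q x v ∧ D S.c' (ev F x) (A x v) = m x * D S.c x v ∧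
      (D S.q x v = 0 → D S.c x v = 0 → A x v = m x • dF F x v) :=
    fun x hx hs => adm_spec _ _ _ _ _ _ _ _ _ fun v hv1 hv2 => hc.tan hx hs hv1 hv2
  have hm0 : m x0 = 1 := by simp [m, mnr, h1, h2, h3, h4, k1, k2, k3, k4]
  refine ⟨fun x => eval x s * m x * LinearMap.det (A x), fun x => (eval x s * m x ^ 6) • A x x,
    ((IsPoly.ev s).mul hm).mul (IsPoly.det fun v => hA _ fun _ => IsPoly.const _),
    fun i => ((IsPoly.ev s).mul (hm.pow 6)).mul (hA _ IsPoly.coord i), ?_, fun x hx hD => ?_⟩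
  · refine mul_ne_zero (mul_ne_zero hs0 (by simp [hm0])) fun h0 => ?_
    obtain ⟨v, hv, hv0⟩ := (Submodule.ne_bot_iff _).1
      (LinearMap.det_eq_zero_iff_ker_ne_bot.1 h0)
    obtain ⟨j1, j2, j3⟩ := hsp x0 hx0 hs0 v
    rw [LinearMap.mem_ker.1 hv, hm0] at j1 j2 j3
    simp only [map_zero, one_mul, one_smul] at j1 j2 j3
    exact hv0 (hc.inj hx0 hs0 j1.symm j2.symm (j3 j1.symm j2.symm).symm)
  · have hs := left_ne_zero_of_mul (left_ne_zero_of_mul hD)
    have hmx := right_ne_zero_of_mul (left_ne_zero_of_mul hD)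
    have hdet := right_ne_zero_of_mul hD
    have hdet' : LinearMap.det ((m x)⁻¹ • A x) = (m x)⁻¹ ^ 6 * LinearMap.det (A x) := by
      rw [LinearMap.det_smul, Module.finrank_fin_fun]
    refine ⟨_, ⟨d, s, F, (m x)⁻¹ • A x, hc, hs, ?_, fun v => ?_, fun v => ?_,
      fun v hv1 hv2 => ?_, rfl⟩, ?_⟩
    · rw [hdet']
      exact mul_ne_zero (pow_ne_zero _ (inv_ne_zero hmx)) hdet
    · rw [LinearMap.smul_apply, map_smul, (hsp x hx hs v).1, smul_eq_mul,
        inv_mul_cancel_left₀ hmx]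
    · rw [LinearMap.smul_apply, map_smul, (hsp x hx hs v).2.1, smul_eq_mul,
        inv_mul_cancel_left₀ hmx]
    · rw [LinearMap.smul_apply, (hsp x hx hs v).2.2 hv1 hv2, smul_smul, inv_mul_cancel₀ hmx,
        one_smul]
    · rw [hdet', LinearMap.smul_apply, smul_smul, smul_smul]
      congr 1
      field_simp

variable (S)

def Good (x : VV) : Prop := OnX S.q S.c x ∧ Smooth S.q S.c x ∧ Smooth S.q' S.c' (S.Φ x)

def Rad (f : PP) : Prop :=
  ∀ r : PP, (∀ x, OnX S.q S.c x → eval x f ≠ 0 → eval x r = 0) → ∃ a b : PP, r = a * S.q + b * S.c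

theorem linearize (B : Finset VV)
    (hB : ∀ x, eval x S.q = 0 → eval x S.c = 0 → ¬S.Good x → ∃ m ∈ B, ∃ t : ℂ, x = t • m)
    (f1 f2 : PP) (n : ℕ) (hf : Hom f1 n)
    (hv : ∀ m ∈ B, ∀ t : ℂ, eval (t • m) f1 = 0 ∧ eval (t • m) f2 = 0) (hr : S.Rad f1)
    (hh : ∀ (N : ℕ) (n1 n2 a b : PP), f2 ^ N * n1 - f1 ^ N * n2 = a * S.q + b * S.c →
      ∃ r a b : PP, n1 - f1 ^ N * r = a * S.q + b * S.c) :
    ∃ T : VV →ₗ[ℂ] VV, ∀ x, OnX S.q S.c x → eval x f1 ≠ 0 → S.GG x (T x) := by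
  have hex : ∀ x, ∃ g, S.Good x → S.GG x g := by
    intro x
    by_cases hx : S.Good x
    · obtain ⟨Dn, N, -, -, h0, h⟩ := exists_local hx.1 hx.2.1 hx.2.2
      obtain ⟨g, hg, -⟩ := h x hx.1 h0
      exact ⟨g, fun _ => hg⟩
    · exact ⟨0, fun h => absurd h hx⟩
  choose G hG using hex
  have hgood : ∀ x, OnX S.q S.c x → eval x f1 ≠ 0 → S.Good x := by
    intro x hx h1
    by_contra h
    obtain ⟨m, hm, t, rfl⟩ := hB x hx.2.1 hx.2.2 h
    exact h1 (hv m hm t).1
  let I : Ideal PP :=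
    { carrier := {r | ∀ i, ∃ p : PP, ∀ x, S.Good x → eval x r * G x i = eval x p}
      zero_mem' := fun i => ⟨0, fun x _ => by simp⟩
      add_mem' := fun {r r'} h h' i => by
        obtain ⟨p, hp⟩ := h i
        obtain ⟨p', hp'⟩ := h' i
        exact ⟨p + p', fun x hx => by simp only [map_add, add_mul, hp x hx, hp' x hx]⟩
      smul_mem' := fun u r h i => by
        obtain ⟨p, hp⟩ := h i
        exact ⟨u * p, fun x hx => by simp only [smul_eq_mul, map_mul, mul_assoc, hp x hx]⟩ }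
  have hI : ∀ f : PP, (∀ m ∈ B, ∀ t : ℂ, eval (t • m) f = 0) → ∃ N, f ^ N ∈ I := by
    intro f hf0
    have : f ∈ I.radical := by
      rw [← vanishingIdeal_zeroLocus_eq_radical (K := ℂ), mem_vanishingIdeal_iff]
      intro x hx
      rw [mem_zeroLocus_iff] at hx
      simp only [aeval_eq_eval] at hx ⊢
      have hq : eval x S.q = 0 := hx _ fun i => ⟨0, fun w hw => by simp [hw.1.2.1]⟩
      have hc : eval x S.c = 0 := hx _ fun i => ⟨0, fun w hw => by simp [hw.1.2.2]⟩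
      have hng : ¬S.Good x := by
        intro hx0
        obtain ⟨Dn, N, ⟨p, hp⟩, hN, h0, h⟩ := exists_local hx0.1 hx0.2.1 hx0.2.2
        have := hx (p * p) fun i => by
          obtain ⟨n, hn⟩ := hN i
          refine ⟨p * n, fun w hw => ?_⟩
          simp only [map_mul, hp, hn]
          by_cases h1 : Dn w = 0
          · simp [h1]
          · obtain ⟨g, hg, e⟩ := h w hw.1 h1
            have := GG.unique hw.1 hw.2.1 one_ne_zero (hG w hw) (by rwa [one_smul])
            rw [one_smul] at this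
            rw [← e, this]
            simp only [Pi.smul_apply, smul_eq_mul]
            ring
        rw [map_mul, hp] at this
        exact mul_ne_zero h0 h0 this
      obtain ⟨m, hm, t, rfl⟩ := hB x hq hc hng
      exact hf0 m hm t
    exact this
  obtain ⟨N1, hN1⟩ := hI f1 fun m hm t => (hv m hm t).1
  obtain ⟨N2, hN2⟩ := hI f2 fun m hm t => (hv m hm t).2
  have g1 : f1 ^ (N1 + N2) ∈ I := by rw [pow_add]; exact I.mul_mem_right _ hN1
  have g2 : f2 ^ (N1 + N2) ∈ I := by rw [pow_add]; exact I.mul_mem_left _ hN2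
  have hrr : ∀ i, ∃ r : PP, ∀ x, OnX S.q S.c x → eval x f1 ≠ 0 → G x i = eval x r := by
    intro i
    obtain ⟨n1, hn1⟩ := g1 i
    obtain ⟨n2, hn2⟩ := g2 i
    obtain ⟨a, b, hab⟩ := hr (f2 ^ (N1 + N2) * n1 - f1 ^ (N1 + N2) * n2) fun x hx h1 => by
      simp only [map_sub, map_mul, ← hn1 x (hgood x hx h1), ← hn2 x (hgood x hx h1)]
      ring
    obtain ⟨r, a, b, hab⟩ := hh _ _ _ _ _ hab
    refine ⟨r, fun x hx h1 => ?_⟩
    have := congrArg (eval x) hab
    simp only [map_sub, map_mul, map_add, hx.2.1, hx.2.2, ← hn1 x (hgood x hx h1), map_pow] at this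
    apply mul_left_cancel₀ (pow_ne_zero (N1 + N2) h1)
    linear_combination this
  choose r hr using hrr
  refine ⟨dF r 0, fun x hx h1 => ?_⟩
  have : dF r 0 x = G x := by
    funext i
    have h2 : ∀ t : ℂ, t ≠ 0 → eval (0 + t • x) (r i) = t * G x i := by
      intro t ht
      have hx' : OnX S.q S.c (t • x) :=
        ⟨smul_ne_zero ht hx.1, by rw [S.hq t, hx.2.1, mul_zero], by rw [S.hc t, hx.2.2, mul_zero]⟩
      have h1' : eval (t • x) f1 ≠ 0 := by rw [hf t]; exact mul_ne_zero (pow_ne_zero _ ht) h1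
      rw [zero_add, ← hr i _ hx' h1', GG.unique hx (hgood x hx h1).2.1 ht (hG x (hgood x hx h1))
        (hG _ (hgood _ hx' h1'))]
      rfl
    have h3 : (fun t : ℂ => eval (0 + t • x) (r i)) = fun t => t * G x i := by
      refine Continuous.ext_on (dense_compl_singleton 0) ?_ (by fun_prop) fun t ht => h2 t ht
      exact continuous_iff_continuousAt.2 fun t =>
        (hasDerivAt_eval (r i) (hasDerivAt_line 0 x t)).continuousAt
    have h4 := hasDerivAt_eval_line (r i) 0 x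
    rw [h3] at h4
    have h5 := h4.unique ((hasDerivAt_id (0 : ℂ)).mul_const (G x i))
    rw [one_mul] at h5
    exact h5
  rw [this]
  exact hG x (hgood x hx h1)

end Data

end Pool.Agent.P.MP_970871_ag
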