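import Pool.Agent.P.MP_970871_ag.Lin2

set_option autoImplicit false

namespace Pool.Agent.P.MP_970871_ag

open MvPolynomial

/-- The Pluecker quadric. -/
noncomputable def qq : PP := X 0 * X 5 - X 1 * X 4 + X 2 * X 3

def Bf (x y : VV) : ℂ :=
  x 0 * y 5 + x 5 * y 0 - x 1 * y 4 - x 4 * y 1 + x 2 * y 3 + x 3 * y 2

theorem eval_qq (x : VV) : eval x qq = x 0 * x 5 - x 1 * x 4 + x 2 * x 3 := by simp [qq]

theorem D_qq (x y : VV) : D qq x y = Bf x y := by
  simp only [qq, D_add, D_sub, D_mul, D_X, eval_X, Bf]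
  ring

theorem hom_qq : Hom qq 2 := by
  intro t x
  simp only [eval_qq, Pi.smul_apply, smul_eq_mul]
  ring

theorem Bf_polar (x y : VV) : Bf x y = eval (x + y) qq - eval x qq - eval y qq := by
  simp only [eval_qq, Bf, Pi.add_apply]
  ring

theorem Bf_nondeg {x : VV} (h : ∀ y, Bf x y = 0) : x = 0 := by
  have h0 := h (Pi.single 0 1)
  have h1 := h (Pi.single 1 1)
  have h2 := h (Pi.single 2 1)
  have h3 := h (Pi.single 3 1)
  have h4 := h (Pi.single 4 1)
  have h5 := h (Pi.single 5 1)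
  simp [Bf] at h0 h1 h2 h3 h4 h5
  funext i
  fin_cases i <;> simp [*]

noncomputable def Bl : LinearMap.BilinForm ℂ VV :=
  LinearMap.mk₂ ℂ Bf (fun x y z => by simp only [Bf, Pi.add_apply]; ring)
    (fun t x y => by simp only [Bf, Pi.smul_apply, smul_eq_mul]; ring)
    (fun x y z => by simp only [Bf, Pi.add_apply]; ring)
    (fun t x y => by simp only [Bf, Pi.smul_apply, smul_eq_mul]; ring)

theorem Bf_comm (x y : VV) : Bf x y = Bf y x := by
  simp only [Bf]
  ring

theorem not_isotropic (α β : VV →ₗ[ℂ] ℂ)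
    (h : ∀ v w, α v = 0 → β v = 0 → α w = 0 → β w = 0 → Bf v w = 0) : False := by
  let W := LinearMap.ker (α.prod β)
  have h1 : 4 ≤ Module.finrank ℂ W := by
    have := LinearMap.finrank_range_add_finrank_ker (α.prod β)
    have h2 := Submodule.finrank_le (LinearMap.range (α.prod β))
    simp only [Module.finrank_prod, Module.finrank_self, Module.finrank_fin_fun] at this h2
    simp only [W]
    omega
  have hn : Bl.Nondegenerate :=
    ⟨fun x hx => Bf_nondeg hx, fun x hx => Bf_nondeg fun y => by rw [Bf_comm]; exact hx y⟩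
  have h2 := LinearMap.BilinForm.finrank_orthogonal hn W
  have h3 : W ≤ Bl.orthogonal W := by
    intro v hv w hw
    have hv' := Prod.mk_eq_zero.1 (LinearMap.mem_ker.1 hv)
    have hw' := Prod.mk_eq_zero.1 (LinearMap.mem_ker.1 hw)
    exact h w v hw'.1 hw'.2 hv'.1 hv'.2
  have h4 := Submodule.finrank_mono h3
  simp only [Module.finrank_fin_fun] at h2
  omega

namespace Data

theorem final (S : Data) (hq : S.q = qq) (hq' : S.q' = qq) (f : PP) (hr : S.Rad f)
    (T : VV →ₗ[ℂ] VV) (hT : ∀ x, OnX S.q S.c x → eval x f ≠ 0 → S.GG x (T x)) :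
    ∃ α : ℂ, α ≠ 0 ∧ (∀ x y, Bf (T x) (T y) = α * Bf x y) ∧
      ∀ x, OnX S.q S.c x → (∃ κ : ℂ, ∀ v, D S.c x v = κ * D S.q x v) →
        OnX S.q' S.c' (T x) ∧ ¬Smooth S.q' S.c' (T x) := by
  obtain ⟨p1, hp1⟩ := IsPoly.comp S.q' (IsPoly.lin T)
  obtain ⟨p2, hp2⟩ := IsPoly.comp S.c' (IsPoly.lin T)
  beta_reduce at hp1 hp2
  obtain ⟨a1, b1, e1⟩ := hr p1 fun x hx h => by
    obtain ⟨t, -, e⟩ := (hT x hx h).par hx
    simp only [hp1, e, S.hq' t, (S.hΦ x hx).2.1, mul_zero]
  obtain ⟨a2, b2, e2⟩ := hr p2 fun x hx h => by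
    obtain ⟨t, -, e⟩ := (hT x hx h).par hx
    simp only [hp2, e, S.hc' t, (S.hΦ x hx).2.2, mul_zero]
  have hα : ∀ x, eval (T x) qq = eval 0 a1 * eval x qq := by
    intro x
    have h3 : (fun _ : ℂ => eval (T x) qq) = fun t : ℂ =>
        eval (0 + t • x) a1 * eval x qq + t * eval (0 + t • x) b1 * eval x S.c := by
      have c1 : ∀ p : PP, Continuous fun t : ℂ => eval (0 + t • x) p := fun p =>
        continuous_iff_continuousAt.2 fun t =>
          (hasDerivAt_eval p (hasDerivAt_line 0 x t)).continuousAt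
      refine Continuous.ext_on (dense_compl_singleton 0) continuous_const
        (((c1 a1).mul continuous_const).add ((continuous_id.mul (c1 b1)).mul continuous_const))
        fun t ht => ?_
      have := congrArg (eval (t • x)) e1
      simp only [hp1, map_smul, S.hq' t, map_add, map_mul, S.hq t, S.hc t] at this
      rw [hq, hq'] at this
      simp only [zero_add]
      apply mul_left_cancel₀ (pow_ne_zero 2 ht)
      linear_combination this
    simpa using congrFun h3 0
  have hB : ∀ x y, Bf (T x) (T y) = eval 0 a1 * Bf x y := by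
    intro x y
    rw [Bf_polar, Bf_polar, ← map_add, hα, hα, hα]
    ring
  have hα0 : eval 0 a1 ≠ 0 := by
    intro h0
    obtain ⟨x, hx, hf⟩ : ∃ x, OnX S.q S.c x ∧ eval x f ≠ 0 := by
      by_contra hcon
      obtain ⟨a, b, e⟩ := hr 1 fun x hx hf => absurd ⟨x, hx, hf⟩ hcon
      have := congrArg (eval 0) e
      have z1 := S.hq 0 0
      have z2 := S.hc 0 0
      simp only [smul_zero, ne_eq, OfNat.ofNat_ne_zero, not_false_eq_true, zero_pow,
        zero_mul] at z1 z2
      rw [map_one, map_add, map_mul, map_mul, z1, z2, mul_zero, mul_zero, add_zero] at this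
      exact one_ne_zero this
    obtain ⟨d, s, F, A, hc, hs, hA, j1, j2, j3, j4⟩ := hT x hx hf
    have hy := hc.ne hx hs
    obtain ⟨κ, hκ, eκ⟩ : ∃ κ : ℂ, κ ≠ 0 ∧ T x = κ • ev F x :=
      ⟨(LinearMap.det A)⁻¹ * ((d + 1 : ℕ) : ℂ),
        mul_ne_zero (inv_ne_zero hA) (Nat.cast_ne_zero.2 (Nat.succ_ne_zero d)), by
        rw [j4, j3 x (self_tan hx).1 (self_tan hx).2, dF_self hc.2.1, smul_smul]⟩
    have hyy : Bf (ev F x) (ev F x) = 0 := by
      obtain ⟨t, -, e⟩ := hc.2.2 x hx hs
      rw [← D_qq, hom_qq.euler, e, hom_qq t, ← hq', (S.hΦ x hx).2.1]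
      simp
    have key : ∀ v, D S.q x v = 0 → D S.c x v = 0 → ∃ k : ℂ, T v = κ • A v + k • ev F x := by
      intro v hv1 hv2
      have hd : HasDerivAt (fun e : ℂ => T (x + e • v)) (T v) 0 := by
        simpa using hasDerivAt_line (T x) (T v) 0
      have hp := S.par (f := fun w => ev F w) (g := fun w => T w)
        (s := fun w => eval w s * eval w f) (isPoly_ev F IsPoly.coord) (IsPoly.lin T)
        ((IsPoly.ev s).mul (IsPoly.ev f)) (fun w hw hsw => by
          obtain ⟨t1, -, e1⟩ := hc.2.2 w hw (left_ne_zero_of_mul hsw)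
          obtain ⟨t2, -, e2⟩ := (hT w hw (right_ne_zero_of_mul hsw)).par hw
          exact ⟨_, t1, t2, e1, e2⟩) hx (mul_ne_zero hs hf) hv1 hv2 (hasDerivAt_ev_line F x v) hd
      obtain ⟨k, hk⟩ := par_of (a := T v - κ • dF F x v) hy fun i j => by
        have := hp i j
        simp only [eκ, Pi.smul_apply, smul_eq_mul, Pi.sub_apply] at this ⊢
        linear_combination -this
      exact ⟨k, by rw [j3 v hv1 hv2, ← hk, add_sub_cancel]⟩
    have hsurj : Function.Surjective A := (LinearMap.equivOfDetNeZero A hA).surjective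
    refine not_isotropic (D S.q' (ev F x)) (D S.c' (ev F x)) fun v w => ?_
    obtain ⟨v, rfl⟩ := hsurj v
    obtain ⟨w, rfl⟩ := hsurj w
    intro v1 v2 w1 w2
    obtain ⟨k, hk⟩ := key v (j1 v ▸ v1) (j2 v ▸ v2)
    obtain ⟨k', hk'⟩ := key w (j1 w ▸ w1) (j2 w ▸ w2)
    have := hB v w
    rw [h0, hk, hk'] at this
    rw [hq', D_qq] at v1 w1
    apply mul_left_cancel₀ (pow_ne_zero 2 hκ)
    simp only [Bf, Pi.add_apply, Pi.smul_apply, smul_eq_mul] at this v1 w1 hyy ⊢
    linear_combination this - κ * k' * v1 - κ * k * w1 - k * k' * hyy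
  have hinj : Function.Injective T := by
    rw [← LinearMap.ker_eq_bot, LinearMap.ker_eq_bot']
    intro v hv
    refine Bf_nondeg fun y => ?_
    have := hB v y
    rw [hv] at this
    refine (mul_eq_zero.1 (this.symm.trans ?_)).resolve_left hα0
    simp [Bf]
  have hsurj := LinearMap.injective_iff_surjective.1 hinj
  refine ⟨_, hα0, hB, fun x hx ⟨κ, hκ⟩ => ⟨⟨fun h => hx.1 (hinj (by rw [h, map_zero])), ?_, ?_⟩, ?_⟩⟩
  · rw [← hp1, e1]
    simp [hx.2.1, hx.2.2]
  · rw [← hp2, e2]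
    simp [hx.2.1, hx.2.2]
  · rintro ⟨a, b, h1, h2, h3, h4⟩
    obtain ⟨a, rfl⟩ := hsurj a
    obtain ⟨b, rfl⟩ := hsurj b
    have key : ∀ (p r : PP), (∀ x, eval x p = eval (T x) r) → ∀ v, D r (T x) (T v) = D p x v := by
      intro p r h v
      have h5 := hasDerivAt_eval_line p x v
      simp only [h, map_add, map_smul] at h5
      exact (hasDerivAt_eval_line r (T x) (T v)).unique h5
    rw [key p1 _ hp1, e1] at h1 h3
    rw [key p2 _ hp2, e2] at h2 h4
    simp only [D_add, D_mul, hx.2.1, hx.2.2, hκ] at h1 h2 h3 h4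
    have : (1 : ℂ) = 0 := by
      linear_combination (-1 : ℂ) * h1 - (eval x a1 * D S.q x a + eval x b1 * (κ * D S.q x a)) * h4 +
        (eval x a1 * D S.q x b + eval x b1 * (κ * D S.q x b)) * h2
    exact one_ne_zero this

end Data

end Pool.Agent.P.MP_970871_ag
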