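import Pool.Agent.P.MP_970871_ag.Ex

set_option autoImplicit false

namespace Pool.Agent.P.MP_970871_ag

open MvPolynomial Matrix

def LA : Net := ![!![-2, 3, -1, -4; 3, -2, 1, 5; -1, 1, 2, 0; -4, 5, 0, -6], !![0, 4, -1, -1; 4, 2, 0, 3; -1, 0, 4, 1; -1, 3, 1, -2], !![4, 2, -3, 3; 2, -6, -7, -2; -3, -7, 2, -2; 3, -2, -2, 2]]

def gg : Matrix (Fin 4) (Fin 4) ℂ := !![0, 1, 0, 0; 1, 0, 0, 1; 0, 0, 1, 1; 1, -1, -1, 1]

def gi : Matrix (Fin 4) (Fin 4) ℂ := !![-1, 2, -1, -1; 1, 0, 0, 0; -1, 1, 0, -1; 1, -1, 1, 1]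

def PA : Fin 8 → V4 := fun i => gi.mulVecLin (P0 i)

theorem bil_LA (k : Fin 3) (x y : V4) :
    bil (LA k) x y = bil (L0 k) (gg.mulVecLin x) (gg.mulVecLin y) := by
  fin_cases k <;>
    simp [bil, LA, L0, zd, gg, mulVec, dotProduct, Fin.sum_univ_four] <;> ring

theorem niceA : Nice LA PA := by
  refine nice0.transfer gg.mulVecLin gi.mulVecLin (fun x => ?_) (fun x => ?_) (fun k => ?_) bil_LA
  · funext i
    fin_cases i <;> simp [gg, gi, mulVec, dotProduct, Fin.sum_univ_four] <;> ring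
  · funext i
    fin_cases i <;> simp [gg, gi, mulVec, dotProduct, Fin.sum_univ_four] <;> ring
  · fin_cases k <;> ext i j <;> fin_cases i <;> fin_cases j <;> rfl

def ZA : Fin 8 → Fin 4 → ℤ := ![![-1, 1, -1, 1], ![2, 0, 1, -1], ![-1, 0, 0, 1], ![-1, 0, -1, 1], ![-1, 1, -1, 2], ![-9, 1, -7, 5], ![-3, 1, 1, 1], ![9, 1, 3, -7]]

def ZB : Fin 8 → Fin 4 → ℤ := ![![1, 0, 0, 0], ![0, 1, 0, 0], ![0, 0, 1, 0], ![0, 0, 0, 1], ![1, 1, 1, 1], ![4, -1, -2, 2], ![4, -2, 2, -1], ![4, 2, -1, -2]]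

theorem PA_eq : ∀ i, PA i = fun j => (ZA i j : ℂ) := by
  refine fin8 ?_ ?_ ?_ ?_ ?_ ?_ ?_ ?_ <;> funext j <;> fin_cases j <;>
    simp [PA, P0, ZA, gi, mulVec, dotProduct, Fin.sum_univ_four] <;> norm_num

theorem PB_eq : ∀ i, PB i = fun j => (ZB i j : ℂ) := by
  refine fin8 ?_ ?_ ?_ ?_ ?_ ?_ ?_ ?_ <;> funext j <;> fin_cases j <;> simp [PB, ZB]

def plZ (u v : Fin 4 → ℤ) : Fin 6 → ℤ :=
  ![u 0 * v 1 - u 1 * v 0, u 0 * v 2 - u 2 * v 0, u 0 * v 3 - u 3 * v 0,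
    u 1 * v 2 - u 2 * v 1, u 1 * v 3 - u 3 * v 1, u 2 * v 3 - u 3 * v 2]

def BZ (x y : Fin 6 → ℤ) : ℤ :=
  x 0 * y 5 + x 5 * y 0 - x 1 * y 4 - x 4 * y 1 + x 2 * y 3 + x 3 * y 2

theorem plucker_cast (u v : Fin 4 → ℤ) :
    plucker (fun j => (u j : ℂ)) (fun j => (v j : ℂ)) = fun j => (plZ u v j : ℂ) := by
  funext j
  fin_cases j <;> simp [plucker, plZ]

theorem Bf_cast (x y : Fin 6 → ℤ) :
    Bf (fun j => (x j : ℂ)) (fun j => (y j : ℂ)) = (BZ x y : ℂ) := by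
  simp [Bf, BZ]

theorem plucker_ne (Z : Fin 8 → Fin 4 → ℤ) (h : ∀ i j, i ≠ j → ∃ m, plZ (Z i) (Z j) m ≠ 0)
    (i j : Fin 8) (hij : i ≠ j) :
    plucker (fun m => (Z i m : ℂ)) (fun m => (Z j m : ℂ)) ≠ 0 := by
  obtain ⟨m, hm⟩ := h i j hij
  rw [plucker_cast]
  intro h0
  exact hm (Int.cast_eq_zero.1 (congrFun h0 m))

theorem tabB : ∀ i j k l : Fin 8, BZ (plZ (ZB i) (ZB j)) (plZ (ZB k) (ZB l)) = 0 ∨
    BZ (plZ (ZB i) (ZB j)) (plZ (ZB k) (ZB l)) % 7 ≠ 0 := by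
  decide +kernel

noncomputable def dd : MvPolynomial (Fin 3) ℂ := -C 3 * X 0 ^ 4 - C 4 * X 0 ^ 3 * X 1 + C 4 * X 0 ^ 3 * X 2 + C 98 * X 0 ^ 2 * X 1 ^ 2 + C 104 * X 0 ^ 2 * X 1 * X 2 + C 98 * X 0 ^ 2 * X 2 ^ 2 + C 228 * X 0 * X 1 ^ 3 + C 244 * X 0 * X 1 ^ 2 * X 2 - C 244 * X 0 * X 1 * X 2 ^ 2 - C 228 * X 0 * X 2 ^ 3 + C 81 * X 1 ^ 4 + C 48 * X 1 ^ 3 * X 2 - C 114 * X 1 ^ 2 * X 2 ^ 2 + C 48 * X 1 * X 2 ^ 3 + C 81 * X 2 ^ 4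

theorem discA : disc LA = dd := by
  apply MvPolynomial.funext
  intro l
  rw [eval_disc, det_four]
  simp [LA, dd]
  ring

theorem discB : disc LB = dd := by
  apply MvPolynomial.funext
  intro l
  rw [eval_disc, det_four]
  simp [LB, zd, dd]
  ring

theorem dd_smooth : dd ≠ 0 ∧ ∀ l : Fin 3 → ℂ, l ≠ 0 → eval l dd = 0 → ∃ k, eval l (pderiv k dd) ≠ 0 := by
  refine ⟨fun h => ?_, fun l hl _ => ?_⟩
  · have := congrArg (eval ![1, 0, 0]) h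
    simp [dd] at this
  by_contra hcon
  push Not at hcon
  have e0 : -12 * l 0 ^ 3 - 12 * l 0 ^ 2 * l 1 + 12 * l 0 ^ 2 * l 2 + 196 * l 0 * l 1 ^ 2 + 208 * l 0 * l 1 * l 2 + 196 * l 0 * l 2 ^ 2 + 228 * l 1 ^ 3 + 244 * l 1 ^ 2 * l 2 - 244 * l 1 * l 2 ^ 2 - 228 * l 2 ^ 3 = 0 := by
    rw [← hcon 0]
    simp [dd, pderiv_X]
    ring
  have e1 : -4 * l 0 ^ 3 + 196 * l 0 ^ 2 * l 1 + 104 * l 0 ^ 2 * l 2 + 684 * l 0 * l 1 ^ 2 + 488 * l 0 * l 1 * l 2 - 244 * l 0 * l 2 ^ 2 + 324 * l 1 ^ 3 + 144 * l 1 ^ 2 * l 2 - 228 * l 1 * l 2 ^ 2 + 48 * l 2 ^ 3 = 0 := by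
    rw [← hcon 1]
    simp [dd, pderiv_X]
    ring
  have e2 : 4 * l 0 ^ 3 + 104 * l 0 ^ 2 * l 1 + 196 * l 0 ^ 2 * l 2 + 244 * l 0 * l 1 ^ 2 - 488 * l 0 * l 1 * l 2 - 684 * l 0 * l 2 ^ 2 + 48 * l 1 ^ 3 - 228 * l 1 ^ 2 * l 2 + 144 * l 1 * l 2 ^ 2 + 324 * l 2 ^ 3 = 0 := by
    rw [← hcon 2]
    simp [dd, pderiv_X]
    ring
  exact hl (vec3 _ (pow_eq_zero_iff (n := 7) (by norm_num) |>.1 (by linear_combination (-(8504269093 / 262682702100) * l 0 ^ 4 - (97159133731 / 175121801400) * l 0 ^ 3 * l 1 + (42739544429 / 87560900700) * l 0 ^ 3 * l 2 - (53978221373 / 1400974411200) * l 0 ^ 2 * l 1 ^ 2 - (49309387971 / 233495735200) * l 0 ^ 2 * l 1 * l 2 - (65299100511 / 466991470400) * l 0 ^ 2 * l 2 ^ 2 + (52223035421 / 58373933800) * l 0 * l 1 ^ 3 - (15324188889 / 29186966900) * l 0 * l 1 ^ 2 * l 2 + (1254526249 / 11674786760) * l 0 * l 1 * l 2 ^ 2 + (1845549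 / 4398940) * l 1 ^ 4 - (5013087 / 21994700) * l 1 ^ 3 * l 2 + (222513 / 5498675) * l 1 ^ 2 * l 2 ^ 2) * e0 + (-(307410708811 / 4202923233600) * l 0 ^ 4 + (866848854323 / 4202923233600) * l 0 ^ 3 * l 1 + (56400502433 / 140097441120) * l 0 ^ 3 * l 2 + (483653877449 / 840584646720) * l 0 ^ 2 * l 1 ^ 2 - (19281867581 / 17961210400) * l 0 ^ 2 * l 1 * l 2 - (30593027973 / 66713067200) * l 0 ^ 2 * l 2 ^ 2 - (21258044491 / 87560900700) * l 0 * l 1 ^ 3 - (70382228047 / 700487205600) * l 0 * l 1 ^ 2 * l 2 + (23835998731 / 46699147040) * l 0 * l 1 * l 2 ^ 2 - (74171 / 241700) * l 1 ^ 4 + (4363 / 120850) * l 1 ^ 3 * l 2 + (4227747 / 21994700) * l 1 ^ 2 * l 2 ^ 2) * e1 + ((13404607325 / 168116929344) * l 0 ^ 4 - (46670930071 / 1050730808400) * l 0 ^ 3 * l 1 - (57750385603 / 1400974411200) * l 0 ^ 3 * l 2 - (1297419121073 / 1400974411200) * l 0 ^ 2 * l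 1 ^ 2 - (35577765437 / 420292323360) * l 0 ^ 2 * l 1 * l 2 - (2845023159 / 93398294080) * l 0 ^ 2 * l 2 ^ 2 - (81780570197 / 233495735200) * l 0 * l 1 ^ 3 + (48052803983 / 233495735200) * l 0 * l 1 ^ 2 * l 2 + (431937 / 5498675) * l 1 ^ 4) * e2))
    (pow_eq_zero_iff (n := 7) (by norm_num) |>.1 (by linear_combination (-(408095831 / 831347452800) * l 0 ^ 4 + (523921106297 / 75652618204800) * l 0 ^ 3 * l 1 - (180895461311 / 75652618204800) * l 0 ^ 3 * l 2 + (15872089531 / 2701879221600) * l 0 ^ 2 * l 1 ^ 2 - (1773492990179 / 75652618204800) * l 0 ^ 2 * l 1 * l 2 + (1564978697 / 157609621260) * l 0 ^ 2 * l 2 ^ 2 - (320970268613 / 6304384850400) * l 0 * l 1 ^ 3 - (1588687099 / 72050112576) * l 0 * l 1 ^ 2 * l 2 - (2238014027 / 3152192425200) * l 0 * l 1 * l 2 ^ 2 - (102877 / 4060560) * l 1 ^ 4 + (953014 / 49488075) * l 1 ^ 3 * l 2 - (673501 /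 197952300) * l 1 ^ 2 * l 2 ^ 2) * e0 + ((408095831 / 415673726400) * l 0 ^ 4 + (369592524949 / 75652618204800) * l 0 ^ 3 * l 1 + (180895461311 / 37826309102400) * l 0 ^ 3 * l 2 - (32345041921 / 75652618204800) * l 0 ^ 2 * l 1 ^ 2 - (538349244997 / 25217539401600) * l 0 ^ 2 * l 1 * l 2 - (1564978697 / 78804810630) * l 0 ^ 2 * l 2 ^ 2 + (38836420979 / 7565261820480) * l 0 * l 1 ^ 3 + (3301864401203 / 75652618204800) * l 0 * l 1 ^ 2 * l 2 - (42522266513 / 12608769700800) * l 0 * l 1 * l 2 ^ 2 + (24571583 / 1187713800) * l 1 ^ 4 - (3512437 / 1357387200) * l 1 ^ 3 * l 2 - (12796519 / 791809200) * l 1 ^ 2 * l 2 ^ 2) * e1 + (-(408095831 / 831347452800) * l 0 ^ 4 - (24111377221 / 2161503377280) * l 0 ^ 3 * l 1 - (180895461311 / 75652618204800) * l 0 ^ 3 * l 2 - (91034563709 / 3602505628800) * l 0 ^ 2 * l 1 ^ 2 - (284824801771 / 10807516886400) * l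 0 ^ 2 * l 1 * l 2 + (1564978697 / 157609621260) * l 0 ^ 2 * l 2 ^ 2 + (15592007021 / 1939810723200) * l 0 * l 1 ^ 3 - (331006837459 / 9456577275600) * l 0 * l 1 ^ 2 * l 2 + (1618297 / 1055745600) * l 1 ^ 4) * e2))
    (pow_eq_zero_iff (n := 7) (by norm_num) |>.1 (by linear_combination ((12310223143207 / 6827648792983200) * l 0 ^ 4 - (253222538326937 / 3413824396491600) * l 0 ^ 3 * l 1 - (471449476785601 / 13655297585966400) * l 0 ^ 3 * l 2 - (45008973605101 / 195075679799520) * l 0 ^ 2 * l 1 ^ 2 - (187019223555757 / 1365529758596640) * l 0 ^ 2 * l 1 * l 2 + (6463942628551 / 87533958884400) * l 0 ^ 2 * l 2 ^ 2 - (2155109891203 / 71121341593575) * l 0 * l 1 ^ 3 - (17777308972387 / 216750755332800) * l 0 * l 1 ^ 2 * l 2 + (4222550987663 / 1137941465497200) * l 0 * l 1 * l 2 ^ 2 - (49 / 12996) * l 0 * l 2 ^ 3 + (54100187 / 1465862160) * l 1 ^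 4 - (5910283289 / 285843121200) * l 1 ^ 3 * l 2 - (1329388 / 313424475) * l 1 ^ 2 * l 2 ^ 2 + (61 / 12996) * l 1 * l 2 ^ 3 - (1 / 228) * l 2 ^ 4) * e0 + (-(1342551545809 / 390151359599040) * l 0 ^ 4 + (29547304290359 / 910353172397760) * l 0 ^ 3 * l 1 + (32998456742393 / 426728049561450) * l 0 ^ 3 * l 2 + (2828313626167 / 18428201870400) * l 0 ^ 2 * l 1 ^ 2 - (1576346455864597 / 13655297585966400) * l 0 ^ 2 * l 1 * l 2 - (251636654810101 / 1517255287329600) * l 0 ^ 2 * l 2 ^ 2 + (871847376819007 / 13655297585966400) * l 0 * l 1 ^ 3 + (120256066157023 / 3413824396491600) * l 0 * l 1 ^ 2 * l 2 - (7741049471003 / 4551765861988800) * l 0 * l 1 * l 2 ^ 2 - (596676127 / 22566562200) * l 1 ^ 4 + (93623287 / 127041387200) * l 1 ^ 3 * l 2 + (11151368101 / 428764681800) * l 1 ^ 2 * l 2 ^ 2) * e1 + ((74437769407 / 37826309102400) * l 0 ^ 4 - (211864395037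 / 3152192425200) * l 0 ^ 3 * l 1 - (104326662013 / 2701879221600) * l 0 ^ 3 * l 2 - (235438413211 / 1050730808400) * l 0 ^ 2 * l 1 ^ 2 - (13277919269 / 75052200600) * l 0 ^ 2 * l 1 * l 2 + (266738411 / 3377349027) * l 0 ^ 2 * l 2 ^ 2 - (121450352971 / 1576096212600) * l 0 * l 1 ^ 3 - (99173159903 / 2701879221600) * l 0 * l 1 ^ 2 * l 2 + (477779 / 150820800) * l 1 ^ 4) * e2)))

theorem regA : IsRegularNet LA := by
  refine niceA.regular ?_ (fun i j h => ?_) (by rw [discA]; exact dd_smooth)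
  · simp only [PA_eq]
    refine fin8 ?_ ?_ ?_ ?_ ?_ ?_ ?_ ?_ <;> intro k <;> fin_cases k <;>
      simp [bil, LA, ZA, mulVec, dotProduct, Fin.sum_univ_four] <;> norm_num
  · rw [PA_eq, PA_eq]
    exact plucker_ne ZA (by decide +kernel) i j h

theorem regB : IsRegularNet LB := by
  refine niceB.regular ?_ (fun i j h => ?_) (by rw [discB]; exact dd_smooth)
  · refine fin8 ?_ ?_ ?_ ?_ ?_ ?_ ?_ ?_ <;> intro k <;> fin_cases k <;>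
      simp [LB, PB, bil_zd] <;> norm_num
  · rw [PB_eq, PB_eq]
    exact plucker_ne ZB (by decide +kernel) i j h

noncomputable def KA : Cub :=
  ⟨28, 14, 10 * X 0 - 18 * X 1 + 19 * X 2 - 93 * X 3,
    -X 0 ^ 2 + 4 * X 0 * X 1 - 43 * X 0 * X 2 - 65 * X 0 * X 3 + 5 * X 1 ^ 2 - 49 * X 1 * X 2 + 13 * X 1 * X 3 - 13 * X 2 ^ 2 - 76 * X 2 * X 3 + 77 * X 3 ^ 2,
    -7 * X 0 ^ 3 - 14 * X 0 ^ 2 * X 1 - 5 * X 0 ^ 2 * X 2 - 4 * X 0 ^ 2 * X 3 - 7 * X 0 * X 1 ^ 2 + 4 * X 0 * X 1 * X 2 - 12 * X 0 * X 1 * X 3 + 10 * X 0 * X 2 ^ 2 + 98 * X 0 * X 2 * X 3 + 84 * X 0 * X 3 ^ 2 + 12 * X 1 ^ 2 * X 2 - 5 * X 1 ^ 2 * X 3 - 29 * X 1 * X 2 ^ 2 + 36 * X 1 * X 2 * X 3 + 5 * X 1 * X 3 ^ 2 - 28 * X 2 ^ 3 - 43 * X 2 ^ 2 * X 3 + 29 * X 2 * X 3 ^ 2 - 12 * X 3 ^ 3,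
    28 * X 0 ^ 2 + 35 * X 0 * X 1 + 16 * X 0 * X 2 + 20 * X 0 * X 3 + 7 * X 1 ^ 2 - 8 * X 1 * X 2 + 8 * X 1 * X 3 - 38 * X 2 ^ 2 - 83 * X 2 * X 3 - 29 * X 3 ^ 2,
    -35 * X 0 - 21 * X 1 - 11 * X 2 - 15 * X 3⟩

def cfA (x : VV) : ℂ := 28 * x 0 ^ 3 + 10 * x 0 ^ 2 * x 1 - 18 * x 0 ^ 2 * x 2 + 19 * x 0 ^ 2 * x 3 - 93 * x 0 ^ 2 * x 4 - x 0 * x 1 ^ 2 + 4 * x 0 * x 1 * x 2 - 43 * x 0 * x 1 * x 3 - 65 * x 0 * x 1 * x 4 + 5 * x 0 * x 2 ^ 2 - 49 * x 0 * x 2 * x 3 + 13 * x 0 * x 2 * x 4 - 13 * x 0 * x 3 ^ 2 - 76 * x 0 * x 3 * x 4 + 77 * x 0 * x 4 ^ 2 - 7 * x 1 ^ 3 - 14 * x 1 ^ 2 * x 2 - 5 * x 1 ^ 2 * x 3 - 4 * x 1 ^ 2 * x 4 + 28 * x 1 ^ 2 * x 5 - 7 * x 1 * x 2 ^ 2 + 4 * x 1 * x 2 * x 3 - 12 * x 1 * x 2 * x 4 + 35 * x 1 * x 2 * x 5 + 10 * x 1 * x 3 ^ 2 + 98 * x 1 * x 3 * x 4 + 16 * x 1 * x 3 * x 5 + 84 * x 1 * x 4 ^ 2 + 20 * x 1 * x 4 * x 5 - 35 * x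 1 * x 5 ^ 2 + 12 * x 2 ^ 2 * x 3 - 5 * x 2 ^ 2 * x 4 + 7 * x 2 ^ 2 * x 5 - 29 * x 2 * x 3 ^ 2 + 36 * x 2 * x 3 * x 4 - 8 * x 2 * x 3 * x 5 + 5 * x 2 * x 4 ^ 2 + 8 * x 2 * x 4 * x 5 - 21 * x 2 * x 5 ^ 2 - 28 * x 3 ^ 3 - 43 * x 3 ^ 2 * x 4 - 38 * x 3 ^ 2 * x 5 + 29 * x 3 * x 4 ^ 2 - 83 * x 3 * x 4 * x 5 - 11 * x 3 * x 5 ^ 2 - 12 * x 4 ^ 3 - 29 * x 4 ^ 2 * x 5 - 15 * x 4 * x 5 ^ 2 + 14 * x 5 ^ 3

theorem eval_KA (x : VV) : eval x KA.c = cfA x := by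
  have h0 : mid x 0 = x 1 := rfl
  have h1 : mid x 1 = x 2 := rfl
  have h2 : mid x 2 = x 3 := rfl
  have h3 : mid x 3 = x 4 := rfl
  simp only [Cub.c, map_add, map_mul, map_pow, eval_C, eval_X, eval_io]
  simp only [KA, map_add, map_mul, map_pow, map_sub, map_neg, eval_X, map_ofNat, h0, h1, h2, h3, cfA]
  ring

theorem hcA (u v : V4) : 4 * eval (plucker u v) KA.c = DD LA u v := by
  rw [eval_KA]
  simp [cfA, plucker, DD, det3, bil, LA, mulVec, dotProduct, Fin.sum_univ_four]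
  ring

theorem homA : Hom KA.c 3 := by
  intro t x
  simp only [eval_KA, cfA, Pi.smul_apply, smul_eq_mul]
  ring

noncomputable def cB : PP := -13 * X 0 * X 1 * X 3 - 9 * X 0 * X 1 * X 4 - 3 * X 0 * X 2 * X 3 + 13 * X 0 * X 2 * X 4 - 3 * X 1 ^ 2 * X 4 + 12 * X 1 * X 2 * X 3 + 12 * X 1 * X 2 * X 4 - 13 * X 1 * X 2 * X 5 + 24 * X 1 * X 3 * X 4 + 6 * X 1 * X 4 ^ 2 - 18 * X 1 * X 4 * X 5 - 9 * X 2 ^ 2 * X 3 - 18 * X 2 * X 3 ^ 2 - 24 * X 2 * X 3 * X 4 - 6 * X 2 * X 3 * X 5 + 52 * X 3 * X 4 * X 5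

theorem hcB (u v : V4) : 4 * eval (plucker u v) cB = DD LB u v := by
  simp [cB, plucker, DD, det3, bil_zd, LB]
  ring

theorem homB : Hom cB 3 := by
  intro t x
  simp [cB]
  ring

theorem sepA : (KA.pol.map (eval ![-1, 0, 1, -1])).Separable := by
  have : KA.pol.map (eval ![-1, 0, 1, -1]) = Polynomial.C 14 * Polynomial.X ^ 0 + Polynomial.C 39 * Polynomial.X ^ 1 + Polynomial.C 48 * Polynomial.X ^ 2 + Polynomial.C 66 * Polynomial.X ^ 3 + Polynomial.C 117 * Polynomial.X ^ 4 + Polynomial.C 102 * Polynomial.X ^ 5 + Polynomial.C 28 * Polynomial.X ^ 6 := by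
    rw [Cub.pol_map]
    apply Polynomial.funext
    intro y
    simp [KA, QQ]
    ring
  rw [this]
  refine ⟨Polynomial.C (8105593822 / 36828856975) * Polynomial.X ^ 0 + Polynomial.C (-(6306426744 / 36828856975)) * Polynomial.X ^ 1 + Polynomial.C (24568450708 / 36828856975) * Polynomial.X ^ 2 + Polynomial.C (10378083336 / 36828856975) * Polynomial.X ^ 3 + Polynomial.C (-(4329500896 / 36828856975)) * Polynomial.X ^ 4,
    Polynomial.C (-(5896112041 / 110486570925)) * Polynomial.X ^ 0 + Polynomial.C (-(602347682 / 22097314185)) * Polynomial.X ^ 1 + Polynomial.C (-(39926834 / 36828856975)) * Polynomial.X ^ 2 + Polynomial.C (-(5469801624 / 36828856975)) * Polynomial.X ^ 3 + Polynomial.C (-(3874728896 / 110486570925)) * Polynomial.X ^ 4 + Polynomial.C (2164750448 / 110486570925) * Polynomial.X ^ 5, ?_⟩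
  apply Polynomial.funext
  intro y
  simp
  ring

theorem node_a : OnX qq KA.c ![-2, 1, -1, 1, -1, 0] ∧
    ∃ κ : ℂ, ∀ v, D KA.c ![-2, 1, -1, 1, -1, 0] v = κ * D qq ![-2, 1, -1, 1, -1, 0] v := by
  refine ⟨⟨fun h => by simpa using congrFun h 0, by simp [eval_qq] <;> norm_num, by simp [eval_KA, cfA] <;> norm_num⟩,
    (-14), fun v => D_of_cubic _ _ _ _ ((cfA (![-2, 1, -1, 1, -1, 0] + v) + cfA (![-2, 1, -1, 1, -1, 0] - v)) / 2) (cfA v) fun e => ?_⟩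
  simp only [eval_KA, cfA, D_qq, Bf, Pi.add_apply, Pi.sub_apply, Pi.smul_apply, smul_eq_mul,
    Matrix.cons_val]
  ring

theorem node_b : OnX qq KA.c ![-6, -30, 6, 8, -4, -12] ∧
    ∃ κ : ℂ, ∀ v, D KA.c ![-6, -30, 6, 8, -4, -12] v = κ * D qq ![-6, -30, 6, 8, -4, -12] v := by
  refine ⟨⟨fun h => by simpa using congrFun h 0, by simp [eval_qq] <;> norm_num, by simp [eval_KA, cfA] <;> norm_num⟩,
    (-240), fun v => D_of_cubic _ _ _ _ ((cfA (![-6, -30, 6, 8, -4, -12] + v) + cfA (![-6, -30, 6, 8, -4, -12] - v)) / 2) (cfA v) fun e => ?_⟩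
  simp only [eval_KA, cfA, D_qq, Bf, Pi.add_apply, Pi.sub_apply, Pi.smul_apply, smul_eq_mul,
    Matrix.cons_val]
  ring

theorem node_c : OnX qq KA.c ![0, 0, -1, 0, 1, -1] ∧
    ∃ κ : ℂ, ∀ v, D KA.c ![0, 0, -1, 0, 1, -1] v = κ * D qq ![0, 0, -1, 0, 1, -1] v := by
  refine ⟨⟨fun h => by simpa using congrFun h 2, by simp [eval_qq] <;> norm_num, by simp [eval_KA, cfA] <;> norm_num⟩,
    (-69), fun v => D_of_cubic _ _ _ _ ((cfA (![0, 0, -1, 0, 1, -1] + v) + cfA (![0, 0, -1, 0, 1, -1] - v)) / 2) (cfA v) fun e => ?_⟩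
  simp only [eval_KA, cfA, D_qq, Bf, Pi.add_apply, Pi.sub_apply, Pi.smul_apply, smul_eq_mul,
    Matrix.cons_val]
  ring

theorem node_d : OnX qq KA.c ![-1, -1, 2, 0, -1, -1] ∧
    ∃ κ : ℂ, ∀ v, D KA.c ![-1, -1, 2, 0, -1, -1] v = κ * D qq ![-1, -1, 2, 0, -1, -1] v := by
  refine ⟨⟨fun h => by simpa using congrFun h 0, by simp [eval_qq] <;> norm_num, by simp [eval_KA, cfA] <;> norm_num⟩,
    13, fun v => D_of_cubic _ _ _ _ ((cfA (![-1, -1, 2, 0, -1, -1] + v) + cfA (![-1, -1, 2, 0, -1, -1] - v)) / 2) (cfA v) fun e => ?_⟩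
  simp only [eval_KA, cfA, D_qq, Bf, Pi.add_apply, Pi.sub_apply, Pi.smul_apply, smul_eq_mul,
    Matrix.cons_val]
  ring

theorem main : ∃ L L' : Net, IsRegularNet L ∧ IsRegularNet L' ∧ disc L = disc L' ∧
    ¬∃ φ : lines L ≃ lines L', IsMorphism φ ∧ IsMorphism φ.symm := by
  refine ⟨LA, LB, regA, regB, discA.trans discB.symm, fun ⟨φ, hφ, hψ⟩ => ?_⟩
  obtain ⟨T, α, hα, hB, hT⟩ := bridge niceA niceB KA cB hcA hcB homA homB (by simp [KA])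
    (by simp [KA]) _ sepA φ hφ hψ
  obtain ⟨a1, a2, ta, ea⟩ := hT _ node_a.1 node_a.2
  obtain ⟨b1, b2, tb, eb⟩ := hT _ node_b.1 node_b.2
  obtain ⟨c1, c2, tc, ec⟩ := hT _ node_c.1 node_c.2
  obtain ⟨d1, d2, td, ed⟩ := hT _ node_d.1 node_d.2
  have key : ∀ (x y : VV) (s t : ℂ) (i j k l : Fin 8), T x = s • plucker (PB i) (PB j) →
      T y = t • plucker (PB k) (PB l) →
      α * Bf x y = s * t * (BZ (plZ (ZB i) (ZB j)) (plZ (ZB k) (ZB l)) : ℂ) := by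
    intro x y s t i j k l e1 e2
    rw [← hB, e1, e2, PB_eq, PB_eq, PB_eq, PB_eq, plucker_cast, plucker_cast, ← Bf_cast]
    simp only [Bf, Pi.smul_apply, smul_eq_mul]
    ring
  have h1 := key _ _ _ _ _ _ _ _ ea eb
  have h2 := key _ _ _ _ _ _ _ _ ec ed
  have h3 := key _ _ _ _ _ _ _ _ ea ed
  have h4 := key _ _ _ _ _ _ _ _ ec eb
  have t3 := tabB a1 a2 d1 d2
  have t4 := tabB c1 c2 b1 b2
  generalize BZ (plZ (ZB a1) (ZB a2)) (plZ (ZB b1) (ZB b2)) = z1 at h1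
  generalize BZ (plZ (ZB c1) (ZB c2)) (plZ (ZB d1) (ZB d2)) = z2 at h2
  generalize BZ (plZ (ZB a1) (ZB a2)) (plZ (ZB d1) (ZB d2)) = z3 at h3 t3
  generalize BZ (plZ (ZB c1) (ZB c2)) (plZ (ZB b1) (ZB b2)) = z4 at h4 t4
  simp only [Bf, Matrix.cons_val] at h1 h2 h3 h4
  have h5 : ((-8 * (z3 * z4) : ℤ) : ℂ) = ((112 * (z1 * z2) : ℤ) : ℂ) := by
    push_cast
    apply mul_left_cancel₀ (pow_ne_zero 2 hα)
    linear_combination (α * 2 * z3 * z4) * h1 + (ta * tb * z1 * z3 * z4) * h2 -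
      (α * 28 * z1 * z2) * h3 - (ta * td * z1 * z2 * z3) * h4
  have h6 := Int.cast_injective h5
  have z3ne : z3 ≠ 0 := by
    rintro rfl
    exact hα (by linear_combination (1 / 4) * h3)
  have z4ne : z4 ≠ 0 := by
    rintro rfl
    exact hα (by linear_combination (1 / 28) * h4)
  have h7 : (7 : ℤ) ∣ z3 * z4 := by omega
  rcases (Int.prime_iff_natAbs_prime.2 (by norm_num)).dvd_or_dvd h7 with h | h <;> omega

end Pool.Agent.P.MP_970871_ag
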