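import Pool.Agent.P.MP_970871_ag.Gen

set_option autoImplicit false

namespace Pool.Agent.P.MP_970871_ag

open MvPolynomial Matrix

/-- The determinant of four vectors. -/
def d4 (a b c d : V4) : ℂ := Bf (plucker a b) (plucker c d)

theorem cramer4 (a b c d x : V4) : d4 a b c d • x =
    d4 x b c d • a + d4 a x c d • b + d4 a b x d • c + d4 a b c x • d := by
  funext i
  fin_cases i <;> simp [d4, Bf, plucker] <;> ring

theorem span4 {a b c d : V4} (h : d4 a b c d ≠ 0) (x : V4) :
    x = (d4 x b c d / d4 a b c d) • a + (d4 a x c d / d4 a b c d) • b +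
      (d4 a b x d / d4 a b c d) • c + (d4 a b c x / d4 a b c d) • d := by
  have := congrArg (fun y => (d4 a b c d)⁻¹ • y) (cramer4 a b c d x)
  simp only [smul_add, smul_smul, inv_mul_cancel₀ h, one_smul] at this
  simpa only [div_eq_inv_mul] using this

theorem span4' {a b c d : V4} (h : d4 a b c d ≠ 0) (x : V4) :
    ∃ p q r s : ℂ, x = p • a + q • b + r • c + s • d := ⟨_, _, _, _, span4 h x⟩

theorem ext_pl {W : Type} [AddCommGroup W] [Module ℂ W] {S T : VV →ₗ[ℂ] W}
    (h : ∀ i j : Fin 4, S (plucker (Pi.single i 1) (Pi.single j 1)) =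
      T (plucker (Pi.single i 1) (Pi.single j 1))) : S = T := by
  refine LinearMap.pi_ext' fun m => LinearMap.ext_ring ?_
  have key : ∀ m : Fin 6, ∃ i j : Fin 4,
      (Pi.single m 1 : VV) = plucker (Pi.single i 1) (Pi.single j 1) := by
    intro m
    fin_cases m
    · exact ⟨0, 1, by funext n; fin_cases n <;> simp [plucker]⟩
    · exact ⟨0, 2, by funext n; fin_cases n <;> simp [plucker]⟩
    · exact ⟨0, 3, by funext n; fin_cases n <;> simp [plucker]⟩
    · exact ⟨1, 2, by funext n; fin_cases n <;> simp [plucker]⟩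
    · exact ⟨1, 3, by funext n; fin_cases n <;> simp [plucker]⟩
    · exact ⟨2, 3, by funext n; fin_cases n <;> simp [plucker]⟩
  obtain ⟨i, j, e⟩ := key m
  simp only [LinearMap.comp_apply, LinearMap.coe_single, e, h]

theorem exists_compl {u v : V4} (h : plucker u v ≠ 0) : ∃ w1 w2, d4 u v w1 w2 ≠ 0 := by
  by_contra hc
  push Not at hc
  refine h (Bf_nondeg fun y => ?_)
  have : Bl (plucker u v) = 0 := ext_pl fun i j => hc _ _
  exact LinearMap.congr_fun this y

theorem dep_of_plucker {u v : V4} (h : plucker u v = 0) : Dep u v := by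
  by_cases hu : u = 0
  · exact ⟨1, 0, Or.inl one_ne_zero, by simp [hu]⟩
  obtain ⟨i, hi⟩ := Function.ne_iff.1 hu
  refine ⟨v i, -u i, Or.inr (neg_ne_zero.2 hi), funext fun j => ?_⟩
  have h0 := congrFun h 0
  have h1 := congrFun h 1
  have h2 := congrFun h 2
  have h3 := congrFun h 3
  have h4 := congrFun h 4
  have h5 := congrFun h 5
  simp only [plucker, Matrix.cons_val, Pi.zero_apply] at h0 h1 h2 h3 h4 h5
  simp only [Pi.add_apply, Pi.smul_apply, smul_eq_mul, Pi.zero_apply]
  fin_cases i <;> fin_cases j <;>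
    simp only [Fin.zero_eta, Fin.mk_one, Fin.reduceFinMk, Fin.isValue] <;>
    first | ring1 | linear_combination h0 | linear_combination -h0 | linear_combination h1 |
      linear_combination -h1 | linear_combination h2 | linear_combination -h2 |
      linear_combination h3 | linear_combination -h3 | linear_combination h4 |
      linear_combination -h4 | linear_combination h5 | linear_combination -h5

theorem Dep.eq_smul {u v : V4} (h : Dep u v) (hu : u ≠ 0) : ∃ t : ℂ, v = t • u := by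
  obtain ⟨s, t, hst, h⟩ := h
  have ht : t ≠ 0 := by
    rintro rfl
    rw [zero_smul, add_zero, smul_eq_zero] at h
    exact hst.elim (fun hs => h.elim hs hu) fun h => h rfl
  refine ⟨-s / t, funext fun i => ?_⟩
  have := congrFun h i
  simp only [Pi.add_apply, Pi.smul_apply, smul_eq_mul, Pi.zero_apply] at this ⊢
  field_simp
  linear_combination this

theorem dep3 (α β : Fin 3 → ℂ) :
    ∃ l : Fin 3 → ℂ, l ≠ 0 ∧ ∑ k, l k * α k = 0 ∧ ∑ k, l k * β k = 0 := by
  obtain ⟨l, hl, h⟩ := (exists_vecMul_eq_zero_iff (M := Matrix.of fun k => ![α k, β k, 0])).2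
    (by simp [det_fin_three])
  exact ⟨l, hl, congrFun h 0, congrFun h 1⟩

theorem bil_four (Q : Matrix (Fin 4) (Fin 4) ℂ) (x a b c d : V4) (p q r s : ℂ) :
    bil Q x (p • a + q • b + r • c + s • d) =
      p * bil Q x a + q * bil Q x b + r * bil Q x c + s * bil Q x d := by
  simp only [bil, mulVec_add, mulVec_smul, dotProduct_add, dotProduct_smul, smul_eq_mul]

theorem bil_sum (L : Net) (l : Fin 3 → ℂ) (x y : V4) :
    bil (∑ k, l k • L k) x y = ∑ k, l k * bil (L k) x y := by
  simp [bil, Fin.sum_univ_three, add_mulVec, smul_mulVec]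

theorem symm_sum {L : Net} (h : ∀ k, (L k).IsSymm) (l : Fin 3 → ℂ) : (∑ k, l k • L k).IsSymm := by
  simp only [Matrix.IsSymm, transpose_sum, transpose_smul, fun k => (h k).eq]

theorem mulVec_zero_of {Q : Matrix (Fin 4) (Fin 4) ℂ} (h : Q.IsSymm) {u : V4}
    (hu : ∀ a, bil Q u a = 0) : Q *ᵥ u = 0 := by
  funext i
  have := hu (Pi.single i 1)
  rw [bil_comm h, bil, single_dotProduct, one_mul] at this
  exact this

theorem grad_disc (L : Net) (l : Fin 3 → ℂ) (k : Fin 3) {u : V4} (hu : (∑ j, l j • L j) *ᵥ u = 0) :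
    eval l (pderiv k (disc L)) • u = adjugate (∑ j, l j • L j) *ᵥ (L k *ᵥ u) := by
  set M : Matrix (Fin 4) (Fin 4) (MvPolynomial (Fin 3) ℂ) :=
    ∑ k, (X k : MvPolynomial (Fin 3) ℂ) • (L k).map C with hM
  have h1 : (eval l).mapMatrix M = ∑ j, l j • L j := by
    ext i j
    simp [hM, Fin.sum_univ_three]
  have h2 : (M.map fun p => eval l (pderiv k p)) = L k := by
    ext i j
    fin_cases k <;> simp [hM, Fin.sum_univ_three, pderiv_X]
  have h3 : (((adjugate M) * M).map fun p => eval l (pderiv k p)) =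
      ((adjugate M).map fun p => eval l (pderiv k p)) * (eval l).mapMatrix M +
        (eval l).mapMatrix (adjugate M) * M.map fun p => eval l (pderiv k p) := by
    ext i j
    simp only [map_apply, mul_apply, map_sum, pderiv_mul, map_add, map_mul, Matrix.add_apply,
      RingHom.mapMatrix_apply, Finset.sum_add_distrib]
  rw [RingHom.map_adjugate, h1, h2, adjugate_mul] at h3
  have h4 : ((M.det • (1 : Matrix (Fin 4) (Fin 4) (MvPolynomial (Fin 3) ℂ))).map
      fun p => eval l (pderiv k p)) = eval l (pderiv k (disc L)) • (1 : Matrix _ _ ℂ) := by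
    ext i j
    by_cases h : i = j <;> simp [h, disc, hM]
  have := congrArg (fun A => A *ᵥ u) (h4.symm.trans h3)
  simpa only [smul_mulVec, one_mulVec, add_mulVec, ← mulVec_mulVec, hu, mulVec_zero,
    zero_add] using this

theorem IsRegularNet.ker {L : Net} (h : IsRegularNet L) {l : Fin 3 → ℂ} {u : V4} (hu0 : u ≠ 0)
    (hu : (∑ j, l j • L j) *ᵥ u = 0)
    (hN : ∀ k, adjugate (∑ j, l j • L j) *ᵥ (L k *ᵥ u) = 0) : l = 0 := by
  by_contra hl
  obtain ⟨k, hk⟩ := h.2.2.2.2 l hl (by
    have : (Matrix.of fun i j => l 0 * L 0 i j + l 1 * L 1 i j + l 2 * L 2 i j) =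
        ∑ j, l j • L j := by
      ext i j
      simp [Fin.sum_univ_three]
    rw [eval_disc, this, ← exists_mulVec_eq_zero_iff]
    exact ⟨u, hu0, hu⟩)
  have := grad_disc L l k hu
  rw [hN k, smul_eq_zero] at this
  exact this.elim hk hu0

theorem IsRegularNet.h3 {L : Net} (h : IsRegularNet L) (l : Fin 3 → ℂ) {u v : V4}
    (hu : (∑ j, l j • L j) *ᵥ u = 0) (hv : (∑ j, l j • L j) *ᵥ v = 0) : l = 0 ∨ Dep u v := by
  by_cases hd : Dep u v
  · exact Or.inr hd
  refine Or.inl (h.ker (fun h0 => hd ⟨1, 0, Or.inl one_ne_zero, by simp [h0]⟩) hu fun k => ?_)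
  have : adjugate (∑ j, l j • L j) = 0 := by
    ext i j
    rw [adjugate_fin_succ_eq_det_submatrix, minor_zero _ hu hv hd, mul_zero, Matrix.zero_apply]
  rw [this, zero_mulVec]

theorem IsRegularNet.h2 {L : Net} (h : IsRegularNet L) (l : Fin 3 → ℂ) {u : V4} (hu0 : u ≠ 0)
    (hu : (∑ j, l j • L j) *ᵥ u = 0) (hb : ∀ k, bil (L k) u u = 0) : l = 0 := by
  by_contra hl
  refine hl (h.ker hu0 hu fun k => ?_)
  set Q := ∑ j, l j • L j with hQ
  have hdet : Q.det = 0 := exists_mulVec_eq_zero_iff.1 ⟨u, hu0, hu⟩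
  have hs : (adjugate Q)ᵀ = adjugate Q := by rw [adjugate_transpose, (symm_sum h.1 l).eq]
  have hcol : ∀ y, ∃ t : ℂ, adjugate Q *ᵥ y = t • u := fun y =>
    ((h.h3 l hu (by rw [mulVec_mulVec, mul_adjugate, hdet, zero_smul, zero_mulVec])).resolve_left
      hl).eq_smul hu0
  funext i
  obtain ⟨t, ht⟩ := hcol (Pi.single i 1)
  have h1 : Pi.single i 1 ⬝ᵥ adjugate Q *ᵥ (L k *ᵥ u) = 0 := by
    rw [dotProduct_mulVec, ← hs, vecMul_transpose, ht, smul_dotProduct]
    exact smul_eq_zero_of_right _ (hb k)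
  rwa [single_dotProduct, one_mul] at h1

/-- A net with its eight base points. -/
structure Oct (L : Net) (P : Fin 8 → V4) : Prop extends Nice L P where
  base : ∀ i k, bil (L k) (P i) (P i) = 0
  ne : ∀ i j, i ≠ j → plucker (P i) (P j) ≠ 0

theorem IsRegularNet.oct {L : Net} (h : IsRegularNet L) : ∃ P, Oct L P := by
  set S := {p : Projectivization ℂ (Fin 4 → ℂ) | ∀ k, quad (L k) p.rep = 0} with hS
  have hc : S.ncard = 8 := h.2.2.1
  have : Finite S := (Set.finite_of_ncard_ne_zero (by omega)).to_subtype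
  let e : S ≃ Fin 8 := Finite.equivFinOfCardEq hc
  have hb : ∀ i k, bil (L k) (e.symm i).1.rep (e.symm i).1.rep = 0 := fun i => (e.symm i).2
  have h2 : ∀ (i : Fin 8) (l : Fin 3 → ℂ),
      (∀ a, ∑ k, l k * bil (L k) (e.symm i).1.rep a = 0) → l = 0 := fun i l hl =>
    h.h2 l (e.symm i).1.rep_nonzero
      (mulVec_zero_of (symm_sum h.1 l) fun a => by rw [bil_sum, hl]) (hb i)
  refine ⟨fun i => (e.symm i).1.rep, ⟨h.1, fun x hx hxb => ?_, h2, fun i v hv => ?_,
    fun l u v hu hv => h.h3 l (mulVec_zero_of (symm_sum h.1 l) fun a => by rw [bil_sum, hu])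
      (mulVec_zero_of (symm_sum h.1 l) fun a => by rw [bil_sum, hv])⟩, hb, fun i j hij h0 => ?_⟩
  · obtain ⟨a, ha⟩ := Projectivization.exists_smul_eq_mk_rep ℂ x hx
    have hm : Projectivization.mk ℂ x hx ∈ S := fun k => by
      simp only [← ha, quad, Units.smul_def, mulVec_smul, smul_dotProduct, dotProduct_smul]
      rw [show x ⬝ᵥ L k *ᵥ x = 0 from hxb k]
      simp
    refine ⟨e ⟨_, hm⟩, (a : ℂ)⁻¹, ?_⟩
    simp only [Equiv.symm_apply_apply, ← ha, Units.smul_def, smul_smul,
      inv_mul_cancel₀ a.ne_zero, one_smul]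
  · refine (dep_of_plucker ?_).eq_smul (e.symm i).1.rep_nonzero
    by_contra h0
    obtain ⟨w1, w2, hw⟩ := exists_compl h0
    obtain ⟨l, hl, e1, e2⟩ := dep3 (fun k => bil (L k) (e.symm i).1.rep w1)
      (fun k => bil (L k) (e.symm i).1.rep w2)
    refine hl (h2 i l fun a => ?_)
    obtain ⟨p, q, r, s, rfl⟩ := span4' hw a
    simp only [bil_four, hb, hv, Fin.sum_univ_three] at e1 e2 ⊢
    linear_combination r * e1 + s * e2
  · obtain ⟨t, ht⟩ := (dep_of_plucker h0).eq_smul (e.symm i).1.rep_nonzero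
    refine hij (e.symm.injective (Subtype.ext (Eq.symm ?_)))
    rw [← (e.symm i).1.mk_rep, ← (e.symm j).1.mk_rep, Projectivization.mk_eq_mk_iff']
    exact ⟨t, ht.symm⟩

namespace Oct

variable {L : Net} {P : Fin 8 → V4} (O : Oct L P)
include O

theorem bil_ne {i j : Fin 8} (h : i ≠ j) : ¬∀ k, bil (L k) (P i) (P j) = 0 :=
  fun h0 => O.toNice.tang (O.ne i j h) (O.base i) h0

theorem not_col {a b c : Fin 8} (hab : a ≠ b) (hac : a ≠ c) (hbc : b ≠ c) (s t : ℂ) :
    P c ≠ s • P a + t • P b := by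
  intro e
  have hs : s ≠ 0 := by
    rintro rfl
    exact O.ne b c hbc (Dep.plucker ⟨t, -1, Or.inr (by norm_num), by simp [e]⟩)
  have ht : t ≠ 0 := by
    rintro rfl
    exact O.ne a c hac (Dep.plucker ⟨s, -1, Or.inr (by norm_num), by simp [e]⟩)
  refine O.bil_ne hab fun k => ?_
  have := O.base c k
  rw [e, bil_lin, O.base, O.base, bil_comm (O.sym k) (P b)] at this
  apply mul_left_cancel₀ (mul_ne_zero two_ne_zero (mul_ne_zero hs ht))
  linear_combination this

theorem gen {a b c d : Fin 8} (hab : a ≠ b) (hac : a ≠ c) (had : a ≠ d) (hbc : b ≠ c)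
    (hbd : b ≠ d) (hcd : c ≠ d) : d4 (P a) (P b) (P c) (P d) ≠ 0 := by
  intro h0
  obtain ⟨w, hw⟩ : ∃ w, d4 (P a) (P b) (P c) w ≠ 0 := by
    by_contra hcon
    push Not at hcon
    obtain ⟨w1, w2, hw⟩ := exists_compl (O.ne a b hab)
    have := span4 hw (P c)
    have h1 : d4 (P a) (P b) w1 (P c) = -d4 (P a) (P b) (P c) w1 := by
      simp [d4, Bf, plucker]
      ring
    rw [h1, hcon, hcon] at this
    exact O.not_col hab hac hbc _ _ (by simpa using this)
  obtain ⟨x, y, z, e⟩ : ∃ x y z : ℂ, P d = x • P a + y • P b + z • P c + (0 : ℂ) • w := by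
    have := span4 hw (P d)
    rw [h0, zero_div] at this
    exact ⟨_, _, _, this⟩
  have hy : y ≠ 0 := by
    rintro rfl
    exact O.not_col hac had hcd x z (by simpa using e)
  have hz : z ≠ 0 := by
    rintro rfl
    exact O.not_col hab had hbd x y (by simpa using e)
  obtain ⟨l, hl, e1, e2⟩ := dep3 (fun k => bil (L k) (P a) (P b)) (fun k => bil (L k) (P a) (P c))
  set Q := ∑ k, l k • L k with hQ
  have hs : Q.IsSymm := symm_sum O.sym l
  have hb : ∀ i, bil Q (P i) (P i) = 0 := fun i => by simp [hQ, bil_sum, O.base]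
  rw [← bil_sum, ← hQ] at e1 e2
  have e3 : bil Q (P b) (P c) = 0 := by
    have := hb d
    rw [e, bil_four, bil_comm hs _ (P a), bil_comm hs _ (P b), bil_comm hs _ (P c)] at this
    simp only [bil_four, hb, e1, e2, bil_comm hs (P b) (P a), bil_comm hs (P c) (P a),
      bil_comm hs (P c) (P b)] at this
    apply mul_left_cancel₀ (mul_ne_zero two_ne_zero (mul_ne_zero hy hz))
    linear_combination this
  have hγ : bil Q (P a) w ≠ 0 := fun h => hl (O.h2 a l fun v => by
    obtain ⟨p, q, r, s, rfl⟩ := span4' hw v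
    rw [← bil_sum, ← hQ, bil_four, hb, e1, e2, h]
    simp)
  have hl2 : ∀ (s t : ℂ) (u v x : V4), bil Q (s • u + t • v) x = s * bil Q u x + t * bil Q v x := by
    intro s t u v x
    simp only [bil, add_dotProduct, smul_dotProduct, smul_eq_mul]
  obtain ⟨s, t, hst, e⟩ := (O.h3 l (bil Q (P a) w • P b + (-bil Q (P b) w) • P a)
    (bil Q (P a) w • P c + (-bil Q (P c) w) • P a) (fun v => by
      obtain ⟨p, q, r, s, rfl⟩ := span4' hw v
      rw [← bil_sum, ← hQ, hl2]
      simp only [bil_four, hb, e1, e2, e3, bil_comm hs (P b) (P a)]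
      ring) (fun v => by
      obtain ⟨p, q, r, s, rfl⟩ := span4' hw v
      rw [← bil_sum, ← hQ, hl2]
      simp only [bil_four, hb, e1, e2, e3, bil_comm hs (P c) (P a), bil_comm hs (P c) (P b)]
      ring)).resolve_left hl
  have k1 := congrArg (fun v => d4 (P a) v (P c) w) e
  have k2 := congrArg (fun v => d4 (P a) (P b) v w) e
  simp only [d4, Bf, plucker, Matrix.cons_val, Pi.add_apply, Pi.smul_apply, smul_eq_mul,
    Pi.zero_apply] at k1 k2 hw
  rcases hst with h | h
  · exact mul_ne_zero (mul_ne_zero h hγ) hw (by linear_combination k1)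
  · exact mul_ne_zero (mul_ne_zero h hγ) hw (by linear_combination k2)

end Oct

end Pool.Agent.P.MP_970871_ag
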