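import Pool.Agent.P.MP_970871_ag.T1

set_option autoImplicit false

namespace Pool.Agent.P.MP_970871_ag

open MvPolynomial Matrix

abbrev M4 := Matrix (Fin 4) (Fin 4) ℂ

/-- The skew matrix with given Pluecker coordinates. -/
def Om : VV →ₗ[ℂ] M4 where
  toFun x := !![0, x 0, x 1, x 2; -x 0, 0, x 3, x 4; -x 1, -x 3, 0, x 5; -x 2, -x 4, -x 5, 0]
  map_add' x y := by
    ext i j
    fin_cases i <;> fin_cases j <;> simp <;> ring
  map_smul' t x := by
    ext i j
    fin_cases i <;> fin_cases j <;> simp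

theorem Om_apply (x : VV) : Om x =
    !![0, x 0, x 1, x 2; -x 0, 0, x 3, x 4; -x 1, -x 3, 0, x 5; -x 2, -x 4, -x 5, 0] := rfl

theorem Om_plucker (u v : V4) : Om (plucker u v) = vecMulVec u v - vecMulVec v u := by
  ext i j
  fin_cases i <;> fin_cases j <;> simp [Om_apply, plucker, vecMulVec_apply] <;> ring

noncomputable def cf (L : Net) (x y z : VV) : ℂ :=
  (-1 / 4) * trace (L 0 * Om x * L 1 * Om y * L 2 * Om z)

theorem tr3 (A B E : M4) (a a' b b' c c' : V4) :
    trace (A * vecMulVec a a' * B * vecMulVec b b' * E * vecMulVec c c') =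
      bil B a' b * bil E b' c * bil A c' a := by
  simp only [mul_vecMulVec, vecMulVec_mul, trace_vecMulVec,
    vecMulVec_mulVec, bil, ← dotProduct_mulVec, smul_dotProduct,
    op_smul_eq_smul, smul_eq_mul, dotProduct_comm (A *ᵥ a)]
  ring

theorem cf_plucker {L : Net} (h : ∀ k, (L k).IsSymm) (u v : V4) :
    4 * cf L (plucker u v) (plucker u v) (plucker u v) = DD L u v := by
  simp only [cf, Om_plucker, mul_sub, sub_mul, trace_sub, tr3, DD, det3,
    fun k => bil_comm (h k) v u]
  ring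

theorem isPoly_cf (L : Net) {f g h : VV → VV} (hf : ∀ i, IsPoly fun x => f x i)
    (hg : ∀ i, IsPoly fun x => g x i) (hh : ∀ i, IsPoly fun x => h x i) :
    IsPoly fun x => cf L (f x) (g x) (h x) := by
  have k1 : ∀ {f : VV → VV}, (∀ i, IsPoly fun x => f x i) → ∀ i j, IsPoly fun x => Om (f x) i j := by
    intro f hf i j
    have : ∀ y : VV, Om y i j = ∑ m, y m * Om (Pi.single m 1) i j := by
      intro y
      conv_lhs => rw [pi_eq_sum_univ' y]
      simp only [map_sum, map_smul, Matrix.sum_apply, Matrix.smul_apply, smul_eq_mul]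
    simp only [this (f _)]
    exact IsPoly.sum fun m => (hf m).mul (IsPoly.const _)
  have k2 : ∀ {A B : VV → M4}, (∀ i j, IsPoly fun x => A x i j) →
      (∀ i j, IsPoly fun x => B x i j) → ∀ i j, IsPoly fun x => (A x * B x) i j :=
    fun hA hB i j => by
      simp only [mul_apply]
      exact IsPoly.sum fun m => (hA i m).mul (hB m j)
  have k4 : ∀ {A : VV → M4}, (∀ i j, IsPoly fun x => A x i j) → IsPoly fun x => trace (A x) :=
    fun hA => IsPoly.sum fun i => hA i i
  have k3 : ∀ (A : M4) i j, IsPoly fun _ => A i j := fun A i j => IsPoly.const _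
  exact (IsPoly.const _).mul
    (k4 (k2 (k2 (k2 (k2 (k2 (k3 _) (k1 hf)) (k3 _)) (k1 hg)) (k3 _)) (k1 hh)))

theorem cf_lin (L : Net) (t : ℂ) (x x' y z : VV) :
    (cf L (x + x') y z = cf L x y z + cf L x' y z ∧ cf L y (x + x') z = cf L y x z + cf L y x' z ∧
      cf L y z (x + x') = cf L y z x + cf L y z x') ∧
    cf L (t • x) y z = t * cf L x y z ∧ cf L y (t • x) z = t * cf L y x z ∧
      cf L y z (t • x) = t * cf L y z x := by
  simp only [cf, map_smul, map_add, Matrix.mul_smul, Matrix.smul_mul, trace_smul, smul_eq_mul,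
    Matrix.add_mul, trace_add, mul_add, mul_left_comm t, and_self]

def mm (x : VV) : VV := ![0, x 1, x 2, x 3, x 4, 0]

theorem mm_split (x : VV) : x = x 0 • plucker (Pi.single 0 1) (Pi.single 1 1) + mm x +
    x 5 • plucker (Pi.single 2 1) (Pi.single 3 1) := by
  funext i
  rw [Pi.add_apply, Pi.add_apply, Pi.smul_apply, Pi.smul_apply]
  fin_cases i <;> simp [mm, plucker]

theorem exists_io {f : VV → ℂ} (hf : IsPoly f) : ∃ a : AA, ∀ x, eval x (io a) = f (mm x) := by
  obtain ⟨p, hp⟩ := hf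
  refine ⟨aeval ![0, X 0, X 1, X 2, X 3, 0] p, fun x => ?_⟩
  rw [eval_io, ← hp, ← coe_aeval_eq_eval, ← coe_aeval_eq_eval]
  change aeval (mid x) (aeval _ p) = aeval (mm x) p
  rw [comp_aeval_apply]
  congr 2
  funext i
  fin_cases i <;> simp [mm] <;> rfl

theorem exists_cub {L : Net} (h : ∀ k, (L k).IsSymm) : ∃ K : Cub, Hom K.c 3 ∧
    (∀ u v, 4 * eval (plucker u v) K.c = DD L u v) ∧
    4 * K.k1 = DD L (Pi.single 0 1) (Pi.single 1 1) ∧
    4 * K.k2 = DD L (Pi.single 2 1) (Pi.single 3 1) := by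
  obtain ⟨a, ha⟩ : ∃ a : VV, a = plucker (Pi.single 0 1) (Pi.single 1 1) := ⟨_, rfl⟩
  obtain ⟨b, hb⟩ : ∃ b : VV, b = plucker (Pi.single 2 1) (Pi.single 3 1) := ⟨_, rfl⟩
  rw [← cf_plucker h, ← cf_plucker h, ← ha, ← hb]
  have pa : ∀ i, IsPoly fun _ => a i := fun i => IsPoly.const _
  have pb : ∀ i, IsPoly fun _ => b i := fun i => IsPoly.const _
  have px : ∀ i, IsPoly fun x : VV => x i := IsPoly.coord
  have p2 : ∀ {f g : VV → VV}, (∀ i, IsPoly fun x => f x i) → (∀ i, IsPoly fun x => g x i) →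
      IsPoly fun x => cf L (f x) (f x) (g x) + cf L (f x) (g x) (f x) + cf L (g x) (f x) (f x) :=
    fun hf hg => ((isPoly_cf L hf hf hg).add (isPoly_cf L hf hg hf)).add (isPoly_cf L hg hf hf)
  obtain ⟨c20, e20⟩ := exists_io (p2 pa px)
  obtain ⟨c10, e10⟩ := exists_io (p2 px pa)
  obtain ⟨c01, e01⟩ := exists_io (p2 px pb)
  obtain ⟨c02, e02⟩ := exists_io (p2 pb px)
  obtain ⟨c21, e21⟩ := exists_io (p2 pa pb)
  obtain ⟨c12, e12⟩ := exists_io (p2 pb pa)
  obtain ⟨c00, e00⟩ := exists_io (isPoly_cf L px px px)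
  obtain ⟨c11, e11⟩ := exists_io ((((((isPoly_cf L pa px pb).add (isPoly_cf L pa pb px)).add
    (isPoly_cf L px pa pb)).add (isPoly_cf L px pb pa)).add (isPoly_cf L pb pa px)).add
    (isPoly_cf L pb px pa))
  have hQ : ∀ x : VV, eval x (io QQ) = x 1 * x 4 - x 2 * x 3 := fun x => by
    simp only [eval_io, QQ, map_sub, map_mul, eval_X]
    rfl
  have l1 := fun x x' y z => (cf_lin L 0 x x' y z).1.1
  have l2 := fun x x' y z => (cf_lin L 0 x x' y z).1.2.1
  have l3 := fun x x' y z => (cf_lin L 0 x x' y z).1.2.2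
  have l4 := fun t x y z => (cf_lin L t x 0 y z).2.1
  have l5 := fun t x y z => (cf_lin L t x 0 y z).2.2.1
  have l6 := fun t x y z => (cf_lin L t x 0 y z).2.2.2
  refine ⟨⟨cf L a a a, cf L b b b, c20, c10 + c21 * QQ, c00 + c11 * QQ, c01 + c12 * QQ, c02⟩,
    fun t x => ?_, fun u v => ?_, rfl, rfl⟩
  · have hm : mm (t • x) = t • mm x := by
      funext i
      fin_cases i <;> simp [mm]
    simp only [Cub.c, map_add, map_mul, map_pow, eval_C, eval_X, e20, e10, e01, e02, e21, e12,
      e00, e11, hQ, hm, l4, l5, l6, smul_eq_mul, Pi.smul_apply]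
    ring
  · rw [← cf_plucker h]
    have hq := qq_plucker u v
    generalize plucker u v = x at hq
    rw [eval_qq] at hq
    have hx : x = x 0 • a + mm x + x 5 • b := by
      rw [ha, hb]
      exact mm_split x
    have hQ' : eval x (io QQ) = x 0 * x 5 := by
      rw [hQ]
      linear_combination -hq
    simp only [Cub.c, map_add, map_mul, map_pow, eval_C, eval_X, e20, e10, e01, e02, e21, e12,
      e00, e11, hQ']
    conv_rhs => rw [hx]
    simp only [l1, l2, l3, l4, l5, l6]
    ring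

namespace Cub

variable (K : Cub)

theorem sep_iff (h1 : K.k1 ≠ 0) {E : Type} [Field E] [CharZero E] (φ : AA →+* E) :
    φ (Polynomial.resultant K.pol K.pol.derivative 6 5) ≠ 0 ↔ (K.pol.map φ).Separable := by
  have hk : φ (C K.k1) ≠ 0 := (map_ne_zero (φ.comp C)).2 h1
  have hd : (K.pol.map φ).natDegree = 6 := by
    simp only [pol, Polynomial.map_add, Polynomial.map_mul, Polynomial.map_pow, Polynomial.map_C,
      Polynomial.map_X]
    compute_degree!
  have hd' : (K.pol.map φ).derivative.natDegree = 5 := by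
    rw [Polynomial.natDegree_derivative, hd]
  have h0 : K.pol.map φ ≠ 0 := by
    intro h0
    rw [h0] at hd
    simp at hd
  have := Polynomial.resultant_eq_zero_iff (f := K.pol.map φ) (g := (K.pol.map φ).derivative)
  rw [hd, hd', Polynomial.derivative_map, Polynomial.resultant_map_map] at this
  rw [Ne, this, Polynomial.separable_def, Polynomial.derivative_map]
  simp [h0]

theorem exists_sq (h1 : K.k1 ≠ 0) (h : ∀ t, ¬(K.pol.map (eval t)).Separable) :
    ∃ g r : Polynomial AA, g.Monic ∧ g.natDegree ≠ 0 ∧ K.pol = g * g * r := by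
  let F := FractionRing AA
  have hδ : Polynomial.resultant K.pol K.pol.derivative 6 5 = 0 := by
    apply MvPolynomial.funext
    intro t
    by_contra h0
    exact h t ((K.sep_iff h1 (eval t)).1 (by simpa using h0))
  have hs : ¬Squarefree (K.pol.map (algebraMap AA F)) := by
    rw [← PerfectField.separable_iff_squarefree, ← K.sep_iff h1, hδ, map_zero]
    simp
  obtain ⟨g, hg, hu⟩ : ∃ g, g * g ∣ K.pol.map (algebraMap AA F) ∧ ¬IsUnit g := by
    simpa only [Squarefree, not_forall, exists_prop] using hs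
  have e1 : (C K.k1⁻¹ : AA) * C K.k1 = 1 := by rw [← map_mul, inv_mul_cancel₀ h1, map_one]
  have hp : (Polynomial.C (C K.k1⁻¹ : AA) * K.pol).Monic := by
    apply Polynomial.monic_C_mul_of_mul_leadingCoeff_eq_one
    have hk : (C K.k1 : AA) ≠ 0 := by simpa using h1
    have hd : K.pol.natDegree = 6 := by
      unfold pol
      compute_degree!
    rw [Polynomial.leadingCoeff, hd]
    simpa [pol, -map_mul, -map_pow, Polynomial.coeff_X, Polynomial.coeff_C] using e1
  have hg2 : g * g ∣ (Polynomial.C (C K.k1⁻¹ : AA) * K.pol).map (algebraMap AA F) := by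
    rw [Polynomial.map_mul]
    exact hg.mul_left _
  have hg0 : g ≠ 0 := left_ne_zero_of_mul (ne_zero_of_dvd_ne_zero (hp.map _).ne_zero hg2)
  obtain ⟨g', hg'⟩ := IsIntegrallyClosed.eq_map_mul_C_of_dvd F hp
    ((dvd_mul_right g g).trans hg2)
  have hl : g.leadingCoeff ≠ 0 := Polynomial.leadingCoeff_ne_zero.2 hg0
  have hm : g'.Monic := by
    refine Polynomial.monic_of_injective (IsFractionRing.injective AA F) ?_
    have := congrArg Polynomial.leadingCoeff hg'
    rw [Polynomial.leadingCoeff_mul, Polynomial.leadingCoeff_C] at this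
    exact mul_right_cancel₀ hl (this.trans (one_mul _).symm)
  obtain ⟨r, hr⟩ := Polynomial.Monic.dvd_of_fraction_map_dvd_fraction_map (K := F) hp (hm.mul hm)
    (by
      rw [Polynomial.map_mul]
      exact (mul_dvd_mul ⟨_, hg'.symm⟩ ⟨_, hg'.symm⟩).trans hg2)
  refine ⟨g', r * Polynomial.C (C K.k1), hm, fun h0 => hu ?_, ?_⟩
  · rw [← hg', hm.natDegree_eq_zero.1 h0, Polynomial.map_one, one_mul]
    exact Polynomial.isUnit_C.2 hl.isUnit
  · rw [← mul_assoc, ← hr, mul_right_comm, ← map_mul, e1, map_one, one_mul]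

theorem exists_sep (h1 : K.k1 ≠ 0) (h2 : K.k2 ≠ 0) (B : Finset VV)
    (hB : ∀ x, OnX qq K.c x → ¬Smooth qq K.c x → ∃ m ∈ B, ∃ t : ℂ, x = t • m) :
    ∃ t, (K.pol.map (eval t)).Separable := by
  by_contra h
  push Not at h
  obtain ⟨g, r, hm, hd, e⟩ := K.exists_sq h1 h
  obtain ⟨f, hf, -, f2, -⟩ := exists_form 0 1 (by decide) B
  obtain ⟨t, ht⟩ : ∃ t, eval t (QQ * f) ≠ 0 := by
    by_contra hcon
    push Not at hcon
    exact mul_ne_zero QQ_ne hf (MvPolynomial.funext fun t => by rw [hcon, map_zero])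
  rw [map_mul, mul_ne_zero_iff] at ht
  obtain ⟨y, hy⟩ := IsAlgClosed.exists_root (g.map (eval t)) (by
    rw [Polynomial.degree_eq_natDegree (hm.map _).ne_zero, hm.natDegree_map]
    exact_mod_cast hd)
  have hy' : (K.pol.map (eval t)).eval y = 0 := by
    rw [e, Polynomial.map_mul, Polynomial.map_mul, Polynomial.eval_mul, Polynomial.eval_mul,
      hy.eq_zero, zero_mul, zero_mul]
  rw [pol_map] at hy'
  simp only [Polynomial.eval_add, Polynomial.eval_mul, Polynomial.eval_C,
    Polynomial.eval_pow, Polynomial.eval_X] at hy'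
  have hy0 : y ≠ 0 := by
    rintro rfl
    simp [h2, ht.1] at hy'
  let x : VV := ![y, t 0, t 1, t 2, t 3, eval t QQ / y]
  have hx : mid x = t := by
    funext i
    fin_cases i <;> rfl
  have x0 : x 0 = y := rfl
  have x5 : x 5 = eval t QQ / y := rfl
  have hX : OnX qq K.c x := ⟨fun h0 => hy0 (congrFun h0 0), by
    simp only [qq_eq, map_sub, map_mul, eval_X, eval_io, hx, x0, x5]
    field_simp
    ring, by
    simp only [c, map_add, map_mul, map_pow, eval_X, eval_C, eval_io, hx, x0, x5]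
    field_simp
    linear_combination hy'⟩
  let ψ : Polynomial AA →+* PP := Polynomial.eval₂RingHom (io : AA →+* PP) (X 0)
  have hψ : eval x (ψ g) = 0 := by
    rw [← hy.eq_zero, Polynomial.eval_map, Polynomial.coe_eval₂RingHom, Polynomial.hom_eval₂,
      eval_X, x0]
    congr 1
    exact RingHom.ext fun a => by rw [← hx]; exact eval_io x a
  have hid : X 0 * X 0 * X 0 * K.c = ψ g * (ψ g * ψ r) + qq * (io K.b2 * X 0 ^ 2 +
      io K.a2 * X 0 * (X 0 * X 5 + io QQ) +
      C K.k2 * ((X 0 * X 5) ^ 2 + X 0 * X 5 * io QQ + io QQ ^ 2)) := by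
    have hC : ∀ u : ℂ, io (C u) = C u := fun u => rename_C _ _
    rw [← mul_assoc, ← map_mul, ← map_mul, ← e]
    simp only [ψ, pol, map_add, map_mul, map_pow, Polynomial.coe_eval₂RingHom, Polynomial.eval₂_C,
      Polynomial.eval₂_X, RingHom.coe_coe, hC, c, qq_eq]
    ring
  obtain ⟨m, hmB, s, es⟩ := hB x hX (by
    rintro ⟨a, b, -, -, k1, k2⟩
    have := congrArg (fun p => D p x b) hid
    simp only [D_mul, D_add, hψ, hX.2.1, hX.2.2, k1, k2, map_mul, eval_X, x0, mul_zero, zero_mul,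
      add_zero, zero_add, mul_one] at this
    exact mul_ne_zero (mul_ne_zero hy0 hy0) hy0 this)
  have := f2 m hmB s
  rw [← es, eval_io, hx] at this
  exact ht.2 this

end Cub

theorem Nice.exists_DD {L : Net} {P : Fin 8 → V4} (N : Nice L P) : ∃ u v, DD L u v ≠ 0 := by
  classical
  by_contra h
  push Not at h
  obtain ⟨f, hf, -, f2, -⟩ := exists_form 0 1 (by decide)
    (Finset.univ.image fun p : Fin 8 × Fin 8 => plucker (P p.1) (P p.2))
  obtain ⟨t, ht⟩ : ∃ t, eval t f ≠ 0 := by
    by_contra hcon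
    push Not at hcon
    exact hf (MvPolynomial.funext fun t => by rw [hcon, map_zero])
  let x : VV := ![1, t 0, t 1, t 2, t 3, eval t QQ]
  have hx : mid x = t := by
    funext i
    fin_cases i <;> rfl
  obtain ⟨i, j, s, e⟩ := N.sing (c := 0) (x := x) (fun u v => by simp [h]) (fun _ _ => by simp)
    ⟨fun h0 => one_ne_zero (congrFun h0 0), by simp [eval_qq, x, QQ], by simp⟩
    (by rintro ⟨a, b, -, -, -, k⟩; simp [D_apply] at k)
  have := f2 _ (Finset.mem_image_of_mem _ (Finset.mem_univ (i, j))) s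
  rw [← e, eval_io, hx] at this
  exact ht this

theorem det_cols (a b c d : V4) : (Matrix.of ![a, b, c, d])ᵀ.det = d4 a b c d := by
  rw [det_transpose, det_four]
  simp [d4, Bf, plucker]
  ring

theorem cols_single (f : Fin 4 → V4) (i : Fin 4) : (Matrix.of f)ᵀ *ᵥ Pi.single i 1 = f i := by
  funext j
  simp

theorem Nice.exists_frame {L : Net} {P : Fin 8 → V4} (N : Nice L P) : ∃ G : M4, G.det ≠ 0 ∧
    DD L (G *ᵥ Pi.single 0 1) (G *ᵥ Pi.single 1 1) ≠ 0 ∧
    DD L (G *ᵥ Pi.single 2 1) (G *ᵥ Pi.single 3 1) ≠ 0 := by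
  obtain ⟨u, v, h⟩ := N.exists_DD
  obtain ⟨K, h3, hK, -⟩ := exists_cub N.sym
  have h0 : plucker u v ≠ 0 := fun h0 => h (by
    rw [← hK, h0, ← zero_smul ℂ (0 : VV), h3]
    simp)
  obtain ⟨w1, w2, hw⟩ := exists_compl h0
  obtain ⟨s, hs, hs0⟩ : ∃ s : ℂ, DD L (u + s • w1) (v + s • w2) ≠ 0 ∧ s ≠ 0 := by
    have hc : Continuous fun s : ℂ => DD L (u + s • w1) (v + s • w2) := by
      simp only [DD, det3, bil]
      fun_prop
    exact (dense_compl_singleton (0 : ℂ)).inter_open_nonempty _ (isOpen_ne_fun hc continuous_const)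
      ⟨0, show DD L (u + (0 : ℂ) • w1) (v + (0 : ℂ) • w2) ≠ 0 by simpa using h⟩
  refine ⟨(Matrix.of ![u, v, u + s • w1, v + s • w2])ᵀ, ?_, by rw [cols_single, cols_single]; exact h,
    by rw [cols_single, cols_single]; exact hs⟩
  rw [det_cols]
  have : d4 u v (u + s • w1) (v + s • w2) = s * s * d4 u v w1 w2 := by
    simp [d4, Bf, plucker]
    ring
  rw [this]
  exact mul_ne_zero (mul_ne_zero hs0 hs0) hw

theorem Oct.node {L : Net} {P : Fin 8 → V4} (O : Oct L P) {c : PP}
    (hc : ∀ u v, 4 * eval (plucker u v) c = DD L u v) {i j : Fin 8} (hij : i ≠ j) :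
    OnX qq c (plucker (P i) (P j)) ∧
      ∃ κ : ℂ, ∀ y, D c (plucker (P i) (P j)) y = κ * D qq (plucker (P i) (P j)) y := by
  have hu := O.base i
  have hv := O.base j
  have h0 := O.ne i j hij
  generalize P i = u at hu hv h0
  generalize P j = v at hv h0
  refine ⟨⟨h0, qq_plucker _ _, ?_⟩, ?_⟩
  · have := hc u v
    simpa [DD, det3, hu] using this
  have hd : ∀ a b, D c (plucker u v) (plucker a v + plucker u b) = 0 := by
    intro a b
    have h1 := (hasDerivAt_eval c (hasDerivAt_plucker u a v b)).const_mul 4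
    simp only [hc, zero_smul, add_zero] at h1
    have h2 := hasDerivAt_det3 (fun k => hasDerivAt_bil (L k) u a u a)
      (fun k => hasDerivAt_bil (L k) u a v b) (fun k => hasDerivAt_bil (L k) v b v b)
    have := h1.unique h2
    simpa [det3, hu, hv] using this
  obtain ⟨w1, w2, hw⟩ := exists_compl h0
  refine ⟨D c (plucker u v) (plucker w1 w2) / d4 u v w1 w2, fun y => ?_⟩
  refine LinearMap.congr_fun (ext_pl (S := D c (plucker u v))
    (T := (D c (plucker u v) (plucker w1 w2) / d4 u v w1 w2) • D qq (plucker u v)) fun m n => ?_) y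
  obtain ⟨p, q, r, s, e⟩ := span4' hw (Pi.single m 1)
  obtain ⟨p', q', r', s', e'⟩ := span4' hw (Pi.single n 1)
  have : plucker (Pi.single m 1) (Pi.single n 1) =
      (plucker ((r * q' - q * r') • w1 + (s * q' - q * s') • w2) v +
        plucker u ((p * q' - q * p') • v + (p * r' - r * p') • w1 + (p * s' - s * p') • w2)) +
      (r * s' - s * r') • plucker w1 w2 := by
    rw [e, e']
    funext k
    fin_cases k <;> simp [plucker] <;> ring
  have hb : ∀ a b, D qq (plucker u v) (plucker a v + plucker u b) = 0 := fun a b => by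
    rw [D_qq]
    simp [Bf, plucker]
    ring
  rw [this, LinearMap.smul_apply, map_add, map_add (D qq _), hd, hb, map_smul, map_smul, D_qq]
  change _ = _ • (_ + _ • d4 u v w1 w2)
  simp only [smul_eq_mul, zero_add]
  field_simp

end Pool.Agent.P.MP_970871_ag
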