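import Pool.Agent.P.MP_970871_ag.T2

set_option autoImplicit false

namespace Pool.Agent.P.MP_970871_ag

open MvPolynomial Matrix

abbrev PV := Projectivization ℂ VV

/-- The second exterior power of a matrix. -/
noncomputable def Lam (g : M4) : VV →ₗ[ℂ] VV :=
  ∑ m : Fin 6, (LinearMap.proj m).smulRight
    (plucker (g *ᵥ Pi.single (![0, 0, 0, 1, 1, 2] m) 1) (g *ᵥ Pi.single (![1, 2, 3, 2, 3, 3] m) 1))

theorem Lam_pl (g : M4) (u v : V4) : Lam g (plucker u v) = plucker (g *ᵥ u) (g *ᵥ v) := by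
  funext i
  simp only [Lam, Fin.sum_univ_six, Matrix.cons_val, mulVec_single_one]
  fin_cases i <;> simp [plucker, mulVec, dotProduct, Fin.sum_univ_four] <;> ring

theorem Lam_mul (g h : M4) (x : VV) : Lam g (Lam h x) = Lam (g * h) x :=
  LinearMap.congr_fun (ext_pl (S := Lam g ∘ₗ Lam h) (T := Lam (g * h)) fun i j => by
    simp only [LinearMap.comp_apply, Lam_pl, mulVec_mulVec]) x

theorem Lam_one (x : VV) : Lam 1 x = x :=
  LinearMap.congr_fun (ext_pl (S := Lam 1) (T := LinearMap.id) fun i j => by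
    simp only [LinearMap.id_apply, Lam_pl, one_mulVec]) x

theorem Lam_inv {g : M4} (h : g.det ≠ 0) (x : VV) : Lam g⁻¹ (Lam g x) = x := by
  rw [Lam_mul, nonsing_inv_mul _ h.isUnit, Lam_one]

theorem Lam_inv' {g : M4} (h : g.det ≠ 0) (x : VV) : Lam g (Lam g⁻¹ x) = x := by
  rw [Lam_mul, mul_nonsing_inv _ h.isUnit, Lam_one]

/-- The map is induced by a linear map. -/
def Ind {Z W : Set PV} (T : VV →ₗ[ℂ] VV) (φ : Z → W) : Prop :=
  ∀ z, ∃ t : ℂ, (φ z).1.rep = t • T z.1.rep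

theorem Ind.morph {Z W : Set PV} {T : VV →ₗ[ℂ] VV} {φ : Z → W} (h : Ind T φ) : IsMorphism φ := by
  intro z
  refine ⟨1, 0, 1, fun i => ∑ j, C (T (Pi.single j 1) i) * X j, isHomogeneous_one _ _,
    fun i => IsHomogeneous.sum _ _ _ fun j _ => (isHomogeneous_X _ j).C_mul _, by simp,
    fun w _ => ?_⟩
  have e : (fun i => eval w.1.rep (∑ j, C (T (Pi.single j 1) i) * X j : PP)) = T w.1.rep := by
    funext i
    conv_rhs => rw [pi_eq_sum_univ' w.1.rep]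
    simp only [map_sum, map_smul, Finset.sum_apply, Pi.smul_apply, smul_eq_mul, map_mul, eval_C,
      eval_X, mul_comm]
  obtain ⟨t, ht⟩ := h w
  have h0 : T w.1.rep ≠ 0 := fun h0 => (φ w).1.rep_nonzero (by rw [ht, h0, smul_zero])
  refine ⟨e ▸ h0, ?_⟩
  rw [← (φ w).1.mk_rep, Projectivization.mk_eq_mk_iff']
  exact ⟨t, by rw [e, ht]⟩

theorem Ind.symm {Z W : Set PV} {T S : VV →ₗ[ℂ] VV} {φ : Z ≃ W} (h : Ind T φ)
    (hS : ∀ x, S (T x) = x) : Ind S φ.symm := by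
  intro w
  obtain ⟨t, ht⟩ := h (φ.symm w)
  rw [Equiv.apply_symm_apply] at ht
  have h0 : t ≠ 0 := by
    rintro rfl
    exact w.1.rep_nonzero (by rw [ht, zero_smul])
  exact ⟨t⁻¹, by rw [ht, map_smul, hS, smul_smul, inv_mul_cancel₀ h0, one_smul]⟩

theorem Ind.comp {Z W Y : Set PV} {T S : VV →ₗ[ℂ] VV} {φ : Z → W} {ψ : W → Y} (h : Ind T φ)
    (h' : Ind S ψ) : Ind (S ∘ₗ T) (ψ ∘ φ) := by
  intro z
  obtain ⟨t, ht⟩ := h z
  obtain ⟨s, hs⟩ := h' (φ z)
  exact ⟨s * t, by rw [Function.comp_apply, hs, ht, map_smul, smul_smul, LinearMap.comp_apply]⟩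

theorem eval_aeval (x : VV) (F : Fin 6 → PP) (p : PP) :
    eval x (aeval F p) = eval (fun i => eval x (F i)) p := by
  induction p using MvPolynomial.induction_on with
  | C r => simp
  | add p r hp hr => simp only [map_add, hp, hr]
  | mul_X p i hp => simp only [map_mul, hp, aeval_X, eval_X]

theorem IsMorphism.comp {Z W Y : Set PV} {φ : Z → W} {ψ : W → Y} (h : IsMorphism φ)
    (h' : IsMorphism ψ) : IsMorphism (ψ ∘ φ) := by
  intro z
  obtain ⟨d, e, s, F, hs, hF, h0, hφ⟩ := h z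
  obtain ⟨d', e', s', G, hs', hG, h0', hψ⟩ := h' (φ z)
  have key : ∀ w : Z, eval w.1.rep s ≠ 0 →
      ∃ a : ℂ, a ≠ 0 ∧ (φ w).1.rep = a • fun i => eval w.1.rep (F i) := by
    intro w hw
    obtain ⟨k, hk⟩ := hφ w hw
    rw [hk]
    exact rep_mk k
  refine ⟨d * d', e + d * e', s * aeval F s', fun i => aeval F (G i), hs.mul (hs'.aeval F hF),
    fun i => (hG i).aeval F hF, ?_, fun w hw => ?_⟩
  · obtain ⟨a, -, ea⟩ := key z h0
    rw [ea, hom_of hs' a] at h0'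
    rw [map_mul, eval_aeval]
    exact mul_ne_zero h0 (right_ne_zero_of_mul h0')
  · rw [map_mul, eval_aeval, mul_ne_zero_iff] at hw
    obtain ⟨a, ha, ea⟩ := key w hw.1
    obtain ⟨k, hk⟩ := hψ (φ w) (by
      rw [ea, hom_of hs' a]
      exact mul_ne_zero (pow_ne_zero _ ha) hw.2)
    have e1 : (fun i => eval (φ w).1.rep (G i)) =
        a ^ d' • fun i => eval w.1.rep (aeval F (G i)) := by
      funext i
      rw [ea, hom_of (hG i) a, Pi.smul_apply, eval_aeval, smul_eq_mul]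
    refine ⟨fun h0 => k (by rw [e1, h0, smul_zero]), ?_⟩
    rw [Function.comp_apply, hk, Projectivization.mk_eq_mk_iff']
    exact ⟨_, e1.symm⟩

theorem bil_conj (g Q : M4) (x y : V4) : bil (gᵀ * Q * g) x y = bil Q (g *ᵥ x) (g *ᵥ y) := by
  simp only [bil, ← mulVec_mulVec, dotProduct_mulVec x, vecMul_transpose]

theorem symm_conj (g : M4) {Q : M4} (h : Q.IsSymm) : (gᵀ * Q * g).IsSymm := by
  simp only [Matrix.IsSymm, transpose_mul, transpose_transpose, h.eq, Matrix.mul_assoc]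

theorem DD_eqv {L L' : Net} {g : M4} {A : Matrix (Fin 3) (Fin 3) ℂ}
    (h : ∀ k, L k = ∑ j, A k j • (gᵀ * L' j * g)) (u v : V4) :
    DD L u v = A.det * DD L' (g *ᵥ u) (g *ᵥ v) := by
  have : ∀ k x y, bil (L k) x y = ∑ j, A k j * bil (L' j) (g *ᵥ x) (g *ᵥ y) := by
    intro k x y
    rw [h, bil_sum (fun j => gᵀ * L' j * g)]
    simp only [bil_conj]
  simp only [DD, det3, this, Fin.sum_univ_three, det_fin_three]
  ring

theorem DD_smul (L : Net) (t : ℂ) (u v : V4) : DD L (t • u) v = t ^ 3 * DD L u v := by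
  simp only [DD, det3, bil, mulVec_smul, smul_dotProduct, dotProduct_smul, smul_eq_mul]
  ring

theorem mem_lines' {L : Net} (hL : ∀ k, (L k).IsSymm) (z : PV) :
    z ∈ lines L ↔ ∃ u v, z.rep = plucker u v ∧ DD L u v = 0 := by
  simp only [lines, Set.mem_ofPred_eq, on_quadric_iff hL]

theorem exists_map {L L' : Net} (hL : ∀ k, (L k).IsSymm) (hL' : ∀ k, (L' k).IsSymm) {g : M4}
    (hg : g.det ≠ 0) (h : ∀ u v, DD L u v = 0 → DD L' (g *ᵥ u) (g *ᵥ v) = 0) :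
    ∃ φ : lines L → lines L', Ind (Lam g) φ := by
  have h0 : ∀ z : PV, Lam g z.rep ≠ 0 := fun z h0 =>
    z.rep_nonzero (by rw [← Lam_inv hg z.rep, h0, map_zero])
  refine ⟨fun z => ⟨Projectivization.mk ℂ _ (h0 z), ?_⟩, fun z => ?_⟩
  · obtain ⟨u, v, e, hd⟩ := (mem_lines' hL _).1 z.2
    obtain ⟨a, -, ea⟩ := rep_mk (h0 z)
    refine (mem_lines' hL' _).2 ⟨a • g *ᵥ u, g *ᵥ v, ?_, by rw [DD_smul, h u v hd, mul_zero]⟩
    have := plucker_smul a 1 (g *ᵥ u) (g *ᵥ v)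
    rw [one_smul, mul_one] at this
    rw [ea, e, Lam_pl, this]
  · obtain ⟨a, -, ea⟩ := rep_mk (h0 z)
    exact ⟨a, ea⟩

theorem Ind.id {Z : Set PV} {T : VV →ₗ[ℂ] VV} {φ : Z → Z} (h : Ind T φ) (hT : ∀ x, T x = x)
    (z : Z) : φ z = z := by
  obtain ⟨t, ht⟩ := h z
  apply Subtype.ext
  rw [← (φ z).1.mk_rep, ← z.1.mk_rep, Projectivization.mk_eq_mk_iff']
  exact ⟨t, by rw [ht, hT]⟩

theorem exists_equiv {L L' : Net} (hL : ∀ k, (L k).IsSymm) (hL' : ∀ k, (L' k).IsSymm) {g : M4}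
    {A : Matrix (Fin 3) (Fin 3) ℂ} (hg : g.det ≠ 0) (hA : A.det ≠ 0)
    (h : ∀ k, L k = ∑ j, A k j • (gᵀ * L' j * g)) : ∃ φ : lines L ≃ lines L', Ind (Lam g) φ := by
  obtain ⟨φ, hφ⟩ := exists_map hL hL' hg fun u v h0 =>
    (mul_eq_zero.1 ((DD_eqv h u v).symm.trans h0)).resolve_left hA
  obtain ⟨ψ, hψ⟩ := exists_map hL' hL (g := g⁻¹) (isUnit_nonsing_inv_det g hg.isUnit).ne_zero
    fun u v h0 => by
      rw [DD_eqv h, mulVec_mulVec, mulVec_mulVec, mul_nonsing_inv _ hg.isUnit, one_mulVec,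
        one_mulVec, h0, mul_zero]
  exact ⟨⟨φ, ψ, (hφ.comp hψ).id (Lam_inv hg), (hψ.comp hφ).id (Lam_inv' hg)⟩, hφ⟩

theorem Data.conclude' (S : Data) (K : Cub) (hq : S.q = qq) (hq' : S.q' = qq) (hc : S.c = K.c)
    (h1 : K.k1 ≠ 0) (h2 : K.k2 ≠ 0) (t0 : Fin 4 → ℂ) (hsep : (K.pol.map (eval t0)).Separable)
    (B : Finset VV)
    (hB : ∀ x, eval x S.q = 0 → eval x S.c = 0 → ¬S.Good x → ∃ m ∈ B, ∃ t : ℂ, x = t • m) :
    ∃ (T : VV →ₗ[ℂ] VV) (α : ℂ), (∀ x, OnX S.q S.c x → ∃ t : ℂ, T x = t • S.Φ x) ∧ α ≠ 0 ∧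
      (∀ x y, Bf (T x) (T y) = α * Bf x y) ∧
      ∀ x, OnX S.q S.c x → (∃ κ : ℂ, ∀ v, D S.c x v = κ * D S.q x v) →
        OnX S.q' S.c' (T x) ∧ ¬Smooth S.q' S.c' (T x) := by
  obtain ⟨f, hf, f1, f2, f3⟩ := exists_form 0 1 (by decide) B
  obtain ⟨g, hg, -, g2, g3⟩ := exists_form 2 3 (by decide) B
  have hr : S.Rad (io f) := by
    unfold Data.Rad
    rw [hq, hc]
    exact K.rad h1 h2 t0 hsep f hf
  obtain ⟨T, hT⟩ := S.linearize B hB (io f) (io g) _ f1 (fun m hm t => ⟨f2 m hm t, g2 m hm t⟩) hr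
    (by rw [hq, hc]; exact K.hart h1 h2 t0 hsep (relPrime hf hg f3 g3))
  obtain ⟨α, hα⟩ := S.final hq hq' _ hr T hT
  refine ⟨T, α, fun x hx => ?_, hα⟩
  obtain ⟨d, s, F, hF, hs⟩ := S.exists_chart hx
  obtain ⟨k, hk⟩ := par_of (a := T x) (hF.ne hx hs) fun i j => by
    obtain ⟨p, hp⟩ := (IsPoly.ev s).mul (((IsPoly.lin T i).mul (IsPoly.ev (F j))).sub
      ((IsPoly.lin T j).mul (IsPoly.ev (F i))))
    obtain ⟨a, b, e⟩ := hr p fun w hw hf => by
      rw [hp]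
      by_cases h0 : eval w s = 0
      · simp only [h0, zero_mul]
      obtain ⟨t, -, e1⟩ := (hT w hw hf).par hw
      obtain ⟨t', -, e2⟩ := hF.2.2 w hw h0
      have e3 : ∀ i, eval w (F i) = t' * S.Φ w i := fun i => congrFun e2 i
      simp only [e1, e3, Pi.smul_apply, smul_eq_mul]
      ring
    have := hp x
    rw [e, map_add, map_mul, map_mul, hx.2.1, hx.2.2, mul_zero, mul_zero, add_zero] at this
    exact sub_eq_zero.1 ((mul_eq_zero.1 this.symm).resolve_left hs)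
  obtain ⟨t, -, e⟩ := hF.2.2 x hx hs
  exact ⟨k * t, by rw [hk, e, smul_smul]⟩

theorem bridge' {L L' : Net} {P P' : Fin 8 → V4} (N : Nice L P) (N' : Nice L' P') (K : Cub)
    (c' : PP) (hc : ∀ u v, 4 * eval (plucker u v) K.c = DD L u v)
    (hc' : ∀ u v, 4 * eval (plucker u v) c' = DD L' u v) (h3 : Hom K.c 3) (h3' : Hom c' 3)
    (h1 : K.k1 ≠ 0) (h2 : K.k2 ≠ 0) (t0 : Fin 4 → ℂ) (hsep : (K.pol.map (eval t0)).Separable)
    (φ : lines L ≃ lines L') (hφ : IsMorphism φ) (hψ : IsMorphism φ.symm) :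
    ∃ (T : VV →ₗ[ℂ] VV) (α : ℂ), Ind T φ ∧ α ≠ 0 ∧ (∀ x y, Bf (T x) (T y) = α * Bf x y) ∧
      ∀ x, OnX qq K.c x → (∃ κ : ℂ, ∀ v, D K.c x v = κ * D qq x v) →
        ∃ (i j : Fin 8) (t : ℂ), T x = t • plucker (P' i) (P' j) := by
  classical
  let pt : ∀ x, OnX qq K.c x → lines L := fun x hx => ⟨_, mk_mem N.sym hc h3 hx⟩
  let Φ : VV → VV := fun x => if hx : OnX qq K.c x then (φ (pt x hx)).1.rep else 0
  have hΦ : ∀ x (hx : OnX qq K.c x), Φ x = (φ (pt x hx)).1.rep := fun x hx => dif_pos hx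
  have hΦ' : ∀ x, OnX qq K.c x → OnX qq c' (Φ x) := fun x hx => by
    rw [hΦ x hx]
    exact (mem_lines N'.sym hc' _).1 (φ (pt x hx)).2
  let S : Data :=
    { q := qq
      c := K.c
      q' := qq
      c' := c'
      Φ := Φ
      hq := hom_qq
      hc := h3
      hq' := hom_qq
      hc' := h3'
      rad := fun r hr => K.rad h1 h2 t0 hsep 1 one_ne_zero r fun x hx _ => hr x hx
      hΦ := hΦ'
      loc := fun x0 hx0 => by
        obtain ⟨d, e, s, F, hs, hF, h0, h⟩ := hφ (pt x0 hx0)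
        obtain ⟨a, ha, ea⟩ := rep_mk hx0.1
        refine ⟨d, e, s, F, hom_of hs, fun i => hom_of (hF i), ?_, fun x hx hsx => ?_⟩
        · simp only [pt, ea, hom_of hs a] at h0
          exact right_ne_zero_of_mul h0
        · obtain ⟨b, hb, eb⟩ := rep_mk hx.1
          obtain ⟨h4, h5⟩ := h (pt x hx) (by
            simp only [pt, eb, hom_of hs b]
            exact mul_ne_zero (pow_ne_zero _ hb) hsx)
          obtain ⟨g, hg, eg⟩ := rep_mk h4
          refine ⟨(g * b ^ d)⁻¹, inv_ne_zero (mul_ne_zero hg (pow_ne_zero _ hb)), ?_⟩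
          rw [hΦ x hx, h5, eg]
          change _ = _ • g • ev F (Projectivization.mk ℂ x hx.1).rep
          rw [eb, ev_smul fun i => hom_of (hF i), smul_smul, smul_smul, mul_assoc,
            inv_mul_cancel₀ (mul_ne_zero hg (pow_ne_zero _ hb)), one_smul]
      inv := fun x0 hx0 => by
        obtain ⟨d, e, s, F, hs, hF, h0, h⟩ := hψ (φ (pt x0 hx0))
        refine ⟨d, e, s, F, hom_of hs, fun i => hom_of (hF i), by rwa [hΦ x0 hx0],
          fun x hx hsx => ?_⟩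
        rw [hΦ x hx] at hsx ⊢
        obtain ⟨h4, h5⟩ := h (φ (pt x hx)) hsx
        rw [Equiv.symm_apply_apply] at h5
        obtain ⟨a, ha⟩ := (Projectivization.mk_eq_mk_iff ℂ _ _ _ _).1 h5.symm
        exact ⟨a, a.ne_zero, ha.symm⟩ }
  have hm : ∀ n : VV, ∃ m : VV, ∀ x, OnX qq K.c x → (∃ t : ℂ, Φ x = t • n) →
      ∃ t : ℂ, x = t • m := by
    intro n
    by_cases hn : ∃ x, OnX qq K.c x ∧ ∃ t : ℂ, Φ x = t • n
    · obtain ⟨m, hm, s, es⟩ := hn
      refine ⟨m, fun x hx ⟨t, et⟩ => ?_⟩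
      have hs : s ≠ 0 := by
        rintro rfl
        exact (hΦ' m hm).1 (by rw [es, zero_smul])
      have : φ (pt x hx) = φ (pt m hm) := by
        apply Subtype.ext
        rw [← Projectivization.mk_rep (φ (pt x hx)).1, ← Projectivization.mk_rep (φ (pt m hm)).1,
          Projectivization.mk_eq_mk_iff']
        exact ⟨t / s, by rw [← hΦ x hx, ← hΦ m hm, es, et, smul_smul, div_mul_cancel₀ _ hs]⟩
      obtain ⟨a, ha⟩ := (Projectivization.mk_eq_mk_iff' ℂ _ _ _ _).1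
        (congrArg Subtype.val (φ.injective this))
      exact ⟨a, ha.symm⟩
    · exact ⟨0, fun x hx h => absurd ⟨x, hx, h⟩ hn⟩
  choose m hm using hm
  obtain ⟨T, α, hI, hα, hB, hT⟩ := S.conclude' K rfl rfl rfl h1 h2 t0 hsep
    (Finset.univ.image (fun p : Fin 8 × Fin 8 => plucker (P p.1) (P p.2)) ∪
      Finset.univ.image (fun p : Fin 8 × Fin 8 => m (plucker (P' p.1) (P' p.2))))
    fun x hq hcx hg => by
      by_cases hx0 : x = 0
      · exact ⟨_, Finset.mem_union_left _ (Finset.mem_image_of_mem _ (Finset.mem_univ (0, 0))), 0,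
          by rw [hx0, zero_smul]⟩
      have hx : OnX qq K.c x := ⟨hx0, hq, hcx⟩
      by_cases hs : Smooth qq K.c x
      · obtain ⟨i, j, t, e⟩ := N'.sing hc' h3' (hΦ' x hx) fun h => hg ⟨hx, hs, h⟩
        exact ⟨_, Finset.mem_union_right _ (Finset.mem_image_of_mem _ (Finset.mem_univ (i, j))),
          hm _ x hx ⟨t, e⟩⟩
      · obtain ⟨i, j, t, e⟩ := N.sing hc h3 hx hs
        exact ⟨_, Finset.mem_union_left _ (Finset.mem_image_of_mem _ (Finset.mem_univ (i, j))),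
          t, e⟩
  refine ⟨T, α, fun z => ?_, hα, hB,
    fun x hx h => N'.sing hc' h3' (hT x hx h).1 (hT x hx h).2⟩
  have hz := (mem_lines N.sym hc z.1).1 z.2
  obtain ⟨t, ht⟩ := hI _ hz
  have e : pt _ hz = z := Subtype.ext z.1.mk_rep
  change _ = t • Φ _ at ht
  rw [hΦ _ hz, e] at ht
  have h0 : t ≠ 0 := by
    rintro rfl
    refine hz.1 (Bf_nondeg fun y => (mul_eq_zero.1 ?_).resolve_left hα)
    rw [← hB, ht]
    simp [Bf]
  exact ⟨t⁻¹, by rw [ht, smul_smul, inv_mul_cancel₀ h0, one_smul]⟩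

end Pool.Agent.P.MP_970871_ag
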