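import Pool.Agent.P.MP_970871_ag.T3

set_option autoImplicit false

namespace Pool.Agent.P.MP_970871_ag

open MvPolynomial Matrix

/-- Two pairs have a common member. -/
def Meet (a b c d : Fin 8) : Prop := a = c ∨ a = d ∨ b = c ∨ b = d

theorem four_pairs {x y z a b c d : Fin 8} (hxy : x ≠ y) (hxz : x ≠ z) (hyz : y ≠ z)
    (hab : a ≠ b) (hcd : c ≠ d) (h1 : Meet x y a b) (h2 : Meet x z a b) (h3 : Meet x y c d)
    (h4 : Meet x z c d) (h5 : Meet a b c d) (n1 : ¬((c = x ∧ d = y) ∨ (c = y ∧ d = x)))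
    (n2 : ¬((c = x ∧ d = z) ∨ (c = z ∧ d = x))) (n3 : ¬((c = a ∧ d = b) ∨ (c = b ∧ d = a))) :
    a = x ∨ b = x := by
  unfold Meet at *
  grind

theorem exists_perm (R : Fin 8 → Fin 8 → Fin 8 → Fin 8 → Prop)
    (ex : ∀ i j, i ≠ j → ∃ a b, a ≠ b ∧ R i j a b) (s1 : ∀ i j a b, R i j a b → R j i a b)
    (s2 : ∀ i j a b, R i j a b → R i j b a)
    (dis : ∀ i j k l a b c d, i ≠ j → k ≠ l → a ≠ b → c ≠ d → R i j a b → R k l c d →
      (Meet i j k l ↔ Meet a b c d)) :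
    ∃ σ : Fin 8 → Fin 8, Function.Injective σ ∧ ∀ i j, i ≠ j → R i j (σ i) (σ j) := by
  have nd : ∀ i j k a b, i ≠ j → i ≠ k → j ≠ k → a ≠ b → R i j a b → ¬R i k a b := by
    intro i j k a b hij hik hjk hab h1 h2
    obtain ⟨n, hn⟩ : ∃ n, n ≠ i ∧ n ≠ j ∧ n ≠ k := by
      clear * -
      revert i j k
      decide +kernel
    obtain ⟨c, d, hcd, h3⟩ := ex k n hn.2.2.symm
    have := (dis i j k n a b c d hij hn.2.2.symm hab hcd h1 h3).2
      ((dis i k k n a b c d hik hn.2.2.symm hab hcd h2 h3).1 (by simp [Meet]))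
    unfold Meet at this
    omega
  have star : ∀ i, ∃ x, ∀ j a b, i ≠ j → a ≠ b → R i j a b → a = x ∨ b = x := by
    intro i
    obtain ⟨j1, j2, h1, h2, h12⟩ : ∃ j1 j2, i ≠ j1 ∧ i ≠ j2 ∧ j1 ≠ j2 := by
      clear * -
      revert i
      decide +kernel
    obtain ⟨x, y, z, hxy, hxz, r1, r2⟩ : ∃ x y z, x ≠ y ∧ x ≠ z ∧ R i j1 x y ∧ R i j2 x z := by
      obtain ⟨a, b, hab, r1⟩ := ex i j1 h1
      obtain ⟨c, d, hcd, r2⟩ := ex i j2 h2
      rcases (dis _ _ _ _ _ _ _ _ h1 h2 hab hcd r1 r2).1 (Or.inl rfl) with rfl | rfl | rfl | rfl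
      · exact ⟨_, _, _, hab, hcd, r1, r2⟩
      · exact ⟨_, _, _, hab, hcd.symm, r1, s2 _ _ _ _ r2⟩
      · exact ⟨_, _, _, hab.symm, hcd, s2 _ _ _ _ r1, r2⟩
      · exact ⟨_, _, _, hab.symm, hcd.symm, s2 _ _ _ _ r1, s2 _ _ _ _ r2⟩
    have hyz : y ≠ z := by
      rintro rfl
      exact nd i j1 j2 x y h1 h2 h12 hxy r1 r2
    refine ⟨x, fun j a b hj hab r => ?_⟩
    obtain ⟨n, hn⟩ : ∃ n, i ≠ n ∧ n ≠ j1 ∧ n ≠ j2 ∧ n ≠ j := by
      clear * -
      revert i j1 j2 j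
      decide +kernel
    obtain ⟨c, d, hcd, r3⟩ := ex i n hn.1
    have m := fun j k a b c d h1 h2 h3 h4 r1 r2 =>
      (dis i j i k a b c d h1 h2 h3 h4 r1 r2).1 (Or.inl rfl)
    have n : ∀ j a b, i ≠ j → n ≠ j → R i j a b → ¬((c = a ∧ d = b) ∨ (c = b ∧ d = a)) := by
      rintro j a b hj hnj r (⟨rfl, rfl⟩ | ⟨rfl, rfl⟩)
      · exact nd i n j c d hn.1 hj hnj hcd r3 r
      · exact nd i n j c d hn.1 hj hnj hcd r3 (s2 _ _ _ _ r)
    exact four_pairs hxy hxz hyz hab hcd (m _ _ _ _ _ _ h1 hj hxy hab r1 r)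
      (m _ _ _ _ _ _ h2 hj hxz hab r2 r) (m _ _ _ _ _ _ h1 hn.1 hxy hcd r1 r3)
      (m _ _ _ _ _ _ h2 hn.1 hxz hcd r2 r3) (m _ _ _ _ _ _ hj hn.1 hab hcd r r3)
      (n _ _ _ h1 hn.2.1 r1) (n _ _ _ h2 hn.2.2.1 r2) (n _ _ _ hj hn.2.2.2 r)
  choose σ hσ using star
  have hinj : Function.Injective σ := by
    intro i k e
    by_contra hik
    obtain ⟨j, l, h⟩ : ∃ j l, i ≠ j ∧ k ≠ l ∧ i ≠ l ∧ j ≠ k ∧ j ≠ l := by
      clear * -
      revert i k
      decide +kernel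
    obtain ⟨a, b, hab, r1⟩ := ex i j h.1
    obtain ⟨c, d, hcd, r2⟩ := ex k l h.2.1
    have h1 := hσ _ _ _ _ h.1 hab r1
    have h2 := hσ _ _ _ _ h.2.1 hcd r2
    have := (dis _ _ _ _ _ _ _ _ h.1 h.2.1 hab hcd r1 r2).2 (by unfold Meet; omega)
    unfold Meet at this
    omega
  refine ⟨σ, hinj, fun i j hij => ?_⟩
  obtain ⟨a, b, hab, r⟩ := ex i j hij
  have h1 := hσ _ _ _ _ hij hab r
  have h2 := hσ _ _ _ _ hij.symm hab (s1 _ _ _ _ r)
  have h3 := hinj.ne hij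
  rcases h1 with rfl | rfl <;> rcases h2 with h2 | h2
  · exact absurd h2 h3
  · exact h2 ▸ r
  · exact h2 ▸ s2 _ _ _ _ r
  · exact absurd h2 h3

theorem plucker_swap (u v : V4) : plucker v u = (-1 : ℂ) • plucker u v := by
  funext i
  fin_cases i <;> simp [plucker] <;> ring

theorem Oct.meet {L : Net} {P : Fin 8 → V4} (O : Oct L P) {i j k l : Fin 8} (hij : i ≠ j)
    (hkl : k ≠ l) : Meet i j k l ↔ d4 (P i) (P j) (P k) (P l) = 0 := by
  constructor
  · rintro (rfl | rfl | rfl | rfl) <;> simp [d4, Bf, plucker] <;> ring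
  · intro h
    by_contra hm
    simp only [Meet, not_or] at hm
    exact O.gen hij hm.1 hm.2.1 hm.2.2.1 hm.2.2.2 hkl h

theorem Bf_smul (s t : ℂ) (x y : VV) : Bf (s • x) (t • y) = s * t * Bf x y := by
  simp only [Bf, Pi.smul_apply, smul_eq_mul]
  ring

theorem Oct.perm {L L' : Net} {P P' : Fin 8 → V4} (O : Oct L P) (O' : Oct L' P')
    {T : VV →ₗ[ℂ] VV} {α : ℂ} (hα : α ≠ 0) (hB : ∀ x y, Bf (T x) (T y) = α * Bf x y)
    (h : ∀ i j, i ≠ j → ∃ (a b : Fin 8) (t : ℂ), T (plucker (P i) (P j)) = t • plucker (P' a) (P' b)) :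
    ∃ σ : Fin 8 → Fin 8, Function.Injective σ ∧ ∀ i j, i ≠ j →
      ∃ t : ℂ, t ≠ 0 ∧ T (plucker (P i) (P j)) = t • plucker (P' (σ i)) (P' (σ j)) := by
  refine exists_perm (fun i j a b => ∃ t : ℂ, t ≠ 0 ∧
    T (plucker (P i) (P j)) = t • plucker (P' a) (P' b)) (fun i j hij => ?_) ?_ ?_ ?_
  · obtain ⟨a, b, t, e⟩ := h i j hij
    have h0 : T (plucker (P i) (P j)) ≠ 0 := fun h0 => O.ne i j hij (Bf_nondeg fun y =>
      (mul_eq_zero.1 (by rw [← hB, h0]; simp [Bf])).resolve_left hα)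
    refine ⟨a, b, ?_, t, ?_, e⟩
    · rintro rfl
      exact h0 (by rw [e, Dep.plucker ⟨1, -1, Or.inl one_ne_zero, by simp⟩, smul_zero])
    · rintro rfl
      exact h0 (by rw [e, zero_smul])
  · rintro i j a b ⟨t, ht, e⟩
    exact ⟨-t, neg_ne_zero.2 ht, by rw [plucker_swap, map_smul, e, smul_smul, neg_one_mul]⟩
  · rintro i j a b ⟨t, ht, e⟩
    exact ⟨-t, neg_ne_zero.2 ht, by rw [plucker_swap (P' a), e, smul_smul]; simp⟩
  · rintro i j k l a b c d hij hkl hab hcd ⟨s, hs, e⟩ ⟨t, ht, e'⟩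
    have := hB (plucker (P i) (P j)) (plucker (P k) (P l))
    rw [e, e', Bf_smul] at this
    rw [O.meet hij hkl, O'.meet hab hcd, ← mul_eq_zero_iff_left hα,
      ← mul_eq_zero_iff_left (mul_ne_zero hs ht) (b := d4 _ _ _ _), d4, d4, this]

theorem d4_smul (a b c d : V4) (p q r s : ℂ) :
    d4 (p • a) (q • b) (r • c) (s • d) = p * q * r * s * d4 a b c d := by
  simp only [d4, plucker_smul, Bf_smul]
  ring

/-- A projective frame through five points in general position. -/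
theorem exists_pframe (P : Fin 8 → V4) (h : ∀ a b c d : Fin 8, a ≠ b → a ≠ c → a ≠ d → b ≠ c →
    b ≠ d → c ≠ d → d4 (P a) (P b) (P c) (P d) ≠ 0) : ∃ G : M4, G.det ≠ 0 ∧
      (∀ i : Fin 4, ∃ c : ℂ, c ≠ 0 ∧ G *ᵥ Pi.single i 1 = c • P (i.castLE (by norm_num))) ∧
      G *ᵥ 1 = P 4 := by
  have h0 := h 0 1 2 3 (by decide) (by decide) (by decide) (by decide) (by decide) (by decide)
  have c0 := div_ne_zero
    (h 4 1 2 3 (by decide) (by decide) (by decide) (by decide) (by decide) (by decide)) h0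
  have c1 := div_ne_zero
    (h 0 4 2 3 (by decide) (by decide) (by decide) (by decide) (by decide) (by decide)) h0
  have c2 := div_ne_zero
    (h 0 1 4 3 (by decide) (by decide) (by decide) (by decide) (by decide) (by decide)) h0
  have c3 := div_ne_zero
    (h 0 1 2 4 (by decide) (by decide) (by decide) (by decide) (by decide) (by decide)) h0
  have e := span4 h0 (P 4)
  generalize d4 (P 4) (P 1) (P 2) (P 3) / _ = p at c0 e
  generalize d4 (P 0) (P 4) (P 2) (P 3) / _ = q at c1 e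
  generalize d4 (P 0) (P 1) (P 4) (P 3) / _ = r at c2 e
  generalize d4 (P 0) (P 1) (P 2) (P 4) / _ = s at c3 e
  refine ⟨(Matrix.of ![p • P 0, q • P 1, r • P 2, s • P 3])ᵀ, ?_, fun i => ?_, ?_⟩
  · rw [det_cols, d4_smul]
    exact mul_ne_zero (mul_ne_zero (mul_ne_zero (mul_ne_zero c0 c1) c2) c3) h0
  · rw [cols_single]
    fin_cases i
    exacts [⟨p, c0, rfl⟩, ⟨q, c1, rfl⟩, ⟨r, c2, rfl⟩, ⟨s, c3, rfl⟩]
  · rw [e]
    funext i
    simp [mulVec, dotProduct, Fin.sum_univ_four]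

theorem scalar_of (T : VV →ₗ[ℂ] VV)
    (h : ∀ i j : Fin 4, i ≠ j → ∃ t : ℂ, T (plucker (Pi.single i 1) (Pi.single j 1)) =
      t • plucker (Pi.single i 1) (Pi.single j 1))
    (h' : ∀ i : Fin 4, ∃ t : ℂ, T (plucker (Pi.single i 1) 1) = t • plucker (Pi.single i 1) 1) :
    ∃ β : ℂ, ∀ x, T x = β • x := by
  choose! t ht using h
  have key : ∀ i, ∃ s, ∀ j, i ≠ j → t i j = s := by
    intro i
    obtain ⟨s, hs⟩ := h' i
    refine ⟨s, fun j hj => ?_⟩
    have e : plucker (Pi.single i 1) 1 = ∑ k, plucker (Pi.single i 1) (Pi.single k 1) := by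
      funext m
      fin_cases m <;> simp [plucker, Pi.single_apply]
    have z : ∀ k : Fin 4, T (plucker (Pi.single i 1) (Pi.single k 1)) =
        t i k • plucker (Pi.single i 1) (Pi.single k 1) := fun k => by
      by_cases hk : i = k
      · rw [← hk, Dep.plucker ⟨1, -1, Or.inl one_ne_zero, by simp⟩, map_zero, smul_zero]
      · exact ht i k hk
    rw [e, map_sum, Finset.smul_sum] at hs
    simp only [z, Fin.sum_univ_four] at hs
    have h0 := congrFun hs 0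
    have h1 := congrFun hs 1
    have h2 := congrFun hs 2
    have h3 := congrFun hs 3
    have h4 := congrFun hs 4
    have h5 := congrFun hs 5
    simp only [Pi.add_apply, Pi.smul_apply, plucker, Matrix.cons_val] at h0 h1 h2 h3 h4 h5
    fin_cases i <;> fin_cases j <;> simp at hj h0 h1 h2 h3 h4 h5 ⊢ <;> simp [*]
  have sy : ∀ i j, i ≠ j → t j i = t i j := by
    intro i j hij
    have h1 := ht j i hij.symm
    rw [plucker_swap, map_smul, ht i j hij, smul_smul, smul_smul] at h1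
    have h2 : plucker (Pi.single i 1) (Pi.single j 1) ≠ 0 := fun h0 => by
      obtain ⟨s, hs⟩ := (dep_of_plucker h0).eq_smul (by simp)
      simpa [hij.symm] using congrFun hs j
    have := smul_left_injective ℂ h2 h1
    linear_combination this
  choose s hs using key
  refine ⟨s 0, fun x => LinearMap.congr_fun (ext_pl (S := T) (T := s 0 • LinearMap.id)
    fun i j => ?_) x⟩
  by_cases hij : i = j
  · rw [← hij, Dep.plucker ⟨1, -1, Or.inl one_ne_zero, by simp⟩, map_zero, map_zero]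
  rw [ht i j hij, hs i j hij]
  by_cases h0 : i = 0
  · rw [h0]
    rfl
  · rw [← hs i 0 h0, ← sy i 0 h0, hs 0 i (Ne.symm h0)]
    rfl

end Pool.Agent.P.MP_970871_ag
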