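import Pool.Agent.P.MP_970871_ag.T4

set_option autoImplicit false

namespace Pool.Agent.P.MP_970871_ag

open MvPolynomial Matrix

theorem same_point {a b x y w : V4} {s t : ℂ} (h : d4 a b x w ≠ 0)
    (h1 : plucker a y = s • plucker a x) (h2 : plucker b y = t • plucker b x) :
    ∃ r : ℂ, y = r • x := by
  have e := span4 h y
  have k1 : d4 a y x w = 0 := by
    rw [d4, h1]
    simp [Bf, plucker]
    ring
  have k2 : d4 y b x w = 0 := by
    rw [d4, plucker_swap b, h2]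
    simp [Bf, plucker]
    ring
  have k3 : d4 a b x y = 0 := by
    have : d4 a b x y = Bf (plucker a y) (plucker b x) := by
      simp [d4, Bf, plucker]
      ring
    rw [this, h1]
    simp [Bf, plucker]
    ring
  rw [k1, k2, k3] at e
  exact ⟨_, by simpa using e⟩

theorem d4_mulVec (g : M4) (a b c d : V4) :
    d4 (g *ᵥ a) (g *ᵥ b) (g *ᵥ c) (g *ᵥ d) = g.det * d4 a b c d := by
  rw [← det_cols, ← det_cols, ← det_mul]
  congr 1
  ext i j
  fin_cases j <;> rfl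

theorem recover {P P' : Fin 8 → V4} (h : ∀ a b c d : Fin 8, a ≠ b → a ≠ c → a ≠ d → b ≠ c →
    b ≠ d → c ≠ d → d4 (P a) (P b) (P c) (P d) ≠ 0)
    (h' : ∀ a b c d : Fin 8, a ≠ b → a ≠ c → a ≠ d → b ≠ c →
      b ≠ d → c ≠ d → d4 (P' a) (P' b) (P' c) (P' d) ≠ 0) (T : VV →ₗ[ℂ] VV)
    (hT : ∀ i j, i ≠ j → ∃ t : ℂ, t ≠ 0 ∧ T (plucker (P i) (P j)) = t • plucker (P' i) (P' j)) :
    ∃ (g : M4) (β : ℂ), g.det ≠ 0 ∧ (∀ x, T x = β • Lam g x) ∧
      ∀ i, ∃ a : ℂ, g *ᵥ P i = a • P' i := by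
  obtain ⟨G, hG, e1, e2⟩ := exists_pframe P h
  obtain ⟨G', hG', e1', e2'⟩ := exists_pframe P' h'
  have back : ∀ {x y : V4} {c : ℂ}, c ≠ 0 → G' *ᵥ x = c • y → G'⁻¹ *ᵥ y = c⁻¹ • x := by
    intro x y c hc e
    have := congrArg (fun v => c⁻¹ • G'⁻¹ *ᵥ v) e
    simp only [mulVec_mulVec, nonsing_inv_mul _ hG'.isUnit, one_mulVec, mulVec_smul, smul_smul,
      inv_mul_cancel₀ hc, one_smul] at this
    exact this.symm
  have step : ∀ (u v : V4) (i j : Fin 8) (a b a' b' : ℂ), i ≠ j → a' ≠ 0 → b' ≠ 0 →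
      G *ᵥ u = a • P i → G *ᵥ v = b • P j → G' *ᵥ u = a' • P' i → G' *ᵥ v = b' • P' j →
      ∃ t : ℂ, (Lam G'⁻¹ ∘ₗ T ∘ₗ Lam G) (plucker u v) = t • plucker u v := by
    intro u v i j a b a' b' hij ha hb k1 k2 k3 k4
    obtain ⟨t, -, e⟩ := hT i j hij
    exact ⟨_, by
      simp only [LinearMap.comp_apply, Lam_pl, k1, k2, plucker_smul, map_smul, e, back ha k3,
        back hb k4, smul_smul]
      rfl⟩
  obtain ⟨β, hβ⟩ := scalar_of (Lam G'⁻¹ ∘ₗ T ∘ₗ Lam G) (fun i j hij => by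
    obtain ⟨a, -, k1⟩ := e1 i
    obtain ⟨b, -, k2⟩ := e1 j
    obtain ⟨a', ha, k3⟩ := e1' i
    obtain ⟨b', hb, k4⟩ := e1' j
    exact step _ _ _ _ _ _ _ _ ((Fin.castLE_injective _).ne hij) ha hb k1 k2 k3 k4) fun i => by
      obtain ⟨a, -, k1⟩ := e1 i
      obtain ⟨a', ha, k3⟩ := e1' i
      exact step _ _ _ 4 _ 1 _ 1 (by clear * -; revert i; decide) ha one_ne_zero k1 (by rw [e2, one_smul]) k3
        (by rw [e2', one_smul])
  have hd : (G' * G⁻¹).det ≠ 0 := by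
    rw [det_mul]
    exact mul_ne_zero hG' (isUnit_nonsing_inv_det G hG.isUnit).ne_zero
  have hTx : ∀ x, T x = β • Lam (G' * G⁻¹) x := by
    intro x
    have := congrArg (Lam G') (hβ (Lam G⁻¹ x))
    rwa [LinearMap.comp_apply, LinearMap.comp_apply, Lam_inv' hG', Lam_inv' hG, map_smul,
      Lam_mul] at this
  have fw : ∀ {x : V4} {i : Fin 8} {c c' : ℂ}, c ≠ 0 → G *ᵥ x = c • P i → G' *ᵥ x = c' • P' i →
      (G' * G⁻¹) *ᵥ P i = (c⁻¹ * c') • P' i := by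
    intro x i c c' hc k k'
    have : P i = c⁻¹ • G *ᵥ x := by rw [k, smul_smul, inv_mul_cancel₀ hc, one_smul]
    rw [this, mulVec_smul, mulVec_mulVec, Matrix.mul_assoc, nonsing_inv_mul _ hG.isUnit,
      Matrix.mul_one, k', smul_smul]
  have low : ∀ i : Fin 4, ∃ a : ℂ, a ≠ 0 ∧
      (G' * G⁻¹) *ᵥ P (i.castLE (by norm_num)) = a • P' (i.castLE (by norm_num)) := by
    intro i
    obtain ⟨a, ha, k1⟩ := e1 i
    obtain ⟨a', ha', k3⟩ := e1' i
    exact ⟨_, mul_ne_zero (inv_ne_zero ha) ha', fw ha k1 k3⟩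
  refine ⟨G' * G⁻¹, β, hd, hTx, fun i => ?_⟩
  obtain ⟨m, n, l, k1, k2, k3, k4, k5, k6⟩ : ∃ (m n : Fin 4) (l : Fin 8),
      m.castLE (by norm_num) ≠ n.castLE (show 4 ≤ 8 by norm_num) ∧ m.castLE (by norm_num) ≠ i ∧
      m.castLE (by norm_num) ≠ l ∧ n.castLE (by norm_num) ≠ i ∧ n.castLE (by norm_num) ≠ l ∧
      i ≠ l := by
    revert i
    decide +kernel
  have hd4 := h' _ _ _ _ k1 k2 k3 k4 k5 k6
  have key : ∀ m : Fin 4, m.castLE (by norm_num) ≠ i →
      plucker (P' (m.castLE (by norm_num))) (P' i) ≠ 0 →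
      ∃ s : ℂ, plucker (P' (m.castLE (by norm_num))) ((G' * G⁻¹) *ᵥ P i) =
        s • plucker (P' (m.castLE (by norm_num))) (P' i) := by
    intro m hm h0
    obtain ⟨t, ht, e⟩ := hT _ _ hm
    obtain ⟨a, ha, ea⟩ := low m
    have e3 := plucker_smul a 1 (P' (m.castLE (by norm_num))) ((G' * G⁻¹) *ᵥ P i)
    rw [one_smul, mul_one] at e3
    rw [hTx, Lam_pl, ea, e3, smul_smul] at e
    have hβ0 : β ≠ 0 := by
      rintro rfl
      exact smul_ne_zero ht h0 (by rw [← e, zero_mul, zero_smul])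
    exact ⟨(β * a)⁻¹ * t, by
      rw [mul_smul, ← e, smul_smul, inv_mul_cancel₀ (mul_ne_zero hβ0 ha), one_smul]⟩
  obtain ⟨s, hs⟩ := key m k2 fun h0 => h' _ _ _ _ k2 k1 k3 k4.symm k6 k5 (by simp [d4, h0, Bf])
  obtain ⟨t, ht⟩ := key n k4 fun h0 =>
    h' _ _ _ _ k4 k1.symm k5 k2.symm k6 k3 (by simp [d4, h0, Bf])
  exact same_point hd4 hs ht

theorem exists_quadric (P : Fin 7 → V4) (h : ∀ a b c d : Fin 7, a ≠ b → a ≠ c → a ≠ d → b ≠ c →
    b ≠ d → c ≠ d → d4 (P a) (P b) (P c) (P d) ≠ 0) (i : Fin 7) :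
    ∃ R : M4, R.IsSymm ∧ ∀ j, bil R (P j) (P j) = if j = i then 1 else 0 := by
  let f : Fin 6 → V4 := fun n => P (i.succAbove n)
  let cr : V4 → V4 → V4 → V4 := fun a b c m => d4 (Pi.single m 1) a b c
  have hcr : ∀ a b c x, x ⬝ᵥ cr a b c = d4 x a b c := by
    intro a b c x
    simp [cr, d4, Bf, plucker, dotProduct, Fin.sum_univ_four]
    ring
  have hne : ∀ a b c : Fin 6, a ≠ b → a ≠ c → b ≠ c → d4 (P i) (f a) (f b) (f c) ≠ 0 :=
    fun a b c h1 h2 h3 => h _ _ _ _ (Fin.succAbove_ne i a).symm (Fin.succAbove_ne i b).symm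
      (Fin.succAbove_ne i c).symm (Fin.succAbove_right_injective.ne h1)
      (Fin.succAbove_right_injective.ne h2) (Fin.succAbove_right_injective.ne h3)
  have h1 := hne 0 1 2 (by decide) (by decide) (by decide)
  have h2 := hne 3 4 5 (by decide) (by decide) (by decide)
  refine ⟨(2 * d4 (P i) (f 0) (f 1) (f 2) * d4 (P i) (f 3) (f 4) (f 5))⁻¹ •
    (vecMulVec (cr (f 0) (f 1) (f 2)) (cr (f 3) (f 4) (f 5)) +
      vecMulVec (cr (f 3) (f 4) (f 5)) (cr (f 0) (f 1) (f 2))), ?_, fun j => ?_⟩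
  · simp only [Matrix.IsSymm, transpose_smul, transpose_add, transpose_vecMulVec, add_comm]
  simp only [bil, smul_mulVec, add_mulVec, vecMulVec_mulVec, dotProduct_smul, dotProduct_add,
    op_smul_eq_smul, smul_eq_mul, dotProduct_comm (cr _ _ _), hcr]
  rcases Fin.eq_self_or_eq_succAbove i j with rfl | ⟨n, rfl⟩
  · rw [if_pos rfl]
    field_simp
    ring
  · rw [if_neg (Fin.succAbove_ne i n)]
    have : d4 (f n) (f 0) (f 1) (f 2) * d4 (f n) (f 3) (f 4) (f 5) = 0 := by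
      generalize f = f
      rw [mul_eq_zero]
      fin_cases n
      iterate 3 left; simp [d4, Bf, plucker]; ring
      iterate 3 right; simp [d4, Bf, plucker]; ring
    change _ * (d4 (f n) _ _ _ * d4 (f n) _ _ _ + d4 (f n) _ _ _ * d4 (f n) _ _ _) = 0
    rw [this, mul_comm (d4 (f n) _ _ _), this, add_zero, mul_zero]

theorem mem_span_net (P : Fin 7 → V4) (h : ∀ a b c d : Fin 7, a ≠ b → a ≠ c → a ≠ d → b ≠ c →
    b ≠ d → c ≠ d → d4 (P a) (P b) (P c) (P d) ≠ 0) {M : Net} (hM : LinearIndependent ℂ M)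
    (hs : ∀ k, (M k).IsSymm) (hb : ∀ i k, bil (M k) (P i) (P i) = 0) {Q : M4} (hQ : Q.IsSymm)
    (hQb : ∀ i, bil Q (P i) (P i) = 0) : ∃ a : Fin 3 → ℂ, ∑ j, a j • M j = Q := by
  let Φ : M4 →ₗ[ℂ] (Fin 7 → ℂ) × VV :=
    { toFun := fun Q => (fun i => bil Q (P i) (P i), ![Q 0 1 - Q 1 0, Q 0 2 - Q 2 0,
        Q 0 3 - Q 3 0, Q 1 2 - Q 2 1, Q 1 3 - Q 3 1, Q 2 3 - Q 3 2])
      map_add' := fun A B => by
        ext i
        · simp [bil, add_mulVec]
        · fin_cases i <;> simp <;> ring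
      map_smul' := fun t A => by
        ext i
        · simp [bil, smul_mulVec]
        · fin_cases i <;> simp <;> ring }
  have hΦ : ∀ Q : M4, Q.IsSymm → Φ Q = (fun i => bil Q (P i) (P i), 0) := by
    intro Q hQ
    refine Prod.ext rfl (funext fun i => ?_)
    fin_cases i <;> exact sub_eq_zero.2 (hQ.apply _ _)
  have hsurj : LinearMap.range Φ = ⊤ := by
    choose R hR1 hR2 using exists_quadric P h
    refine LinearMap.range_eq_top.2 fun ⟨a, s⟩ => ⟨∑ i, a i • R i + (1 / 2 : ℂ) • Om s, ?_⟩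
    have h1 : Φ (Om s) = (0, (2 : ℂ) • s) := by
      refine Prod.ext (funext fun i => ?_) (funext fun i => ?_)
      · simp [Φ, bil, Om_apply, mulVec, dotProduct, Fin.sum_univ_four]
        ring
      · fin_cases i <;> simp [Φ, Om_apply, two_mul]
    rw [map_add, map_sum, map_smul, h1]
    simp only [map_smul, hΦ _ (hR1 _), hR2]
    ext i
    · simp [Prod.fst_sum]
    · simp [Prod.snd_sum]
  have hk : Module.finrank ℂ (LinearMap.ker Φ) = 3 := by
    have := LinearMap.finrank_range_add_finrank_ker Φ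
    rw [hsurj, finrank_top, Module.finrank_prod, Module.finrank_matrix] at this
    simp only [Module.finrank_fin_fun, Fintype.card_fin, Module.finrank_self] at this
    omega
  have hle : Submodule.span ℂ (Set.range M) ≤ LinearMap.ker Φ := by
    rw [Submodule.span_le]
    rintro _ ⟨k, rfl⟩
    exact (hΦ _ (hs k)).trans (Prod.ext (funext fun i => hb i k) rfl)
  have := Submodule.eq_of_le_of_finrank_eq hle (by rw [finrank_span_eq_card hM, hk]; rfl)
  rw [← Submodule.mem_span_range_iff_exists_fun, this]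
  exact (hΦ _ hQ).trans (Prod.ext (funext hQb) rfl)

theorem Oct.conj {L : Net} {P : Fin 8 → V4} (O : Oct L P) {G : M4} (hG : G.det ≠ 0) :
    Oct (fun k => Gᵀ * L k * G) fun i => G⁻¹ *ᵥ P i := by
  have e : ∀ x, G *ᵥ G⁻¹ *ᵥ x = x := fun x => by
    rw [mulVec_mulVec, mul_nonsing_inv _ hG.isUnit, one_mulVec]
  refine ⟨O.toNice.transfer G.mulVecLin G⁻¹.mulVecLin (fun x => ?_) e
    (fun k => symm_conj G (O.sym k)) fun k => bil_conj G _, fun i k => ?_, fun i j hij h0 => ?_⟩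
  · simp only [mulVecLin_apply, mulVec_mulVec, nonsing_inv_mul _ hG.isUnit, one_mulVec]
  · rw [bil_conj, e, O.base]
  · exact O.ne i j hij (by rw [← e (P i), ← e (P j), ← Lam_pl, h0, map_zero])

theorem Oct.indep {L : Net} {P : Fin 8 → V4} (O : Oct L P) : LinearIndependent ℂ L := by
  rw [Fintype.linearIndependent_iff]
  intro l hl k
  refine congrFun (O.h2 0 l fun a => ?_) k
  rw [← bil_sum, hl]
  simp [bil]

theorem torelli {L L' : Net} (h : IsRegularNet L) (h' : IsRegularNet L')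
    (φ : lines L ≃ lines L') (hφ : IsMorphism φ) (hψ : IsMorphism φ.symm) :
    ∃ (g : M4) (A : Matrix (Fin 3) (Fin 3) ℂ), g.det ≠ 0 ∧ A.det ≠ 0 ∧
      (∀ k, L k = ∑ j, A k j • (gᵀ * L' j * g)) ∧ Ind (Lam g) φ := by
  classical
  obtain ⟨P, O⟩ := h.oct
  obtain ⟨P', O'⟩ := h'.oct
  obtain ⟨G, hG, d1, d2⟩ := O.toNice.exists_frame
  have O1 := O.conj hG
  have e1 : ∀ k, (fun k => Gᵀ * L k * G) k =
      ∑ j, (1 : Matrix (Fin 3) (Fin 3) ℂ) k j • (Gᵀ * L j * G) := fun k => by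
    simp [one_apply]
  obtain ⟨ψ, hψ1⟩ := exists_equiv O1.sym O.sym hG (by simp) e1
  have hψ2 := hψ1.symm (Lam_inv hG)
  obtain ⟨K, K3, hK, k1, k2⟩ := exists_cub O1.sym
  obtain ⟨K', K3', hK', -⟩ := exists_cub O'.sym
  rw [DD_eqv e1, det_one, one_mul] at k1 k2
  have h1 : K.k1 ≠ 0 := fun h0 => d1 (by rw [← k1, h0, mul_zero])
  have h2 : K.k2 ≠ 0 := fun h0 => d2 (by rw [← k2, h0, mul_zero])
  obtain ⟨t0, hsep⟩ := K.exists_sep h1 h2
    (Finset.univ.image fun p : Fin 8 × Fin 8 => plucker (G⁻¹ *ᵥ P p.1) (G⁻¹ *ᵥ P p.2))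
    fun x hx hs => by
      obtain ⟨i, j, t, e⟩ := O1.toNice.sing hK K3 hx hs
      exact ⟨_, Finset.mem_image_of_mem _ (Finset.mem_univ (i, j)), t, e⟩
  obtain ⟨T, α, hI, hα, hB, hT⟩ := bridge' O1.toNice O'.toNice K K'.c hK hK' K3 K3' h1 h2 t0 hsep
    (ψ.trans φ) (hψ1.morph.comp hφ) (hψ.comp hψ2.morph)
  obtain ⟨σ, hσ, hn⟩ := O1.perm O' hα hB fun i j hij =>
    hT _ (O1.node hK hij).1 (O1.node hK hij).2
  obtain ⟨g, β, hg, hTg, hP⟩ := recover (P := P) (P' := fun i => P' (σ i))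
    (fun a b c d => O.gen) (fun a b c d h1 h2 h3 h4 h5 h6 =>
      O'.gen (hσ.ne h1) (hσ.ne h2) (hσ.ne h3) (hσ.ne h4) (hσ.ne h5) (hσ.ne h6))
    (T ∘ₗ Lam G⁻¹) fun i j hij => by
      rw [LinearMap.comp_apply, Lam_pl]
      exact hn i j hij
  have hc := Fin.castSucc_injective 7
  choose A hA using fun k => mem_span_net (fun i => P i.castSucc)
    (fun a b c d h1 h2 h3 h4 h5 h6 =>
      O.gen (hc.ne h1) (hc.ne h2) (hc.ne h3) (hc.ne h4) (hc.ne h5) (hc.ne h6))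
    (O'.conj hg).indep (O'.conj hg).sym (fun i k => by
      obtain ⟨a, e⟩ := hP i.castSucc
      have := O'.base (σ i.castSucc) k
      rw [bil_conj, e]
      simp only [bil, mulVec_smul, smul_dotProduct, dotProduct_smul] at this ⊢
      rw [this, smul_zero, smul_zero]) (O.sym k) fun i => O.base _ k
  refine ⟨g, Matrix.of A, hg, fun h0 => ?_, fun k => (hA k).symm, fun z => ?_⟩
  · obtain ⟨l, hl, e⟩ := exists_vecMul_eq_zero_iff.2 h0
    refine hl (funext (Fintype.linearIndependent_iff.1 O.indep l ?_))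
    have e' : ∀ j, ∑ k, l k * A k j = 0 := fun j => congrFun e j
    simp only [← hA, Finset.smul_sum, smul_smul]
    rw [Finset.sum_comm]
    simp only [← Finset.sum_smul, e', zero_smul, Finset.sum_const_zero]
  · obtain ⟨t, ht⟩ := (hψ2.comp hI) z
    refine ⟨t * β, ?_⟩
    rw [mul_smul, ← hTg, ← ht]
    simp

end Pool.Agent.P.MP_970871_ag
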